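import Mathlib
import Pool.Agent.TH278.DX.Defs3
import Pool.Agent.TH576.J4447
import Pool.Agent.TH228.J4953
set_option autoImplicit false

/-!
# Uniformly bounded representations of amenable groups are unitarizable (Day, Dixmier)
-/

namespace Pool.Agent.TH889.J5187

open Pool.Agent.TH278.DX
open scoped ComplexConjugate

lemma mean_re {G : Type} {M : (G → ℂ) → ℂ}
    (hadd : ∀ f h : G → ℂ, (∃ C, ∀ x, ‖f x‖ ≤ C) → (∃ C, ∀ x, ‖h x‖ ≤ C) →
        M (fun x => f x + h x) = M f + M h)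
    (hconst : ∀ (c : ℂ), M (fun _ => c) = c)
    (hnorm : ∀ (f : G → ℂ) (C : ℝ), (∀ x, ‖f x‖ ≤ C) → ‖M f‖ ≤ C)
    (φ : G → ℝ) (a b : ℝ) (ha : ∀ g, a ≤ φ g) (hb : ∀ g, φ g ≤ b) :
    a ≤ (M (fun g => (φ g : ℂ))).re ∧ (M (fun g => (φ g : ℂ))).re ≤ b := by
  have hbd : ∃ C, ∀ x, ‖((φ x : ℝ) : ℂ)‖ ≤ C := by
    refine ⟨|a| + |b|, fun g => ?_⟩
    rw [Complex.norm_real, Real.norm_eq_abs, abs_le]
    have h1 := ha g
    have h2 := hb g
    have h3 := neg_abs_le a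
    have h4 := le_abs_self b
    have h5 := abs_nonneg a
    have h6 := abs_nonneg b
    constructor <;> linarith
  have key : ∀ t : ℝ, (∀ g, |φ g - t| ≤ b - a) → |(M (fun g => (φ g : ℂ))).re - t| ≤ b - a := by
    intro t ht
    have h1 := hadd (fun g => (φ g : ℂ)) (fun _ => ((-t : ℝ) : ℂ)) hbd
      ⟨‖((-t : ℝ) : ℂ)‖, fun _ => le_rfl⟩
    rw [hconst] at h1
    have h2 := hnorm (fun g => (φ g : ℂ) + ((-t : ℝ) : ℂ)) (b - a) (fun g => by
      rw [← Complex.ofReal_add, Complex.norm_real, Real.norm_eq_abs]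
      have := ht g
      rwa [sub_eq_add_neg] at this)
    rw [h1] at h2
    have h3 := (Complex.abs_re_le_norm _).trans h2
    rw [Complex.add_re, Complex.ofReal_re, ← sub_eq_add_neg] at h3
    exact h3
  constructor
  · have h := key b (fun g => by
      rw [abs_le]
      constructor <;> linarith [ha g, hb g])
    rw [abs_le] at h
    linarith [h.1]
  · have h := key a (fun g => by
      rw [abs_le]
      constructor <;> linarith [ha g, hb g])
    rw [abs_le] at h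
    linarith [h.2]

theorem unitarizable_of_amenable {G H : Type} [Group G] [NormedAddCommGroup H]
    [InnerProductSpace ℂ H] [CompleteSpace H] (hG : Amenable G) (π : G →* (H →L[ℂ] H)ˣ) (c : ℝ)
    (hπ : Bdd π c) : ∃ κ : ℝ, Sim π κ := by
  obtain ⟨M, hadd, hsmul, hconst, hnorm, hinv⟩ := j4953_exists hG
  obtain ⟨k, hk1, hk⟩ : ∃ k : ℝ, 1 ≤ k ∧ Bdd π k :=
    ⟨max c 1, le_max_right _ _, fun g => (hπ g).trans (le_max_left _ _)⟩
  have hk0 : 0 < k := by linarith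
  set U : G → (H →L[ℂ] H) := fun g => ((π g : (H →L[ℂ] H)ˣ) : H →L[ℂ] H) with hU
  have hUmul : ∀ g h (x : H), U (g * h) x = U g (U h x) := fun g h x => by simp [hU]
  have hUU' : ∀ g (x : H), U g⁻¹ (U g x) = x := fun g x => by
    have : U g⁻¹ * U g = 1 := by simp [hU]
    calc U g⁻¹ (U g x) = (U g⁻¹ * U g) x := rfl
      _ = x := by rw [this]; rfl
  have hUn : ∀ g (x : H), ‖U g x‖ ≤ k * ‖x‖ := fun g x =>
    ((U g).le_opNorm x).trans (mul_le_mul_of_nonneg_right (hk g) (norm_nonneg _))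
  have hUl : ∀ g (x : H), ‖x‖ ≤ k * ‖U g x‖ := by
    intro g x
    calc ‖x‖ = ‖U g⁻¹ (U g x)‖ := by rw [hUU']
      _ ≤ k * ‖U g x‖ := hUn _ _
  -- the invariant form
  have hbd : ∀ v w : H, ∀ g : G, ‖(inner ℂ (U g⁻¹ v) (U g⁻¹ w) : ℂ)‖ ≤ k ^ 2 * ‖v‖ * ‖w‖ := by
    intro v w g
    refine (norm_inner_le_norm _ _).trans ?_
    calc ‖U g⁻¹ v‖ * ‖U g⁻¹ w‖ ≤ (k * ‖v‖) * (k * ‖w‖) :=
          mul_le_mul (hUn _ _) (hUn _ _) (norm_nonneg _) (by positivity)
      _ = _ := by ring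
  have hbd' : ∀ v w : H, ∃ C, ∀ g : G, ‖(inner ℂ (U g⁻¹ v) (U g⁻¹ w) : ℂ)‖ ≤ C :=
    fun v w => ⟨_, hbd v w⟩
  let B0 : H →ₗ⋆[ℂ] H →ₗ[ℂ] ℂ := LinearMap.mk₂'ₛₗ (starRingEnd ℂ) (RingHom.id ℂ)
    (fun v w => M (fun g => inner ℂ (U g⁻¹ v) (U g⁻¹ w)))
    (by
      intro v v' w
      have : (fun g : G => (inner ℂ (U g⁻¹ (v + v')) (U g⁻¹ w) : ℂ)) =
          fun g => inner ℂ (U g⁻¹ v) (U g⁻¹ w) + inner ℂ (U g⁻¹ v') (U g⁻¹ w) := by
        funext g
        rw [map_add, inner_add_left]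
      show M (fun g => inner ℂ (U g⁻¹ (v + v')) (U g⁻¹ w)) = _
      rw [this]
      exact hadd _ _ (hbd' v w) (hbd' v' w))
    (by
      intro r v w
      have : (fun g : G => (inner ℂ (U g⁻¹ (r • v)) (U g⁻¹ w) : ℂ)) =
          fun g => conj r * inner ℂ (U g⁻¹ v) (U g⁻¹ w) := by
        funext g
        rw [map_smul, inner_smul_left]
      show M (fun g => inner ℂ (U g⁻¹ (r • v)) (U g⁻¹ w)) = _
      rw [this]
      exact hsmul _ _ (hbd' v w))
    (by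
      intro v w w'
      have : (fun g : G => (inner ℂ (U g⁻¹ v) (U g⁻¹ (w + w')) : ℂ)) =
          fun g => inner ℂ (U g⁻¹ v) (U g⁻¹ w) + inner ℂ (U g⁻¹ v) (U g⁻¹ w') := by
        funext g
        rw [map_add, inner_add_right]
      show M (fun g => inner ℂ (U g⁻¹ v) (U g⁻¹ (w + w'))) = _
      rw [this]
      exact hadd _ _ (hbd' v w) (hbd' v w'))
    (by
      intro r v w
      have : (fun g : G => (inner ℂ (U g⁻¹ v) (U g⁻¹ (r • w)) : ℂ)) =
          fun g => r * inner ℂ (U g⁻¹ v) (U g⁻¹ w) := by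
        funext g
        rw [map_smul, inner_smul_right]
      show M (fun g => inner ℂ (U g⁻¹ v) (U g⁻¹ (r • w))) = _
      rw [this]
      exact hsmul _ _ (hbd' v w))
  have hB0 : ∀ v w, B0 v w = M (fun g => inner ℂ (U g⁻¹ v) (U g⁻¹ w)) := fun v w => rfl
  let B : H →L⋆[ℂ] H →L[ℂ] ℂ := LinearMap.mkContinuous₂ B0 (k ^ 2) (by
    intro v w
    rw [hB0]
    exact hnorm _ _ (hbd v w))
  have hB : ∀ v w, B v w = M (fun g => inner ℂ (U g⁻¹ v) (U g⁻¹ w)) := fun v w => rfl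
  let A : H →L[ℂ] H := InnerProductSpace.continuousLinearMapOfBilin B
  have hA : ∀ v w, inner ℂ (A v) w = M (fun g => inner ℂ (U g⁻¹ v) (U g⁻¹ w)) := by
    intro v w
    rw [← hB]
    exact InnerProductSpace.continuousLinearMapOfBilin_apply B v w
  have hAinv : ∀ h v w, (inner ℂ (A (U h v)) (U h w) : ℂ) = inner ℂ (A v) w := by
    intro h v w
    rw [hA, hA, ← hinv h⁻¹ (fun g => inner ℂ (U g⁻¹ v) (U g⁻¹ w)) (hbd' _ _)]
    congr 1
    funext g
    have e : (h⁻¹ * g)⁻¹ = g⁻¹ * h := by group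
    rw [e, hUmul, hUmul]
  have hArange : ∀ v, ‖v‖ ^ 2 / k ^ 2 ≤ (inner ℂ (A v) v : ℂ).re ∧
      (inner ℂ (A v) v : ℂ).re ≤ k ^ 2 * ‖v‖ ^ 2 := by
    intro v
    have e : (fun g : G => (inner ℂ (U g⁻¹ v) (U g⁻¹ v) : ℂ)) =
        fun g => ((‖U g⁻¹ v‖ ^ 2 : ℝ) : ℂ) := by
      funext g
      rw [inner_self_eq_norm_sq_to_K]
      push_cast
      rfl
    rw [hA, e]
    refine mean_re hadd hconst hnorm (fun g => ‖U g⁻¹ v‖ ^ 2) _ _ (fun g => ?_) (fun g => ?_)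
    · rw [div_le_iff₀ (by positivity)]
      have h1 := hUl g⁻¹ v
      calc ‖v‖ ^ 2 ≤ (k * ‖U g⁻¹ v‖) ^ 2 := pow_le_pow_left₀ (norm_nonneg _) h1 2
        _ = _ := by ring
    · calc ‖U g⁻¹ v‖ ^ 2 ≤ (k * ‖v‖) ^ 2 := pow_le_pow_left₀ (norm_nonneg _) (hUn _ _) 2
        _ = _ := by ring
  set D : H →L[ℂ] H := ((k ^ 2 / 2 : ℝ) : ℂ) • (A + ContinuousLinearMap.adjoint A) with hDdef
  have hD : ∀ v w, (inner ℂ (D v) w : ℂ) =
      ((k ^ 2 / 2 : ℝ) : ℂ) * (inner ℂ (A v) w + inner ℂ v (A w)) := by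
    intro v w
    rw [hDdef, smul_apply, inner_smul_left, Complex.conj_ofReal, add_apply,
      inner_add_left, ContinuousLinearMap.adjoint_inner_left]
  have hDre : ∀ v, (inner ℂ (D v) v : ℂ).re = k ^ 2 * (inner ℂ (A v) v : ℂ).re := by
    intro v
    rw [hD, Complex.re_ofReal_mul, Complex.add_re]
    have h1 : (inner ℂ v (A v) : ℂ).re = (inner ℂ (A v) v : ℂ).re := by
      rw [← inner_conj_symm, Complex.conj_re]
    rw [h1]
    ring
  have hInv : Inv π 1 ((k ^ 2) ^ 2) := by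
    refine ⟨D, ?_, ?_, ?_, ?_⟩
    · intro x y
      rw [← inner_conj_symm x (D y), hD, hD, map_mul, Complex.conj_ofReal, map_add,
        inner_conj_symm, inner_conj_symm]
      ring
    · intro x
      rw [hDre, one_mul]
      have h1 := (hArange x).1
      rw [div_le_iff₀ (by positivity)] at h1
      linarith
    · intro x
      rw [hDre]
      have h1 := mul_le_mul_of_nonneg_left (hArange x).2 (by positivity : (0 : ℝ) ≤ k ^ 2)
      linarith
    · intro g x y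
      show (inner ℂ (D (U g x)) (U g y) : ℂ) = inner ℂ (D x) y
      rw [hD, hD, hAinv]
      congr 2
      rw [← inner_conj_symm (U g x), hAinv, inner_conj_symm]
  exact ⟨k ^ 2, (sim_iff_inv π (k ^ 2) (by nlinarith)).2 hInv⟩

end Pool.Agent.TH889.J5187
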