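import Mathlib
import Pool.Agent.TH993.SP.Defs

set_option autoImplicit false

open MeasureTheory Set Real

namespace Pool.Agent.TH889.SP_AREA

open Pool.Agent.TH993.SP

theorem wd_neg (u v : ℝ × ℝ) : wd (-u) (-v) = wd u v := by
  simp only [wd, Prod.fst_neg, Prod.snd_neg]; ring

/-- the bound for one `ε` -/
theorem area_eps (h : S_FRZ) {N : ℝ × ℝ → ℝ} {T : ℝ} {X : ℝ → ℝ × ℝ} (hp : Par N T X)
    (ε : ℝ) (h0 : 0 < ε) (h1 : ε < 1) :
    (1 - ε) * (2 * T ^ 2 / π) ≤ ∫ c in (0 : ℝ)..(2 * T), wd (X c) (X (c + T / 2)) := by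
  have hT := hp.T_pos
  set f : ℝ → ℝ := fun c => wd (X c) (X (c + T / 2)) with hf
  have hfc : Continuous f := by
    have e1 := hp.cont
    have e2 : Continuous fun c => X (c + T / 2) := e1.comp (continuous_id.add continuous_const)
    simp only [hf, wd]
    exact ((continuous_fst.comp e1).mul (continuous_snd.comp e2)).sub
      ((continuous_snd.comp e1).mul (continuous_fst.comp e2))
  have hfT : ∀ c, f (c + T) = f c := by
    intro c
    simp only [hf]
    rw [show c + T + T / 2 = (c + T / 2) + T by ring, hp.anti, hp.anti, wd_neg]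
  obtain ⟨η, hη, hA2⟩ := hp.A2 ε h0
  obtain ⟨m, hm⟩ := exists_nat_gt (T / (2 * η))
  have hm0 : 0 < m := by
    have h3 : (0 : ℝ) < m := lt_trans (by positivity) hm
    exact_mod_cast h3
  set n : ℕ := 2 * m with hn
  have hmR : (0 : ℝ) < m := by exact_mod_cast hm0
  have hnR : (n : ℝ) = 2 * m := by rw [hn]; push_cast; ring
  have hnpos : (0 : ℝ) < n := by rw [hnR]; linarith
  set k : ℝ := T / n with hk
  have hk0 : 0 < k := div_pos hT hnpos
  have hkn : (n : ℝ) * k = T := by rw [hk]; field_simp
  have hkη : k < η := by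
    rw [hk, div_lt_iff₀ hnpos, hnR]
    rw [div_lt_iff₀ (by positivity)] at hm
    linarith
  have hmk : (m : ℝ) * k = T / 2 := by
    rw [← hkn, hnR]; ring
  have hn2 : 2 ≤ n := by omega
  have hsin : 0 < Real.sin (π / n) := by
    apply Real.sin_pos_of_pos_of_lt_pi
    · positivity
    · rw [div_lt_iff₀ hnpos]
      have h2 : (2 : ℝ) ≤ n := by exact_mod_cast hn2
      nlinarith [Real.pi_pos]
  have hsin2 : Real.sin (π / n) ≤ π / n := Real.sin_le (by positivity)
  -- the discrete inequality
  have key : ∀ s : ℝ, (1 - ε) * T * (n / π) ≤ ∑ i ∈ Finset.range n, f (s + i * k) := by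
    intro s
    have h5 := h n m (fun i => X (s + i * k)) ((1 - ε) * k) hn2 hn
      (mul_pos (by linarith) hk0)
      (by
        intro i
        show X (s + ((i + n : ℕ) : ℝ) * k) = - X (s + i * k)
        rw [← hp.anti, ← hkn]
        congr 1
        push_cast; ring)
      (by
        intro i j hij hjn
        apply hp.A3
        · have : (i : ℝ) < j := by exact_mod_cast hij
          nlinarith
        · have : (j : ℝ) < i + n := by exact_mod_cast hjn
          rw [← hkn]; nlinarith)
      (by
        intro i
        have h6 := hA2 (s + i * k) (s + ((i + 1 : ℕ) : ℝ) * k) (by push_cast; nlinarith)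
          (by push_cast; nlinarith)
        have h7 : s + ((i + 1 : ℕ) : ℝ) * k - (s + i * k) = k := by push_cast; ring
        rw [h7] at h6
        exact h6)
    have h8 : ∑ i ∈ Finset.range n, wd (X (s + i * k)) (X (s + ((i + m : ℕ) : ℝ) * k)) =
        ∑ i ∈ Finset.range n, f (s + i * k) := by
      apply Finset.sum_congr rfl
      intro i _
      simp only [hf]
      congr 2
      push_cast
      rw [← hmk]; ring
    rw [← h8]
    refine le_trans ?_ h5
    have h9 : (1 - ε) * k / Real.sin (π / n) ≥ (1 - ε) * k / (π / n) :=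
      div_le_div_of_nonneg_left (mul_nonneg (by linarith) hk0.le) hsin hsin2
    calc (1 - ε) * T * (n / π) = n * ((1 - ε) * k / (π / n)) := by
          rw [← hkn]
          have := Real.pi_pos.ne'
          have := hnpos.ne'
          field_simp
      _ ≤ n * ((1 - ε) * k / Real.sin (π / n)) := mul_le_mul_of_nonneg_left h9 hnpos.le
  -- integrate
  have hint : ∀ a b : ℝ, IntervalIntegrable f volume a b := fun a b => hfc.intervalIntegrable a b
  have hsum : ∫ s in (0 : ℝ)..k, ∑ i ∈ Finset.range n, f (s + i * k) = ∫ c in (0 : ℝ)..T, f c := by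
    rw [intervalIntegral.integral_finsetSum]
    · have h10 : ∀ i ∈ Finset.range n, ∫ s in (0 : ℝ)..k, f (s + i * k) =
          ∫ c in ((i : ℝ) * k)..(((i + 1 : ℕ) : ℝ) * k), f c := by
        intro i _
        rw [intervalIntegral.integral_comp_add_right]
        congr 1
        · ring
        · push_cast; ring
      rw [Finset.sum_congr rfl h10]
      have h11 := intervalIntegral.sum_integral_adjacent_intervals (f := f) (μ := volume)
        (a := fun i : ℕ => (i : ℝ) * k) (n := n) (fun i _ => hint _ _)
      rw [h11]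
      congr 1
      simp
    · intro i _
      exact (hfc.comp (continuous_id.add continuous_const)).intervalIntegrable _ _
  have hlow : (1 - ε) * (T ^ 2 / π) ≤ ∫ c in (0 : ℝ)..T, f c := by
    rw [← hsum]
    have h12 : ∫ s in (0 : ℝ)..k, (1 - ε) * T * (n / π) ≤
        ∫ s in (0 : ℝ)..k, ∑ i ∈ Finset.range n, f (s + i * k) := by
      apply intervalIntegral.integral_mono_on hk0.le intervalIntegrable_const
      · apply Continuous.intervalIntegrable
        exact continuous_finsetSum _
          (fun i _ => hfc.comp (continuous_id.add continuous_const))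
      · intro s _
        exact key s
    rw [intervalIntegral.integral_const, smul_eq_mul, sub_zero] at h12
    refine le_trans (le_of_eq ?_) h12
    rw [← hkn]
    ring
  have hper : ∫ c in T..(2 * T), f c = ∫ c in (0 : ℝ)..T, f c := by
    have h13 : ∫ c in (0 : ℝ)..T, f (c + T) = ∫ c in (0 + T)..(T + T), f c :=
      intervalIntegral.integral_comp_add_right f T
    have h14 : ∫ c in (0 : ℝ)..T, f (c + T) = ∫ c in (0 : ℝ)..T, f c := by
      apply intervalIntegral.integral_congr
      intro c _
      exact hfT c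
    rw [← h14, h13]
    congr 1
    · ring
    · ring
  have htot : ∫ c in (0 : ℝ)..(2 * T), f c = 2 * ∫ c in (0 : ℝ)..T, f c := by
    rw [← intervalIntegral.integral_add_adjacent_intervals (hint 0 T) (hint T (2 * T)), hper]
    ring
  rw [htot]
  have h15 : (1 - ε) * (2 * T ^ 2 / π) = 2 * ((1 - ε) * (T ^ 2 / π)) := by ring
  rw [h15]
  linarith

theorem AREA (h : S_FRZ) : S_AREA := by
  intro N T X _ hp
  have hT := hp.T_pos
  have hpos : 0 < 2 * T ^ 2 / π := by positivity
  apply le_of_forall_pos_lt_add
  intro e he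
  set A := 2 * T ^ 2 / π with hA
  set ε := min (1 / 2) (e / (2 * A)) with hε
  have h0 : 0 < ε := lt_min (by norm_num) (by positivity)
  have h1 : ε < 1 := lt_of_le_of_lt (min_le_left _ _) (by norm_num)
  have h2 := area_eps h hp ε h0 h1
  have h3 : ε * A ≤ e / 2 := by
    have h4 : ε ≤ e / (2 * A) := min_le_right _ _
    calc ε * A ≤ e / (2 * A) * A := mul_le_mul_of_nonneg_right h4 hpos.le
      _ = e / 2 := by field_simp
  rw [← hA] at h2
  linarith

end Pool.Agent.TH889.SP_AREA
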