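import Mathlib
import Pool.Agent.TH993.SP.Defs

set_option autoImplicit false

open MeasureTheory Set Real

namespace Pool.Agent.TH889.SP_POLY

open Pool.Agent.TH993.SP

theorem wd_neg (u v : ℝ × ℝ) : wd (-u) (-v) = wd u v := by
  simp only [wd, Prod.fst_neg, Prod.snd_neg]; ring

theorem wd_neg_right (u v : ℝ × ℝ) : wd u (-v) = -wd u v := by
  simp only [wd, Prod.fst_neg, Prod.snd_neg]; ring

theorem wd_swap (u v : ℝ × ℝ) : wd v u = -wd u v := by
  simp only [wd]; ring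

theorem wd_smul_left (r : ℝ) (u v : ℝ × ℝ) : wd (r • u) v = r * wd u v := by
  simp only [wd, Prod.smul_fst, Prod.smul_snd, smul_eq_mul]; ring

theorem wd_self (u : ℝ × ℝ) : wd u u = 0 := by
  simp only [wd]; ring

theorem plucker (u v w : ℝ × ℝ) : wd u w • v = wd v w • u + wd u v • w := by
  ext
  · simp only [wd, Prod.smul_fst, Prod.fst_add, smul_eq_mul]; ring
  · simp only [wd, Prod.smul_snd, Prod.snd_add, smul_eq_mul]; ring

section

variable {N : ℝ × ℝ → ℝ} {T : ℝ} {X : ℝ → ℝ × ℝ}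

theorem D_le (hp : Par N T X) {a b : ℝ} (h : a ≤ b) : wd (X a) (X b) ≤ b - a := by
  have h1 := hp.A1 a b (X a) h
  rw [hp.one a, mul_one] at h1
  have h2 : wd (X a) (X b - X a) = wd (X a) (X b) := by
    simp only [wd, Prod.fst_sub, Prod.snd_sub]; ring
  rwa [h2] at h1

theorem D_nonneg (hp : Par N T X) {a b : ℝ} (h : a ≤ b) (h2 : b ≤ a + T) :
    0 ≤ wd (X a) (X b) := by
  rcases eq_or_lt_of_le h with rfl | h
  · rw [wd_self]
  · rcases eq_or_lt_of_le h2 with rfl | h2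
    · rw [hp.anti, wd_neg_right, wd_self, neg_zero]
    · exact (hp.A3 a b h h2).le

theorem D_tri (hN : IsN N) (hp : Par N T X) {a b d : ℝ} (h1 : 0 ≤ wd (X a) (X b))
    (h2 : 0 ≤ wd (X b) (X d)) : wd (X a) (X d) ≤ wd (X a) (X b) + wd (X b) (X d) := by
  have h3 := congrArg N (plucker (X a) (X b) (X d))
  rw [hN.smul, hp.one, mul_one] at h3
  have h4 := hN.add (wd (X b) (X d) • X a) (wd (X a) (X b) • X d)
  rw [← h3, hN.smul, hN.smul, hp.one, hp.one, abs_of_nonneg h1, abs_of_nonneg h2] at h4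
  have h5 := le_abs_self (wd (X a) (X d))
  linarith

/-- every vector is a multiple of a point of the curve -/
theorem exists_pt (hp : Par N T X) (v : ℝ × ℝ) : ∃ (a r : ℝ), 0 ≤ a ∧ a ≤ T ∧ v = r • X a := by
  have hT := hp.T_pos
  have hc : Continuous fun a => wd v (X a) := by
    simp only [wd]
    exact (continuous_const.mul (continuous_snd.comp hp.cont)).sub
      (continuous_const.mul (continuous_fst.comp hp.cont))
  have hz : ∃ a, 0 ≤ a ∧ a ≤ T ∧ wd v (X a) = 0 := by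
    have hTT : wd v (X T) = - wd v (X 0) := by
      rw [← wd_neg_right, ← hp.anti, zero_add]
    rcases le_total (wd v (X 0)) 0 with h | h
    · obtain ⟨a, ha, ha2⟩ := intermediate_value_Icc hT.le hc.continuousOn
        (show (0 : ℝ) ∈ Icc (wd v (X 0)) (wd v (X T)) from ⟨h, by rw [hTT]; linarith⟩)
      exact ⟨a, ha.1, ha.2, ha2⟩
    · obtain ⟨a, ha, ha2⟩ := intermediate_value_Icc' hT.le hc.continuousOn
        (show (0 : ℝ) ∈ Icc (wd v (X T)) (wd v (X 0)) from ⟨by rw [hTT]; linarith, h⟩)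
      exact ⟨a, ha.1, ha.2, ha2⟩
  obtain ⟨a, h0, h1, h2⟩ := hz
  have h3 : 0 < wd (X a) (X (a + T / 2)) := hp.A3 a (a + T / 2) (by linarith) (by linarith)
  have h4 := plucker (X a) v (X (a + T / 2))
  have h5 : wd (X a) v = 0 := by rw [wd_swap, h2, neg_zero]
  rw [h5, zero_smul, add_zero] at h4
  refine ⟨a, (wd (X a) (X (a + T / 2)))⁻¹ * wd v (X (a + T / 2)), h0, h1, ?_⟩
  rw [mul_smul, ← h4, smul_smul, inv_mul_cancel₀ h3.ne', one_smul]

/-- the vertices -/
noncomputable def vx (X : ℝ → ℝ × ℝ) (h : ℝ) (j : ℕ) : ℝ × ℝ := X (j * h)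

/-- the areas -/
noncomputable def dl (X : ℝ → ℝ × ℝ) (h : ℝ) (j : ℕ) : ℝ := wd (vx X h j) (vx X h (j + 1))

/-- the edges -/
noncomputable def ed (X : ℝ → ℝ × ℝ) (h : ℝ) (j : ℕ) : ℝ × ℝ :=
  (dl X h j)⁻¹ • (vx X h (j + 1) - vx X h j)

/-- the coefficients -/
noncomputable def kp (X : ℝ → ℝ × ℝ) (h : ℝ) (j : ℕ) : ℝ := wd (ed X h j) (ed X h (j + 1))

theorem wd_ed (v : ℝ × ℝ) (h : ℝ) (j : ℕ) : wd v (ed X h j) =
    (dl X h j)⁻¹ * (wd v (vx X h (j + 1)) - wd v (vx X h j)) := by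
  simp only [ed, wd, Prod.smul_fst, Prod.smul_snd, smul_eq_mul, Prod.fst_sub, Prod.snd_sub]
  ring

theorem kp_eq {h : ℝ} {j : ℕ} (h1 : 0 < dl X h j) (h2 : 0 < dl X h (j + 1)) :
    kp X h j = (dl X h j + dl X h (j + 1) - wd (vx X h j) (vx X h (j + 2))) /
      (dl X h j * dl X h (j + 1)) := by
  have e : kp X h j = (dl X h j)⁻¹ * (dl X h (j + 1))⁻¹ *
      (wd (vx X h j) (vx X h (j + 1)) + wd (vx X h (j + 1)) (vx X h (j + 2)) -
        wd (vx X h j) (vx X h (j + 2))) := by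
    simp only [kp, ed, wd, Prod.smul_fst, Prod.smul_snd, smul_eq_mul, Prod.fst_sub,
      Prod.snd_sub]
    ring
  rw [e]
  have e2 : wd (vx X h (j + 1)) (vx X h (j + 2)) = dl X h (j + 1) := rfl
  have e3 : wd (vx X h j) (vx X h (j + 1)) = dl X h j := rfl
  rw [e2, e3]
  field_simp

theorem ed_step {h : ℝ} {j : ℕ} (h1 : 0 < dl X h j) (h2 : 0 < dl X h (j + 1)) (v : ℝ × ℝ) :
    kp X h j * wd v (vx X h (j + 1)) = wd v (ed X h j) - wd v (ed X h (j + 1)) := by
  rw [kp_eq h1 h2, wd_ed, wd_ed]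
  have e2 : wd (vx X h (j + 1)) (vx X h (j + 2)) = dl X h (j + 1) := rfl
  have e3 : wd (vx X h j) (vx X h (j + 1)) = dl X h j := rfl
  set p := vx X h j with hpp
  set q := vx X h (j + 1) with hq
  set r := vx X h (j + 2) with hr
  set A := dl X h j with hA
  set B := dl X h (j + 1) with hB
  have key : (A + B - wd p r) * wd v q = B * (wd v q - wd v p) - A * (wd v r - wd v q) := by
    rw [← e2, ← e3]
    simp only [wd]
    ring
  have hA0 : A ≠ 0 := h1.ne'
  have hB0 : B ≠ 0 := h2.ne'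
  rw [div_mul_eq_mul_div, key]
  field_simp

theorem vx_add (hp : Par N T X) {h : ℝ} {n : ℕ} (hn : (n : ℝ) * h = T) (j : ℕ) :
    vx X h (j + n) = - vx X h j := by
  unfold vx
  rw [← hp.anti, ← hn]
  congr 1
  push_cast; ring

theorem dl_add (hp : Par N T X) {h : ℝ} {n : ℕ} (hn : (n : ℝ) * h = T) (j : ℕ) :
    dl X h (j + n) = dl X h j := by
  unfold dl
  rw [show j + n + 1 = (j + 1) + n by ring, vx_add hp hn, vx_add hp hn, wd_neg]

theorem ed_add (hp : Par N T X) {h : ℝ} {n : ℕ} (hn : (n : ℝ) * h = T) (j : ℕ) :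
    ed X h (j + n) = - ed X h j := by
  unfold ed
  rw [dl_add hp hn, show j + n + 1 = (j + 1) + n by ring, vx_add hp hn, vx_add hp hn,
    ← smul_neg]
  congr 1
  abel

theorem kp_add (hp : Par N T X) {h : ℝ} {n : ℕ} (hn : (n : ℝ) * h = T) (j : ℕ) :
    kp X h (j + n) = kp X h j := by
  unfold kp
  rw [show j + n + 1 = (j + 1) + n by ring, ed_add hp hn, ed_add hp hn, wd_neg]

/-- sums over a period -/
theorem sum_shift (g : ℕ → ℝ) (n : ℕ) (hg : ∀ j, g (j + n) = g j) (j : ℕ) :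
    ∑ i ∈ Finset.range n, g (i + j) = ∑ i ∈ Finset.range n, g i := by
  induction j with
  | zero => rfl
  | succ j ih =>
    have h1 := Finset.sum_range_succ (fun i => g (i + j)) n
    have h2 := Finset.sum_range_succ' (fun i => g (i + j)) n
    have h3 : ∑ i ∈ Finset.range n, g (i + (j + 1)) = ∑ i ∈ Finset.range n, g (i + 1 + j) := by
      apply Finset.sum_congr rfl
      intro i _
      congr 1; ring
    rw [h3, ← ih]
    have h4 : g (n + j) = g (0 + j) := by rw [add_comm n j, hg, zero_add]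
    rw [h1, h4] at h2
    linarith

/-- the value at a point of the curve -/
theorem sum_pt (hp : Par N T X) {h : ℝ} {n : ℕ} (hh : 0 < h) (hn : (n : ℝ) * h = T)
    (hd : ∀ j, 0 < dl X h j) {a : ℝ} {j : ℕ} (h1 : (j : ℝ) * h ≤ a)
    (h2 : a ≤ ((j : ℝ) + 1) * h) :
    ∑ i ∈ Finset.range n, kp X h i / 2 * |wd (X a) (X (((i : ℝ) + 1) * h))| =
      wd (X a) (ed X h j) := by
  have e0 : ∀ i : ℕ, X (((i : ℝ) + 1) * h) = vx X h (i + 1) := by
    intro i; unfold vx; push_cast; rfl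
  simp only [e0]
  rw [← sum_shift (fun i => kp X h i / 2 * |wd (X a) (vx X h (i + 1))|) n (by
    intro i
    show kp X h (i + n) / 2 * |wd (X a) (vx X h (i + n + 1))| = _
    rw [kp_add hp hn, show i + n + 1 = (i + 1) + n by ring, vx_add hp hn, wd_neg_right,
      abs_neg]) j]
  have e1 : ∀ i ∈ Finset.range n, kp X h (i + j) / 2 * |wd (X a) (vx X h (i + j + 1))| =
      wd (X a) (ed X h (i + j)) / 2 - wd (X a) (ed X h (i + 1 + j)) / 2 := by
    intro i hi
    have hi' : i < n := Finset.mem_range.1 hi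
    have hpos : 0 ≤ wd (X a) (vx X h (i + j + 1)) := by
      unfold vx
      apply D_nonneg hp
      · push_cast
        have : (0 : ℝ) ≤ (i : ℝ) * h := by positivity
        nlinarith
      · have h3 : (i : ℝ) + 1 ≤ n := by exact_mod_cast hi'
        push_cast
        rw [← hn]
        nlinarith
    rw [abs_of_nonneg hpos]
    have h4 := ed_step (hd (i + j)) (hd (i + j + 1)) (X a)
    rw [show i + 1 + j = i + j + 1 by ring]
    linarith
  rw [Finset.sum_congr rfl e1]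
  have e2 := Finset.sum_range_sub' (fun i => wd (X a) (ed X h (i + j)) / 2) n
  have e3 : wd (X a) (ed X h (n + j)) = - wd (X a) (ed X h j) := by
    rw [add_comm n j, ed_add hp hn, wd_neg_right]
  rw [e2]
  simp only [zero_add]
  rw [e3]
  ring

end

theorem POLY : S_POLY := by
  intro N T X hN hp ε hε0 hε1
  have hT := hp.T_pos
  obtain ⟨η, hη, hA2⟩ := hp.A2 ε hε0
  obtain ⟨m, hm⟩ := exists_nat_gt (T / η)
  set n : ℕ := m + 2 with hn
  have hnpos : (0 : ℝ) < n := by rw [hn]; positivity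
  set h : ℝ := T / n with hh
  have hh0 : 0 < h := div_pos hT hnpos
  have hnh : (n : ℝ) * h = T := by rw [hh]; field_simp
  have hhη : h < η := by
    rw [hh, div_lt_iff₀ hnpos]
    rw [div_lt_iff₀ hη] at hm
    have : (n : ℝ) = m + 2 := by rw [hn]; push_cast; ring
    rw [this]
    nlinarith
  have hdl : ∀ j, (1 - ε) * h ≤ dl X h j := by
    intro j
    have h1 := hA2 ((j : ℝ) * h) (((j : ℝ) + 1) * h) (by nlinarith) (by nlinarith)
    have h2 : ((j : ℝ) + 1) * h - (j : ℝ) * h = h := by ring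
    rw [h2] at h1
    unfold dl vx
    push_cast
    exact h1
  have hε' : 0 < 1 - ε := by linarith
  have hd : ∀ j, 0 < dl X h j := fun j => lt_of_lt_of_le (mul_pos hε' hh0) (hdl j)
  have hn2 : (2 : ℝ) ≤ n := by rw [hn]; push_cast; linarith [(Nat.cast_nonneg m : (0 : ℝ) ≤ m)]
  have h2T : 2 * h ≤ T := by rw [← hnh]; nlinarith
  have hstep : ∀ (j : ℕ) (a : ℝ), (j : ℝ) * h ≤ a → a ≤ ((j : ℝ) + 1) * h →
      1 ≤ wd (X a) (ed X h j) ∧ wd (X a) (ed X h j) ≤ (1 - ε)⁻¹ := by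
    intro j a h1 h2
    have e1 : wd (X a) (ed X h j) =
        (dl X h j)⁻¹ * (wd (X a) (X (((j : ℝ) + 1) * h)) + wd (X ((j : ℝ) * h)) (X a)) := by
      rw [wd_ed, wd_swap (X a) (X ((j : ℝ) * h))]
      unfold vx
      push_cast
      ring
    have p1 : 0 ≤ wd (X ((j : ℝ) * h)) (X a) := D_nonneg hp h1 (by nlinarith)
    have p2 : 0 ≤ wd (X a) (X (((j : ℝ) + 1) * h)) := D_nonneg hp h2 (by nlinarith)
    have q1 : wd (X ((j : ℝ) * h)) (X a) ≤ a - (j : ℝ) * h := D_le hp h1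
    have q2 : wd (X a) (X (((j : ℝ) + 1) * h)) ≤ ((j : ℝ) + 1) * h - a := D_le hp h2
    have t := D_tri hN hp p1 p2
    have e2 : wd (X ((j : ℝ) * h)) (X (((j : ℝ) + 1) * h)) = dl X h j := by
      unfold dl vx
      push_cast
      rfl
    rw [e2] at t
    rw [e1]
    constructor
    · have h6 : (dl X h j)⁻¹ * dl X h j = 1 := inv_mul_cancel₀ (hd j).ne'
      have h7 : (dl X h j)⁻¹ * dl X h j ≤
          (dl X h j)⁻¹ * (wd (X a) (X (((j : ℝ) + 1) * h)) + wd (X ((j : ℝ) * h)) (X a)) :=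
        mul_le_mul_of_nonneg_left (by linarith) (inv_nonneg.2 (hd j).le)
      rw [h6] at h7
      exact h7
    · rw [inv_mul_le_iff₀ (hd j)]
      have h5 : wd (X a) (X (((j : ℝ) + 1) * h)) + wd (X ((j : ℝ) * h)) (X a) ≤ h := by
        linarith
      refine h5.trans ?_
      rw [← div_eq_mul_inv, le_div_iff₀ hε']
      have := hdl j
      linarith
  have hval : ∀ a : ℝ, 0 ≤ a →
      1 ≤ ∑ i ∈ Finset.range n, kp X h i / 2 * |wd (X a) (X (((i : ℝ) + 1) * h))| ∧
      ∑ i ∈ Finset.range n, kp X h i / 2 * |wd (X a) (X (((i : ℝ) + 1) * h))| ≤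
        (1 - ε)⁻¹ := by
    intro a ha
    have h1 : ((⌊a / h⌋₊ : ℕ) : ℝ) * h ≤ a := by
      rw [← le_div_iff₀ hh0]
      exact Nat.floor_le (by positivity)
    have h2 : a ≤ (((⌊a / h⌋₊ : ℕ) : ℝ) + 1) * h := by
      rw [← div_le_iff₀ hh0]
      exact (Nat.lt_floor_add_one _).le
    rw [sum_pt hp hh0 hnh hd h1 h2]
    exact hstep _ a h1 h2
  have hscale : ∀ (r a : ℝ),
      ∑ i ∈ Finset.range n, kp X h i / 2 * |wd (r • X a) (X (((i : ℝ) + 1) * h))| =
      |r| * ∑ i ∈ Finset.range n, kp X h i / 2 * |wd (X a) (X (((i : ℝ) + 1) * h))| := by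
    intro r a
    rw [Finset.mul_sum]
    apply Finset.sum_congr rfl
    intro i _
    rw [wd_smul_left, abs_mul]
    ring
  refine ⟨n, fun i => ((i : ℝ) + 1) * h, fun i => kp X h i / 2, ?_, ?_, ?_⟩
  · intro i
    have h1 : 0 ≤ kp X h i := by
      rw [kp_eq (hd i) (hd (i + 1))]
      apply div_nonneg _ (mul_pos (hd i) (hd (i + 1))).le
      have t : wd (vx X h i) (vx X h (i + 2)) ≤ dl X h i + dl X h (i + 1) :=
        D_tri hN hp (hd i).le (hd (i + 1)).le
      linarith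
    show 0 ≤ kp X h i / 2
    linarith
  · intro v
    obtain ⟨a, r, ha0, -, rfl⟩ := exists_pt hp v
    show N (r • X a) ≤
      ∑ i ∈ Finset.range n, kp X h i / 2 * |wd (r • X a) (X (((i : ℝ) + 1) * h))|
    rw [hscale, hN.smul, hp.one]
    exact mul_le_mul_of_nonneg_left (hval a ha0).1 (abs_nonneg r)
  · intro b
    obtain ⟨a, r, ha0, -, hb⟩ := exists_pt hp (X b)
    show ∑ i ∈ Finset.range n, kp X h i / 2 * |wd (X b) (X (((i : ℝ) + 1) * h))| ≤ _
    have hr : |r| = 1 := by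
      have h1 := congrArg N hb
      rw [hp.one, hN.smul, hp.one, mul_one] at h1
      exact h1.symm
    rw [hb, hscale, hr, one_mul]
    exact (hval a ha0).2

end Pool.Agent.TH889.SP_POLY
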