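import Mathlib
import Pool.Agent.TH161.KS.Defs

/-!
Job KS BALL for helper161: small balls of log-concave laws.
-/

set_option autoImplicit false

open Finset Filter Topology
open scoped Classical

namespace Pool.Agent.TH889.KS_BALL

open Pool.Agent.TH161.KS

/-- the sequence lemma -/
theorem seq_bound (a : ℕ → ℕ) (J N : ℕ) (hJ : ∀ j, J ≤ j → a j = 0)
    (hN : ∑ j ∈ range J, a j ≤ N) (h0 : 0 < a 0)
    (hlc : ∀ i j, i ≤ j → a 0 * a j ≤ a i * a (j - i)) :
    (∑ j ∈ range J, j * a j) * a 0 ≤ 6 * N * N := by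
  have hex : ∃ i, 1 ≤ i ∧ 2 * a i ≤ a 0 :=
    ⟨max J 1, le_max_right _ _, by rw [hJ _ (le_max_left _ _)]; omega⟩
  obtain ⟨i, ⟨hi1, hi2⟩, hmin⟩ : ∃ i, (1 ≤ i ∧ 2 * a i ≤ a 0) ∧
      ∀ k, k < i → ¬ (1 ≤ k ∧ 2 * a k ≤ a 0) :=
    ⟨Nat.find hex, Nat.find_spec hex, fun k hk => Nat.find_min hex hk⟩
  have hsum : ∀ K, ∑ j ∈ range K, a j ≤ N := by
    intro K
    calc ∑ j ∈ range K, a j ≤ ∑ j ∈ range (J + K), a j :=
          sum_le_sum_of_subset (range_subset_range.2 (Nat.le_add_left _ _))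
      _ = ∑ j ∈ range J, a j + ∑ j ∈ range K, a (J + j) := sum_range_add _ _ _
      _ = ∑ j ∈ range J, a j := by
          rw [sum_eq_zero (s := range K) (fun j _ => hJ _ (Nat.le_add_right _ _))]; rfl
      _ ≤ N := hN
  have hia : i * a 0 ≤ 2 * N := by
    have : ∑ _k ∈ range i, a 0 ≤ ∑ k ∈ range i, 2 * a k := by
      refine sum_le_sum fun k hk => ?_
      rw [mem_range] at hk
      have := hmin k hk
      rcases Nat.eq_zero_or_pos k with rfl | hk0
      · omega
      · by_contra hcon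
        exact this ⟨hk0, by omega⟩
    rw [sum_const, card_range, smul_eq_mul, ← mul_sum] at this
    exact this.trans (Nat.mul_le_mul_left _ (hsum i))
  have hhalf : ∀ j, 2 * a (i + j) ≤ a j := by
    intro j
    have h1 := hlc i (i + j) (Nat.le_add_right _ _)
    rw [Nat.add_sub_cancel_left] at h1
    have h2 : a 0 * (2 * a (i + j)) ≤ a 0 * a j := by
      calc a 0 * (2 * a (i + j)) = 2 * (a 0 * a (i + j)) := by ring
        _ ≤ 2 * (a i * a j) := Nat.mul_le_mul_left _ h1
        _ = (2 * a i) * a j := by ring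
        _ ≤ a 0 * a j := Nat.mul_le_mul_right _ hi2
    exact Nat.le_of_mul_le_mul_left h2 h0
  set M1 := ∑ j ∈ range J, j * a j with hM1
  have e1 : M1 = ∑ j ∈ range i, j * a j + ∑ j ∈ range J, (i + j) * a (i + j) := by
    rw [← sum_range_add (fun j => j * a j) i J, Nat.add_comm i J,
      sum_range_add (fun j => j * a j) J i,
      sum_eq_zero (s := range i) (fun j _ => by
        rw [hJ _ (Nat.le_add_right _ _), Nat.mul_zero])]
    rfl
  have e2 : ∑ j ∈ range i, j * a j ≤ i * N := by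
    calc ∑ j ∈ range i, j * a j ≤ ∑ j ∈ range i, i * a j :=
          sum_le_sum fun j hj => Nat.mul_le_mul_right _ (mem_range.1 hj).le
      _ = i * ∑ j ∈ range i, a j := by rw [mul_sum]
      _ ≤ i * N := Nat.mul_le_mul_left _ (hsum i)
  have e3 : 2 * ∑ j ∈ range J, (i + j) * a (i + j) ≤ i * N + M1 := by
    calc 2 * ∑ j ∈ range J, (i + j) * a (i + j) = ∑ j ∈ range J, (i + j) * (2 * a (i + j)) := by
          rw [mul_sum]; exact sum_congr rfl fun j _ => by ring
      _ ≤ ∑ j ∈ range J, (i + j) * a j :=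
          sum_le_sum fun j _ => Nat.mul_le_mul_left _ (hhalf j)
      _ = i * ∑ j ∈ range J, a j + M1 := by
          rw [hM1, mul_sum, ← sum_add_distrib]; exact sum_congr rfl fun j _ => by ring
      _ ≤ i * N + M1 := by gcongr
  have e4 : M1 ≤ 3 * (i * N) := by omega
  calc M1 * a 0 ≤ 3 * (i * N) * a 0 := Nat.mul_le_mul_right _ e4
    _ = 3 * N * (i * a 0) := by ring
    _ ≤ 3 * N * (2 * N) := Nat.mul_le_mul_left _ hia
    _ = 6 * N * N := by ring

/-- number of points with value in `[v, v + w)` -/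
noncomputable def blk {Ω : Type} (s : Finset Ω) (D : Ω → ℤ) (w : ℕ) (v : ℤ) : ℕ :=
  (s.filter fun ω => v ≤ D ω ∧ D ω < v + w).card

theorem blk_eq {Ω : Type} (s : Finset Ω) (D : Ω → ℤ) (w : ℕ) (v : ℤ) :
    blk s D w v = ∑ a ∈ range w, (s.filter fun ω => D ω = v + (a : ℤ)).card := by
  unfold blk
  rw [card_eq_sum_card_fiberwise (f := fun ω => (D ω - v).toNat) (t := range w)]
  · refine sum_congr rfl fun a ha => ?_
    rw [mem_range] at ha
    congr 1
    ext ω
    simp only [mem_filter]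
    constructor
    · rintro ⟨⟨h1, h2, h3⟩, h4⟩
      exact ⟨h1, by omega⟩
    · rintro ⟨h1, h2⟩
      exact ⟨⟨h1, by omega, by omega⟩, by omega⟩
  · intro ω hω
    simp only [coe_filter, Set.mem_setOf_eq, coe_range, Set.mem_Iio] at hω ⊢
    omega

theorem blk_lc {Ω : Type} {s : Finset Ω} {D : Ω → ℤ} (h : LogConc s D) (u : ℤ) (w : ℕ)
    (i j : ℕ) (hij : i ≤ j) :
    blk s D w (u + (0 : ℕ) * w) * blk s D w (u + j * w) ≤
      blk s D w (u + i * w) * blk s D w (u + (j - i : ℕ) * w) := by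
  rcases Nat.eq_or_lt_of_le hij with rfl | hlt
  · rw [Nat.sub_self, Nat.mul_comm]
  · simp only [blk_eq, sum_mul_sum]
    refine sum_le_sum fun a ha => sum_le_sum fun b hb => ?_
    rw [mem_range] at ha hb
    have h1 : (i : ℤ) * w ≤ ((j : ℤ) - 1) * w :=
      mul_le_mul_of_nonneg_right (by omega) (by positivity)
    have h2 := h (u + (0 : ℕ) * w + a) (u + j * w + b) (i * w) (by positivity) (by
      push_cast
      linarith [h1, (by exact_mod_cast ha : (a : ℤ) < w), (by positivity : (0 : ℤ) ≤ b)])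
    refine h2.trans (le_of_eq ?_)
    congr 3
    · ext ω
      constructor <;> intro h <;> rw [h] <;> push_cast <;> ring
    · ext ω
      rw [Nat.cast_sub hij]
      constructor <;> intro h <;> rw [h] <;> ring

/-- one-sided first moment -/
theorem one_side {Ω : Type} {s : Finset Ω} {D : Ω → ℤ} (h : LogConc s D) (u : ℤ) (w : ℕ)
    (hw : 0 < w) :
    (∑ ω ∈ s.filter (fun ω => u ≤ D ω), ((D ω : ℝ) - u)) * (blk s D w u : ℝ) ≤
      7 * w * (s.card : ℝ) ^ 2 := by
  rcases Nat.eq_zero_or_pos (blk s D w u) with h0 | hpos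
  · rw [h0]; simp; positivity
  have hw' : (0 : ℤ) < w := by exact_mod_cast hw
  -- block index
  set q : Ω → ℕ := fun ω => ((D ω - u) / w).toNat with hq
  obtain ⟨J, hJ⟩ : ∃ J : ℕ, ∀ ω ∈ s, q ω < J :=
    ⟨(s.sup q) + 1, fun ω hω => Nat.lt_succ_of_le (le_sup (f := q) hω)⟩
  have hfib : ∀ n : ℕ, (s.filter fun ω => u ≤ D ω).filter (fun ω => q ω = n) =
      s.filter fun ω => u + n * w ≤ D ω ∧ D ω < u + n * w + w := by
    intro n
    ext ω
    simp only [mem_filter, hq]
    constructor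
    · rintro ⟨⟨h1, h2⟩, h3⟩
      have h4 : (D ω - u) / w = n := by
        have : 0 ≤ (D ω - u) / (w : ℤ) := Int.ediv_nonneg (by linarith) hw'.le
        omega
      rw [Int.ediv_eq_iff_of_pos hw'] at h4
      refine ⟨h1, ?_, ?_⟩ <;> nlinarith [h4.1, h4.2]
    · rintro ⟨h1, h2, h3⟩
      have hnn : (0 : ℤ) ≤ n * w := by positivity
      refine ⟨⟨h1, by linarith⟩, ?_⟩
      have h4 : (D ω - u) / w = n := by
        rw [Int.ediv_eq_iff_of_pos hw']
        constructor <;> nlinarith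
      rw [h4]; rfl
  set a : ℕ → ℕ := fun n => blk s D w (u + n * w) with ha
  have hcard : ∀ n, ((s.filter fun ω => u ≤ D ω).filter (fun ω => q ω = n)).card = a n := by
    intro n; rw [hfib n]; rfl
  have ha0 : a 0 = blk s D w u := by simp [ha]
  have hsb := seq_bound a J s.card (by
      intro j hj
      rw [← hcard j, card_eq_zero, filter_eq_empty_iff]
      intro ω hω hqj
      have := hJ ω (mem_filter.1 hω).1
      omega) (by
      have := card_eq_sum_card_fiberwise (f := q) (s := s.filter fun ω => u ≤ D ω)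
        (t := range J) (fun ω hω => by
          simp only [coe_filter, Set.mem_setOf_eq] at hω
          simpa using hJ ω hω.1)
      simp only [hcard] at this
      rw [← this]
      exact card_le_card (filter_subset _ _)) (by rw [ha0]; exact hpos)
      (fun i j hij => blk_lc h u w i j hij)
  have hmom : ∑ ω ∈ s.filter (fun ω => u ≤ D ω), q ω = ∑ j ∈ range J, j * a j := by
    rw [← sum_fiberwise_of_maps_to (s := s.filter fun ω => u ≤ D ω) (t := range J) (g := q)
      (fun ω hω => mem_range.2 (hJ ω (mem_filter.1 hω).1))]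
    refine sum_congr rfl fun j _ => ?_
    rw [← hcard j, sum_congr rfl (g := fun _ => j) (fun ω hω => (mem_filter.1 hω).2),
      sum_const, smul_eq_mul, mul_comm]
  rw [← hmom, ha0] at hsb
  have hpt : ∀ ω ∈ s.filter (fun ω => u ≤ D ω), ((D ω : ℝ) - u) ≤ w * ((q ω : ℝ) + 1) := by
    intro ω hω
    have h1 := (mem_filter.1 hω).2
    have h2 : ((q ω : ℕ) : ℤ) = (D ω - u) / w := by
      simp only [hq]
      exact Int.toNat_of_nonneg (Int.ediv_nonneg (by linarith) hw'.le)
    have h3 : D ω - u ≤ w * ((q ω : ℤ) + 1) := by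
      rw [h2]
      have := Int.lt_ediv_add_one_mul_self (D ω - u) hw'
      nlinarith
    exact_mod_cast h3
  have hN : ((s.filter fun ω => u ≤ D ω).card : ℝ) ≤ s.card := by
    exact_mod_cast card_le_card (filter_subset _ _)
  have hB : (blk s D w u : ℝ) ≤ s.card := by
    exact_mod_cast card_le_card (filter_subset _ _)
  have hsb' : (∑ ω ∈ s.filter (fun ω => u ≤ D ω), (q ω : ℝ)) * (blk s D w u : ℝ) ≤
      6 * s.card * s.card := by exact_mod_cast hsb
  calc (∑ ω ∈ s.filter (fun ω => u ≤ D ω), ((D ω : ℝ) - u)) * (blk s D w u : ℝ)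
      ≤ (∑ ω ∈ s.filter (fun ω => u ≤ D ω), (w : ℝ) * ((q ω : ℝ) + 1)) * (blk s D w u : ℝ) := by
        gcongr with ω hω
        exact hpt ω hω
    _ = w * ((∑ ω ∈ s.filter (fun ω => u ≤ D ω), (q ω : ℝ)) * (blk s D w u : ℝ) +
          ((s.filter fun ω => u ≤ D ω).card : ℝ) * (blk s D w u : ℝ)) := by
        rw [← mul_sum, sum_add_distrib, sum_const, nsmul_eq_mul, mul_one]; ring
    _ ≤ w * (6 * s.card * s.card + (s.card : ℝ) * s.card) := by gcongr
    _ = 7 * w * (s.card : ℝ) ^ 2 := by ring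

theorem logConc_neg {Ω : Type} {s : Finset Ω} {D : Ω → ℤ} (h : LogConc s D) :
    LogConc s (fun ω => - D ω) := by
  intro k l j h1 h2
  have := h (-l) (-k) j h1 (by linarith)
  rw [Nat.mul_comm, Nat.mul_comm (s.filter fun ω => - D ω = k + j).card]
  have e : ∀ x y : ℤ, y = -x → (s.filter fun ω => - D ω = x) = s.filter fun ω => D ω = y := by
    intro x y hxy
    ext ω
    simp only [mem_filter, and_congr_right_iff]
    intro _
    omega
  rw [e l (-l) rfl, e k (-k) rfl, e (l - j) (-l + j) (by ring), e (k + j) (-k - j) (by ring)]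
  exact this

theorem t_BALL : P_BALL := by
  intro Ω s D h m u w hm
  rcases Nat.eq_zero_or_pos w with rfl | hw
  · have : (s.filter fun ω => u ≤ D ω ∧ D ω < u + ((0 : ℕ) : ℤ)) = ∅ := by
      rw [filter_eq_empty_iff]
      intro ω _ h'
      push_cast at h'
      omega
    rw [this]
    simp
  have hw1 : (1 : ℝ) ≤ w := by exact_mod_cast hw
  have hR := one_side h u w hw
  have hL := one_side (logConc_neg h) (-u - w + 1) w hw
  have hbl : blk s (fun ω => - D ω) w (-u - w + 1) = blk s D w u := by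
    unfold blk
    congr 1
    ext ω
    simp only [mem_filter, and_congr_right_iff]
    intro _
    omega
  rw [hbl] at hL
  set B : ℝ := (blk s D w u : ℝ) with hB
  have hB0 : 0 ≤ B := by positivity
  have hgoal : ((s.filter fun ω => u ≤ D ω ∧ D ω < u + w).card : ℝ) = B := rfl
  rw [hgoal]
  -- sum of |D - u|
  have hS : ∑ ω ∈ s, |(D ω : ℝ) - u| ≤
      ∑ ω ∈ s.filter (fun ω => u ≤ D ω), ((D ω : ℝ) - u) +
      ∑ ω ∈ s.filter (fun ω => -u - w + 1 ≤ - D ω), (((- D ω : ℤ) : ℝ) - ((-u - w + 1 : ℤ) : ℝ)) := by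
    rw [sum_filter, sum_filter, ← sum_add_distrib]
    refine sum_le_sum fun ω _ => ?_
    by_cases h1 : u ≤ D ω
    · have h1' : (u : ℝ) ≤ D ω := by exact_mod_cast h1
      rw [if_pos h1, abs_of_nonneg (by linarith)]
      split_ifs with h2
      · have h2' : ((-u - w + 1 : ℤ) : ℝ) ≤ ((- D ω : ℤ) : ℝ) := by exact_mod_cast h2
        linarith
      · linarith
    · have h1' : (D ω : ℝ) ≤ u := by exact_mod_cast (not_le.1 h1).le
      have h2 : -u - w + 1 ≤ - D ω := by omega
      rw [if_neg h1, if_pos h2, abs_of_nonpos (by linarith)]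
      push_cast
      linarith
  have hSB : (∑ ω ∈ s, |(D ω : ℝ) - u|) * B ≤ 14 * w * (s.card : ℝ) ^ 2 := by
    have := mul_le_mul_of_nonneg_right hS hB0
    rw [add_mul] at this
    linarith
  have hm2 : ∑ ω ∈ s, |(D ω : ℝ) - m| ≤ 2 * ∑ ω ∈ s, |(D ω : ℝ) - u| := by
    have h1 : ∑ ω ∈ s, |(D ω : ℝ) - m| ≤ ∑ ω ∈ s, (|(D ω : ℝ) - u| + |(u : ℝ) - m|) :=
      sum_le_sum fun ω _ => abs_sub_le _ _ _
    rw [sum_add_distrib, sum_const, nsmul_eq_mul] at h1
    have h2 : (s.card : ℝ) * |(u : ℝ) - m| ≤ ∑ ω ∈ s, |(D ω : ℝ) - u| := by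
      have h3 : (s.card : ℝ) * |(u : ℝ) - m| = |∑ ω ∈ s, ((D ω : ℝ) - u)| := by
        rw [sum_sub_distrib, ← hm, sum_const, nsmul_eq_mul, ← abs_of_nonneg (a := (s.card : ℝ))
          (by positivity), ← abs_mul, abs_of_nonneg (a := (s.card : ℝ)) (by positivity),
          ← abs_neg]
        congr 1; ring
      rw [h3]
      exact abs_sum_le_sum_abs _ _
    linarith
  calc (∑ ω ∈ s, |(D ω : ℝ) - m|) * B ≤ (2 * ∑ ω ∈ s, |(D ω : ℝ) - u|) * B := by gcongr
    _ = 2 * ((∑ ω ∈ s, |(D ω : ℝ) - u|) * B) := by ring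
    _ ≤ 2 * (14 * w * (s.card : ℝ) ^ 2) := by gcongr
    _ ≤ 38 * w * (s.card : ℝ) ^ 2 := by
      have : 0 ≤ (w : ℝ) * (s.card : ℝ) ^ 2 := by positivity
      nlinarith

end Pool.Agent.TH889.KS_BALL
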