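import Mathlib
import Pool.Agent.TH600.YT.Basic
import Pool.Agent.TH600.YT.Canon

set_option autoImplicit false

open MeasureTheory Real Set
open scoped ContDiff

namespace Pool.Agent.TH889.J836

open Pool.Agent.TH600.YT

/-- the derivative of `cylPt` -/
noncomputable def dC (R : ℝ) (p : ℝ × ℝ × ℝ) : ℝ × ℝ × ℝ →L[ℝ] ℝ × ℝ × ℝ :=
  (((cos p.2.2) • ContinuousLinearMap.fst ℝ ℝ (ℝ × ℝ)
      - ((R + p.1) * sin p.2.2) • ((ContinuousLinearMap.snd ℝ ℝ ℝ).comp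
        (ContinuousLinearMap.snd ℝ ℝ (ℝ × ℝ)))).prod
    (((sin p.2.2) • ContinuousLinearMap.fst ℝ ℝ (ℝ × ℝ)
      + ((R + p.1) * cos p.2.2) • ((ContinuousLinearMap.snd ℝ ℝ ℝ).comp
        (ContinuousLinearMap.snd ℝ ℝ (ℝ × ℝ)))).prod
    ((ContinuousLinearMap.fst ℝ ℝ ℝ).comp (ContinuousLinearMap.snd ℝ ℝ (ℝ × ℝ)))))

theorem dC_apply (R : ℝ) (p v : ℝ × ℝ × ℝ) : dC R p v =
    (cos p.2.2 * v.1 - (R + p.1) * sin p.2.2 * v.2.2,
      sin p.2.2 * v.1 + (R + p.1) * cos p.2.2 * v.2.2, v.2.1) := by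
  simp [dC]

theorem hasFDerivAt_cylPt (R : ℝ) (p : ℝ × ℝ × ℝ) : HasFDerivAt (cylPt R) (dC R p) p := by
  have h1 : HasFDerivAt (fun p : ℝ × ℝ × ℝ => R + p.1) (ContinuousLinearMap.fst ℝ ℝ (ℝ × ℝ)) p :=
    hasFDerivAt_fst.const_add R
  have h2 : HasFDerivAt (fun p : ℝ × ℝ × ℝ => p.2.2) ((ContinuousLinearMap.snd ℝ ℝ ℝ).comp
      (ContinuousLinearMap.snd ℝ ℝ (ℝ × ℝ))) p := hasFDerivAt_snd.snd
  have h3 : HasFDerivAt (fun p : ℝ × ℝ × ℝ => p.2.1) ((ContinuousLinearMap.fst ℝ ℝ ℝ).comp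
      (ContinuousLinearMap.snd ℝ ℝ (ℝ × ℝ))) p := hasFDerivAt_snd.fst
  have h4 := (h1.mul h2.cos).prodMk ((h1.mul h2.sin).prodMk h3)
  refine h4.congr_fderiv ?_
  ext v <;> simp [dC_apply]

/-- coordinates -/
def eqv : (ℝ × ℝ × ℝ) ≃ₗ[ℝ] (Fin 3 → ℝ) where
  toFun p := ![p.1, p.2.1, p.2.2]
  invFun v := (v 0, v 1, v 2)
  map_add' p q := by ext i; fin_cases i <;> simp
  map_smul' c p := by ext i; fin_cases i <;> simp
  left_inv p := by simp
  right_inv v := by ext i; fin_cases i <;> simp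

theorem det_dC (R : ℝ) (p : ℝ × ℝ × ℝ) : (dC R p).det = -(R + p.1) := by
  have h1 : LinearMap.det ((dC R p : ℝ × ℝ × ℝ →L[ℝ] ℝ × ℝ × ℝ) : ℝ × ℝ × ℝ →ₗ[ℝ] ℝ × ℝ × ℝ)
      = LinearMap.det (Matrix.toLin' !![cos p.2.2, 0, -((R + p.1) * sin p.2.2);
        sin p.2.2, 0, (R + p.1) * cos p.2.2; 0, 1, 0]) := by
    rw [← LinearMap.det_conj _ eqv]
    congr 1
    ext i j
    fin_cases i <;> fin_cases j <;> simp [eqv, dC_apply]
  rw [ContinuousLinearMap.det, h1, LinearMap.det_toLin', Matrix.det_fin_three]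
  simp
  have := sin_sq_add_cos_sq p.2.2
  linear_combination (-(R + p.1)) * this

theorem rho_eq {R x b : ℝ} (h : 0 ≤ R + x) :
    √(((R + x) * cos b) ^ 2 + ((R + x) * sin b) ^ 2) = R + x := by
  have : ((R + x) * cos b) ^ 2 + ((R + x) * sin b) ^ 2 = (R + x) ^ 2 := by
    have := sin_sq_add_cos_sq b
    linear_combination (R + x) ^ 2 * this
  rw [this, Real.sqrt_sq h]

theorem pos_of_le {R x y : ℝ} (hR : 1 < R) (h : x ^ 2 + y ^ 2 ≤ 1) : 0 < R + x := by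
  nlinarith [sq_nonneg y, sq_nonneg (x + 1)]

theorem cylPt_mem_cST {R x y z : ℝ} (hR : 1 < R) (h : x ^ 2 + y ^ 2 ≤ 1) :
    cylPt R (x, y, z) ∈ cST R := by
  unfold cST cylPt
  simp only [Set.mem_ofPred_eq]
  rw [rho_eq (pos_of_le hR h).le]
  have : (R + x - R) ^ 2 + y ^ 2 = x ^ 2 + y ^ 2 := by ring
  rw [this]
  exact h

theorem contDiff_cylPt (R : ℝ) : ContDiff ℝ ∞ (cylPt R) := by
  unfold cylPt
  fun_prop

theorem adm_comp {R : ℝ} (hR : 1 < R) {U : ℝ × ℝ × ℝ → ℝ} (hU : TestFn R U) :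
    Adm (2 * π) (fun p => U (cylPt R p)) where
  smooth x y z h := (hU.smooth _ (cylPt_mem_cST hR h)).comp _ (contDiff_cylPt R).contDiffAt
  periodic x y z := by
    simp [cylPt]
  pos x y z h := hU.pos _ (cylPt_mem_cST hR h)

theorem injOn_cylPt {R : ℝ} (hR : 1 < R) : InjOn (cylPt R) (Cyl (2 * π)) := by
  rintro ⟨x, y, z⟩ ⟨h1, h2, h3⟩ ⟨x', y', z'⟩ ⟨h1', h2', h3'⟩ h
  simp only [cylPt, Prod.mk.injEq] at h h1 h2 h3 h1' h2' h3'
  obtain ⟨e1, e2, e3⟩ := h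
  have p1 : 0 < R + x := pos_of_le hR h1.le
  have p2 : 0 < R + x' := pos_of_le hR h1'.le
  have hx : x = x' := by
    have := rho_eq (b := z) p1.le
    rw [e1, e2, rho_eq p2.le] at this
    linarith
  subst hx
  have c1 : cos z = cos z' := mul_left_cancel₀ p1.ne' e1
  have c2 : sin z = sin z' := mul_left_cancel₀ p1.ne' e2
  have hz : z = z' := by
    have hc : cos (z - z') = 1 := by
      rw [cos_sub, c1, c2]
      have := sin_sq_add_cos_sq z'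
      nlinarith
    rw [Real.cos_eq_one_iff_of_lt_of_lt (by linarith) (by linarith)] at hc
    linarith
  rw [hz, e3]

theorem exists_angle {X Y : ℝ} (h : ¬ (0 ≤ X ∧ Y = 0)) :
    ∃ θ, 0 < θ ∧ θ < 2 * π ∧ √(X ^ 2 + Y ^ 2) * cos θ = X ∧ √(X ^ 2 + Y ^ 2) * sin θ = Y := by
  set c : ℂ := ⟨X, Y⟩ with hc
  have hn : ‖c‖ = √(X ^ 2 + Y ^ 2) := by
    rw [Complex.norm_def, Complex.normSq_apply]
    congr 1
    simp [hc]
    ring
  have h1 := Complex.norm_mul_cos_arg c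
  have h2 := Complex.norm_mul_sin_arg c
  rw [hn] at h1 h2
  have h3 : c.arg ≠ 0 := by
    intro h0
    rw [Complex.arg_eq_zero_iff] at h0
    exact h h0
  have h4 := Complex.neg_pi_lt_arg c
  have h5 := Complex.arg_le_pi c
  have hpi := Real.pi_pos
  rcases lt_or_gt_of_ne h3 with h6 | h6
  · refine ⟨c.arg + 2 * π, by linarith, by linarith, ?_, ?_⟩
    · rw [cos_add_two_pi]; exact h1
    · rw [sin_add_two_pi]; exact h2
  · exact ⟨c.arg, h6, by linarith, h1, h2⟩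

theorem null_plane : (volume : Measure (ℝ × ℝ × ℝ)) {p | p.2.1 = 0} = 0 := by
  have : {p : ℝ × ℝ × ℝ | p.2.1 = 0} = univ ×ˢ (({0} : Set ℝ) ×ˢ univ) := by
    ext p
    simp
  rw [this, Measure.volume_eq_prod, Measure.prod_prod, Measure.volume_eq_prod, Measure.prod_prod]
  simp

theorem image_ae {R : ℝ} (hR : 1 < R) :
    (ST R : Set (ℝ × ℝ × ℝ)) =ᵐ[volume] (cylPt R '' Cyl (2 * π) : Set (ℝ × ℝ × ℝ)) := by
  have h1 : cylPt R '' Cyl (2 * π) ⊆ ST R := by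
    rintro _ ⟨⟨x, y, z⟩, ⟨h1, h2, h3⟩, rfl⟩
    simp only at h1 h2 h3
    unfold TH600.YT.ST cylPt
    simp only [Set.mem_ofPred_eq]
    rw [rho_eq (pos_of_le hR h1.le).le]
    have : (R + x - R) ^ 2 + y ^ 2 = x ^ 2 + y ^ 2 := by ring
    rw [this]
    exact h1
  have h2 : ST R \ cylPt R '' Cyl (2 * π) ⊆ {p | p.2.1 = 0} := by
    rintro ⟨X, Y, Z⟩ ⟨h1, h2⟩
    by_contra hY
    simp only [Set.mem_ofPred_eq] at hY
    apply h2
    obtain ⟨θ, t1, t2, t3, t4⟩ := exists_angle (X := X) (Y := Y) (fun h => hY h.2)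
    refine ⟨(√(X ^ 2 + Y ^ 2) - R, Z, θ), ⟨h1, t1, t2⟩, ?_⟩
    simp only [cylPt]
    have : R + (√(X ^ 2 + Y ^ 2) - R) = √(X ^ 2 + Y ^ 2) := by ring
    rw [this, t3, t4]
  symm
  rw [ae_eq_set]
  constructor
  · rw [sdiff_eq_bot_iff.mpr h1]
    simp
  · exact measure_mono_null h2 null_plane

theorem change_var {R : ℝ} (hR : 1 < R) (g : ℝ × ℝ × ℝ → ℝ) :
    ∫ p in ST R, g p = ∫ p in Cyl (2 * π), g (cylPt R p) * (R + p.1) := by
  have i1 : (volume : Measure (ℝ × ℝ)).IsAddHaarMeasure :=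
    inferInstanceAs ((volume : Measure ℝ).prod (volume : Measure ℝ)).IsAddHaarMeasure
  have i2 : (volume : Measure (ℝ × ℝ × ℝ)).IsAddHaarMeasure :=
    inferInstanceAs ((volume : Measure ℝ).prod (volume : Measure (ℝ × ℝ))).IsAddHaarMeasure
  rw [setIntegral_congr_set (image_ae hR),
    integral_image_eq_integral_abs_det_fderiv_smul volume (measurableSet_Cyl _)
      (fun p _ => (hasFDerivAt_cylPt R p).hasFDerivWithinAt) (injOn_cylPt hR)]
  apply setIntegral_congr_fun (measurableSet_Cyl _)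
  intro p hp
  have : 0 < R + p.1 := pos_of_le hR hp.1.le
  simp only
  rw [det_dC, abs_neg, abs_of_pos this, smul_eq_mul, mul_comm]

theorem fderiv_lin (U : ℝ × ℝ × ℝ → ℝ) (q : ℝ × ℝ × ℝ) (a b c : ℝ) :
    fderiv ℝ U q (a, b, c) = a * D1 U q + b * D2 U q + c * D3 U q := by
  have : ((a, b, c) : ℝ × ℝ × ℝ) = a • ((1, 0, 0) : ℝ × ℝ × ℝ) + b • ((0, 1, 0) : ℝ × ℝ × ℝ)
      + c • ((0, 0, 1) : ℝ × ℝ × ℝ) := by
    simp
  rw [this, map_add, map_add, map_smul, map_smul, map_smul]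
  rfl

theorem grad_comp {R : ℝ} (hR : 1 < R) {U : ℝ × ℝ × ℝ → ℝ} (hU : TestFn R U) {p : ℝ × ℝ × ℝ}
    (hp : p ∈ Cyl (2 * π)) :
    (D1 (fun p => U (cylPt R p)) p) ^ 2 + (D2 (fun p => U (cylPt R p)) p) ^ 2
      + (D3 (fun p => U (cylPt R p)) p / (R + p.1)) ^ 2
    = (D1 U (cylPt R p)) ^ 2 + (D2 U (cylPt R p)) ^ 2 + (D3 U (cylPt R p)) ^ 2 := by
  obtain ⟨x, y, z⟩ := p
  have hx : 0 < R + x := pos_of_le hR hp.1.le
  have h1 : DifferentiableAt ℝ U (cylPt R (x, y, z)) :=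
    (hU.smooth _ (cylPt_mem_cST hR hp.1.le)).differentiableAt (by simp)
  have h2 : HasFDerivAt (fun p => U (cylPt R p))
      ((fderiv ℝ U (cylPt R (x, y, z))).comp (dC R (x, y, z))) (x, y, z) :=
    h1.hasFDerivAt.comp _ (hasFDerivAt_cylPt R _)
  have e1 : D1 (fun p => U (cylPt R p)) (x, y, z)
      = cos z * D1 U (cylPt R (x, y, z)) + sin z * D2 U (cylPt R (x, y, z)) := by
    rw [D1, h2.fderiv, ContinuousLinearMap.comp_apply, dC_apply, fderiv_lin]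
    simp
  have e2 : D2 (fun p => U (cylPt R p)) (x, y, z) = D3 U (cylPt R (x, y, z)) := by
    rw [D2, h2.fderiv, ContinuousLinearMap.comp_apply, dC_apply, fderiv_lin]
    simp
  have e3 : D3 (fun p => U (cylPt R p)) (x, y, z)
      = (R + x) * (-sin z * D1 U (cylPt R (x, y, z)) + cos z * D2 U (cylPt R (x, y, z))) := by
    rw [D3, h2.fderiv, ContinuousLinearMap.comp_apply, dC_apply, fderiv_lin]
    simp
    ring
  rw [e1, e2, e3]
  simp only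
  rw [mul_div_cancel_left₀ _ hx.ne']
  have := sin_sq_add_cos_sq z
  linear_combination ((D1 U (cylPt R (x, y, z))) ^ 2 + (D2 U (cylPt R (x, y, z))) ^ 2) * this

theorem canon_pull (R : ℝ) (hR : 1 < R) (U : ℝ × ℝ × ℝ → ℝ) (hU : TestFn R U) :
    Adm (2 * π) (fun p => U (cylPt R p)) ∧
    torusEnergy R (fun p => U (cylPt R p)) = yamabeEnergy R U ∧
    torusVol6 R (fun p => U (cylPt R p)) = yamabeVol R U := by
  refine ⟨adm_comp hR hU, ?_, ?_⟩
  · unfold torusEnergy yamabeEnergy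
    rw [change_var hR]
    congr 1
    apply setIntegral_congr_fun (measurableSet_Cyl _)
    intro p hp
    simp only
    rw [grad_comp hR hU hp]
  · unfold torusVol6 yamabeVol
    rw [change_var hR]

end Pool.Agent.TH889.J836
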