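import Pool.Agent.TH280.LS.Stm
set_option autoImplicit false

/-! # DUAL: the one dimensional estimate in time, by duality -/

open MeasureTheory Set
open scoped ENNReal

namespace Pool.Agent.TH889.DUAL

open Pool.Agent.TH280.LS

lemma cs {α : Type*} [MeasurableSpace α] (μ : Measure α) (f g : α → ℝ≥0∞)
    (hf : AEMeasurable f μ) (hg : AEMeasurable g μ) :
    (∫⁻ x, f x * g x ∂μ) ^ 2 ≤ (∫⁻ x, f x ^ 2 ∂μ) * ∫⁻ x, g x ^ 2 ∂μ := by
  have h := ENNReal.lintegral_mul_le_Lp_mul_Lq μ Real.HolderConjugate.two_two hf hg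
  simp only [Pi.mul_apply, ENNReal.rpow_ofNat] at h
  have hk : ∀ x : ℝ≥0∞, (x ^ (1 / 2 : ℝ)) ^ 2 = x := by
    intro x
    rw [← ENNReal.rpow_natCast, ← ENNReal.rpow_mul]
    norm_num
  calc (∫⁻ x, f x * g x ∂μ) ^ 2
      ≤ ((∫⁻ x, f x ^ 2 ∂μ) ^ (1 / 2 : ℝ) * (∫⁻ x, g x ^ 2 ∂μ) ^ (1 / 2 : ℝ)) ^ 2 := by gcongr
    _ = _ := by rw [mul_pow, hk, hk]

lemma cont_int (μ : Measure ℝ) (h : ℝ → ℝ) (hh : Continuous h) (q : ℝ → ℂ)
    (hq : Integrable q μ) : Continuous fun t : ℝ => ∫ a, e (t * h a) * q a ∂μ := by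
  refine continuous_of_dominated (bound := fun a => ‖q a‖) ?_ ?_ hq.norm ?_
  · intro t
    exact ((continuous_e.comp (continuous_const.mul hh)).aestronglyMeasurable).mul
      hq.aestronglyMeasurable
  · intro t
    exact Filter.Eventually.of_forall fun a => by rw [norm_mul, norm_e, one_mul]
  · exact Filter.Eventually.of_forall fun a =>
      (continuous_e.comp (continuous_id.mul continuous_const)).mul continuous_const

lemma Wt_pos {N : ℝ} (hN : 1 ≤ N) (v : ℝ) : 0 < Wt N v := by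
  unfold Wt
  split_ifs with h
  · positivity
  · push Not at h
    exact Real.rpow_pos_of_pos (zero_lt_one.trans h) _

lemma measurable_Wt (N : ℝ) : Measurable (Wt N) := by
  unfold Wt
  refine Measurable.ite (measurableSet_le (by fun_prop) (by fun_prop)) (by fun_prop) (by fun_prop)

/-- weighted Cauchy–Schwarz -/
lemma wcs {N : ℝ} (hN : 1 ≤ N) (f b : ℝ → ℂ) (hf : AEMeasurable f) (hb : AEMeasurable b) :
    ‖∫ v, f v * b v‖ₑ ^ 2 ≤ (∫⁻ v, ENNReal.ofReal (Wt N v) * ‖f v‖ₑ ^ 2) *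
      ∫⁻ v, (ENNReal.ofReal (Wt N v))⁻¹ * ‖b v‖ₑ ^ 2 := by
  have hs : Measurable fun v => ENNReal.ofReal (Real.sqrt (Wt N v)) :=
    (measurable_Wt N).sqrt.ennreal_ofReal
  have h1 : ∀ v, ENNReal.ofReal (Real.sqrt (Wt N v)) ^ 2 = ENNReal.ofReal (Wt N v) := by
    intro v
    rw [← ENNReal.ofReal_pow (Real.sqrt_nonneg _), Real.sq_sqrt (Wt_pos hN v).le]
  have h2 : ∀ v, ENNReal.ofReal (Real.sqrt (Wt N v)) *
      (ENNReal.ofReal (Real.sqrt (Wt N v)))⁻¹ = 1 := by
    intro v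
    refine ENNReal.mul_inv_cancel ?_ ENNReal.ofReal_ne_top
    have : 0 < Real.sqrt (Wt N v) := Real.sqrt_pos.2 (Wt_pos hN v)
    simpa using this
  calc ‖∫ v, f v * b v‖ₑ ^ 2 ≤ (∫⁻ v, ‖f v * b v‖ₑ) ^ 2 := by
        gcongr; exact enorm_integral_le_lintegral_enorm _
    _ = (∫⁻ v, (ENNReal.ofReal (Real.sqrt (Wt N v)) * ‖f v‖ₑ) *
          ((ENNReal.ofReal (Real.sqrt (Wt N v)))⁻¹ * ‖b v‖ₑ)) ^ 2 := by
        congr 1
        refine lintegral_congr fun v => ?_
        calc ‖f v * b v‖ₑ = 1 * (‖f v‖ₑ * ‖b v‖ₑ) := by rw [enorm_mul, one_mul]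
          _ = _ := by rw [← h2 v]; ring
    _ ≤ (∫⁻ v, (ENNReal.ofReal (Real.sqrt (Wt N v)) * ‖f v‖ₑ) ^ 2) *
          ∫⁻ v, ((ENNReal.ofReal (Real.sqrt (Wt N v)))⁻¹ * ‖b v‖ₑ) ^ 2 := by
        exact cs volume _ _ (hs.aemeasurable.mul hf.enorm) (hs.inv.aemeasurable.mul hb.enorm)
    _ = _ := by
        congr 1
        · refine lintegral_congr fun v => ?_
          rw [mul_pow, h1]
        · refine lintegral_congr fun v => ?_
          rw [mul_pow, ← ENNReal.inv_pow, h1]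

lemma Ph_sq (φ : ℝ → ℂ) (hφ : Measurable φ) (s : ℝ) :
    ‖Ph φ s‖ₑ ^ 2 ≤ 4 * ∫⁻ t in Icc (-2 : ℝ) 2, ‖φ t‖ₑ ^ 2 := by
  calc ‖Ph φ s‖ₑ ^ 2 ≤ (∫⁻ t in Icc (-2 : ℝ) 2, ‖φ t * e (t * s)‖ₑ) ^ 2 := by
        gcongr; exact enorm_integral_le_lintegral_enorm _
    _ = (∫⁻ t in Icc (-2 : ℝ) 2, 1 * ‖φ t‖ₑ) ^ 2 := by
        congr 1
        refine lintegral_congr fun t => ?_
        rw [enorm_mul, ← ofReal_norm (e (t * s)), norm_e, ENNReal.ofReal_one, mul_one, one_mul]
    _ ≤ (∫⁻ t in Icc (-2 : ℝ) 2, (1 : ℝ≥0∞) ^ 2) * ∫⁻ t in Icc (-2 : ℝ) 2, ‖φ t‖ₑ ^ 2 :=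
        cs _ _ _ aemeasurable_const hφ.enorm.aemeasurable
    _ = _ := by
        congr 1
        rw [one_pow, setLIntegral_one, Real.volume_Icc]
        norm_num

theorem dual_thm : S_MOD → S_W → S_DUAL := by
  rintro ⟨C1, hC1, hMOD⟩ ⟨C2, hC2, hW⟩
  refine ⟨C2 * max C1 16, by positivity, fun N g g' χ b hN hg hχ hb => ?_⟩
  have hN0 : 0 < N := by linarith
  have hlog : 0 ≤ Real.log N := Real.log_nonneg hN
  have gc : Continuous g := continuous_iff_continuousAt.2 fun ξ => (hg.1 ξ).continuousAt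
  have χc : Continuous χ := by
    have : LipschitzWith (Real.toNNReal (2 / N)) χ := LipschitzWith.of_dist_le_mul fun x y => by
      rw [dist_eq_norm, Real.dist_eq, Real.coe_toNNReal _ (by positivity)]
      exact hχ.2.1 x y
    exact this.continuous
  have χs : ∀ ξ, ξ ∉ Icc (-(2 * N)) (2 * N) → χ ξ = 0 := by
    intro ξ hξ
    apply hχ.2.2
    by_contra h
    push Not at h
    exact hξ ⟨(abs_le.1 h).1, (abs_le.1 h).2⟩
  have bc := continuous_ft hb
  obtain ⟨q0, hq0⟩ : ∃ q0 : ℝ → ℂ, q0 = fun ξ => χ ξ * ft b ξ := ⟨_, rfl⟩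
  have q0c : Continuous q0 := by rw [hq0]; exact χc.mul bc
  have q0s : HasCompactSupport q0 := by
    refine HasCompactSupport.intro (isCompact_Icc (a := -(2 * N)) (b := 2 * N)) fun ξ hξ => ?_
    rw [hq0]; simp only; rw [χs ξ hξ, zero_mul]
  have q0i : Integrable q0 := q0c.integrable_of_hasCompactSupport q0s
  obtain ⟨Q, hQ⟩ : ∃ Q : ℝ → ℂ, Q = fun t => ∫ ξ, e (t * g ξ) * q0 ξ := ⟨_, rfl⟩
  have Qc : Continuous Q := by rw [hQ]; exact cont_int volume g gc q0 q0i
  have Qb : ∀ t, ‖Q t‖ ≤ ∫ ξ, ‖q0 ξ‖ := by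
    intro t
    rw [hQ]
    refine (norm_integral_le_integral_norm _).trans (le_of_eq ?_)
    refine integral_congr_ae (Filter.Eventually.of_forall fun ξ => ?_)
    simp only [norm_mul, norm_e, one_mul]
  obtain ⟨φ, hφ⟩ : ∃ φ : ℝ → ℂ, φ = fun t => (starRingEnd ℂ) (Q t) := ⟨_, rfl⟩
  have φc : Continuous φ := by rw [hφ]; exact Complex.continuous_conj.comp Qc
  have φn : ∀ t, ‖φ t‖ = ‖Q t‖ := by intro t; rw [hφ]; simp
  have φi : Integrable φ (volume.restrict (Icc (-2 : ℝ) 2)) := φc.continuousOn.integrableOn_Icc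
  have φ2 : MemLp φ 2 (volume.restrict (Icc (-2 : ℝ) 2)) :=
    MemLp.of_bound φc.aestronglyMeasurable (∫ ξ, ‖q0 ξ‖)
      (Filter.Eventually.of_forall fun t => by rw [φn]; exact Qb t)
  obtain ⟨J, hJ⟩ : ∃ J : ℝ≥0∞, J = ∫⁻ t in Icc (-2 : ℝ) 2, ‖φ t‖ₑ ^ 2 := ⟨_, rfl⟩
  have hJt : J ≠ ⊤ := by
    rw [hJ]
    refine ne_top_of_le_ne_top (b := ∫⁻ _ in Icc (-2 : ℝ) 2,
      ENNReal.ofReal (∫ ξ, ‖q0 ξ‖) ^ 2) ?_ ?_
    · rw [setLIntegral_const, Real.volume_Icc]
      exact ENNReal.mul_ne_top (ENNReal.pow_ne_top ENNReal.ofReal_ne_top) ENNReal.ofReal_ne_top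
    · refine lintegral_mono fun t => ?_
      simp only
      rw [← ofReal_norm, φn]
      gcongr
      exact Qb t
  have hJQ : J = ∫⁻ t in Icc (-2 : ℝ) 2, ‖Q t‖ₑ ^ 2 := by
    rw [hJ]
    refine lintegral_congr fun t => ?_
    rw [← ofReal_norm, φn, ofReal_norm]
  -- the pairing
  have hpair : ‖∫ t in Icc (-2 : ℝ) 2, φ t * Q t‖ₑ = J := by
    have h1 : (∫ t in Icc (-2 : ℝ) 2, φ t * Q t) =
        ((∫ t in Icc (-2 : ℝ) 2, ‖Q t‖ ^ 2 : ℝ) : ℂ) := by
      rw [← integral_complex_ofReal]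
      refine integral_congr_ae (Filter.Eventually.of_forall fun t => ?_)
      simp only [hφ]
      rw [Complex.conj_mul']
      push_cast; rfl
    have h2 : 0 ≤ ∫ t in Icc (-2 : ℝ) 2, ‖Q t‖ ^ 2 := integral_nonneg fun t => by positivity
    rw [h1, ← ofReal_norm, Complex.norm_real, Real.norm_of_nonneg h2,
      ofReal_integral_eq_lintegral_ofReal, hJQ]
    · refine lintegral_congr fun t => ?_
      rw [ENNReal.ofReal_pow (norm_nonneg _), ofReal_norm]
    · exact (Qc.norm.pow 2).continuousOn.integrableOn_Icc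
    · exact Filter.Eventually.of_forall fun t => by positivity
  -- the function `F`
  have Pc : Continuous (Ph φ) := by
    have : Ph φ = fun s => ∫ t in Icc (-2 : ℝ) 2, e (s * t) * φ t := by
      funext s
      unfold Ph
      refine integral_congr_ae (Filter.Eventually.of_forall fun t => ?_)
      simp only
      rw [mul_comm (φ t), mul_comm t s]
    rw [this]
    exact cont_int _ (fun t => t) continuous_id φ φi
  obtain ⟨F, hF⟩ : ∃ F : ℝ → ℂ, F = fun ξ => χ ξ * Ph φ (g ξ) := ⟨_, rfl⟩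
  have Fc : Continuous F := by rw [hF]; exact χc.mul (Pc.comp gc)
  have F0 : ∀ ξ, ξ ∉ Icc (-(2 * N)) (2 * N) → F ξ = 0 := by
    intro ξ hξ
    rw [hF]; simp only; rw [χs ξ hξ, zero_mul]
  have Fs : HasCompactSupport F :=
    HasCompactSupport.intro (isCompact_Icc (a := -(2 * N)) (b := 2 * N)) F0
  have Fi : Integrable F := Fc.integrable_of_hasCompactSupport Fs
  have F2 : MemLp F 2 := Fc.memLp_of_hasCompactSupport Fs
  have hm16 : (16 : ℝ≥0∞) * J ≤ ENNReal.ofReal (max C1 16) * J := by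
    gcongr
    calc (16 : ℝ≥0∞) = ENNReal.ofReal 16 := by norm_num
      _ ≤ _ := ENNReal.ofReal_le_ofReal (le_max_right _ _)
  have FA : ∫⁻ ξ : ℝ, ‖F ξ‖ₑ ^ 2 ≤ ENNReal.ofReal N * (ENNReal.ofReal (max C1 16) * J) := by
    calc ∫⁻ ξ : ℝ, ‖F ξ‖ₑ ^ 2
        ≤ ∫⁻ ξ : ℝ, (Icc (-(2 * N)) (2 * N)).indicator (fun _ => 4 * J) ξ := by
          refine lintegral_mono fun ξ => ?_
          by_cases hξ : ξ ∈ Icc (-(2 * N)) (2 * N)
          · rw [indicator_of_mem hξ, hF]
            simp only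
            calc ‖χ ξ * Ph φ (g ξ)‖ₑ ^ 2 = ‖χ ξ‖ₑ ^ 2 * ‖Ph φ (g ξ)‖ₑ ^ 2 := by
                  rw [enorm_mul, mul_pow]
              _ ≤ 1 ^ 2 * (4 * J) := by
                  gcongr
                  · rw [← ofReal_norm, ← ENNReal.ofReal_one]
                    exact ENNReal.ofReal_le_ofReal (hχ.1 ξ)
                  · rw [hJ]; exact Ph_sq φ φc.measurable (g ξ)
              _ = 4 * J := by rw [one_pow, one_mul]
          · rw [indicator_of_notMem hξ, F0 ξ hξ]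
            simp
      _ = ENNReal.ofReal N * (16 * J) := by
          rw [lintegral_indicator measurableSet_Icc, setLIntegral_const, Real.volume_Icc]
          have : ENNReal.ofReal (2 * N - -(2 * N)) = 4 * ENNReal.ofReal N := by
            have h4 : (4 : ℝ≥0∞) = ENNReal.ofReal 4 := by norm_num
            rw [h4, ← ENNReal.ofReal_mul (by norm_num)]
            congr 1; ring
          rw [this]
          ring
      _ ≤ _ := by gcongr
  obtain ⟨m1, m2⟩ := hMOD N g g' χ φ hN hg hχ φc.measurable φ2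
  have W := (hW N hN).2 F (ENNReal.ofReal (max C1 16) * J) Fc.measurable Fi F2 FA
    (fun τ hτ => by
      have := m1 τ hτ
      rw [hF]
      refine this.trans ?_
      rw [← hJ, mul_comm C1 τ, ENNReal.ofReal_mul hτ.le, mul_assoc]
      gcongr
      exact le_max_left _ _)
    (fun τ hτ hτ1 => by
      have := m2 τ hτ hτ1
      rw [hF]
      refine this.trans ?_
      rw [← hJ, mul_comm C1 (τ ^ 2), ENNReal.ofReal_mul (by positivity), mul_assoc]
      gcongr
      exact le_max_left _ _)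
  -- Fubini
  have hint : Integrable (Function.uncurry fun t ξ => φ t * (e (t * g ξ) * q0 ξ))
      ((volume.restrict (Icc (-2 : ℝ) 2)).prod (volume : Measure ℝ)) := by
    have h0 : Integrable (fun z : ℝ × ℝ => φ z.1 * q0 z.2)
      ((volume.restrict (Icc (-2 : ℝ) 2)).prod (volume : Measure ℝ)) := φi.mul_prod q0i
    have hc : Continuous fun z : ℝ × ℝ => e (z.1 * g z.2) :=
      continuous_e.comp (continuous_fst.mul (gc.comp continuous_snd))
    have h1 : Integrable (fun z : ℝ × ℝ => e (z.1 * g z.2) * (φ z.1 * q0 z.2))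
      ((volume.restrict (Icc (-2 : ℝ) 2)).prod (volume : Measure ℝ)) := by
      refine h0.bdd_mul (c := 1) hc.aestronglyMeasurable ?_
      exact Filter.Eventually.of_forall fun z => (norm_e _).le
    refine h1.congr (Filter.Eventually.of_forall fun z => ?_)
    simp only [Function.uncurry]
    ring
  have hfub : (∫ t in Icc (-2 : ℝ) 2, φ t * Q t) = ∫ v, ft F v * b v := by
    calc (∫ t in Icc (-2 : ℝ) 2, φ t * Q t)
        = ∫ t in Icc (-2 : ℝ) 2, ∫ ξ, φ t * (e (t * g ξ) * q0 ξ) := by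
          refine integral_congr_ae (Filter.Eventually.of_forall fun t => ?_)
          simp only
          rw [integral_const_mul, hQ]
      _ = ∫ ξ, ∫ t in Icc (-2 : ℝ) 2, φ t * (e (t * g ξ) * q0 ξ) :=
          integral_integral_swap hint
      _ = ∫ ξ, F ξ * ft b ξ := by
          refine integral_congr_ae (Filter.Eventually.of_forall fun ξ => ?_)
          simp only
          have : (∫ t in Icc (-2 : ℝ) 2, φ t * (e (t * g ξ) * q0 ξ)) =
              (∫ t in Icc (-2 : ℝ) 2, φ t * e (t * g ξ)) * q0 ξ := by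
            rw [← integral_mul_const]
            refine integral_congr_ae (Filter.Eventually.of_forall fun t => ?_)
            simp only
            ring
          rw [this, hF, hq0]
          simp only
          unfold Ph
          ring
      _ = _ := ft_mul Fi hb
  have hcs := wcs hN (ft F) b (continuous_ft Fi).measurable.aemeasurable hb.1.aemeasurable
  rw [← hfub, hpair] at hcs
  have hgoal : J ≤ ENNReal.ofReal (C2 * max C1 16 * (1 + Real.log N)) *
      ∫⁻ v : ℝ, (ENNReal.ofReal (Wt N v))⁻¹ * ‖b v‖ₑ ^ 2 := by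
    obtain ⟨X, hX⟩ : ∃ X : ℝ≥0∞, X = ∫⁻ v : ℝ, (ENNReal.ofReal (Wt N v))⁻¹ * ‖b v‖ₑ ^ 2 :=
      ⟨_, rfl⟩
    rw [← hX] at hcs ⊢
    rcases eq_or_ne J 0 with h0 | h0
    · rw [h0]; exact zero_le
    · have h3 : J * J ≤ J * (ENNReal.ofReal (C2 * max C1 16 * (1 + Real.log N)) * X) := by
        calc J * J = J ^ 2 := (sq J).symm
          _ ≤ _ := hcs
          _ ≤ (ENNReal.ofReal (C2 * (1 + Real.log N)) * (ENNReal.ofReal (max C1 16) * J)) * X := by
              gcongr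
          _ = _ := by
              have : C2 * max C1 16 * (1 + Real.log N) = (C2 * (1 + Real.log N)) * max C1 16 := by
                ring
              rw [this, ENNReal.ofReal_mul (by positivity : 0 ≤ C2 * (1 + Real.log N))]
              ring
      exact (ENNReal.mul_le_mul_iff_right h0 hJt).1 h3
  rw [hJQ, hQ, hq0] at hgoal
  exact hgoal

end Pool.Agent.TH889.DUAL
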