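import Pool.Agent.TH280.LS.Stm
set_option autoImplicit false

/-! # W: from the modulus of continuity to a weighted bound of the Fourier transform -/

open MeasureTheory Set
open scoped ENNReal

namespace Pool.Agent.TH889.W

open Pool.Agent.TH280.LS

lemma lintegral_even (f : ℝ → ℝ≥0∞) (hf : ∀ v, f (-v) = f v) :
    ∫⁻ v, f v = 2 * ∫⁻ v in Ioi (0:ℝ), f v := by
  have h1 : ∫⁻ v in Iio (0:ℝ), f v = ∫⁻ v in Ioi (0:ℝ), f v := by
    have h := (Measure.measurePreserving_neg (volume : Measure ℝ)).setLIntegral_comp_preimage_emb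
      (MeasurableEquiv.neg ℝ).measurableEmbedding f (Iio 0)
    rw [← h]
    have h2 : (Neg.neg ⁻¹' Iio (0:ℝ)) = Ioi 0 := by ext x; simp
    rw [h2]
    exact lintegral_congr fun v => hf v
  rw [← lintegral_add_compl f (measurableSet_Ioi : MeasurableSet (Ioi (0:ℝ))), compl_Ioi,
    ← Measure.restrict_congr_set (Iio_ae_eq_Iic (μ := volume) (a := (0:ℝ))), h1, two_mul]

lemma norm_e_sub_one_sq (x : ℝ) : ‖e x - 1‖ ^ 2 = 2 - 2 * Real.cos (2 * Real.pi * x) := by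
  unfold e
  rw [Complex.exp_ofReal_mul_I, ← Complex.normSq_eq_norm_sq, Complex.normSq_apply]
  simp only [Complex.sub_re, Complex.add_re, Complex.ofReal_re, Complex.mul_re, Complex.I_re,
    mul_zero, Complex.ofReal_im, Complex.I_im, mul_one, sub_self, add_zero, Complex.one_re,
    Complex.sub_im, Complex.add_im, Complex.mul_im, zero_add, Complex.one_im, sub_zero]
  nlinarith [Real.sin_sq_add_cos_sq (2 * Real.pi * x)]

lemma two_le_e {x : ℝ} (h1 : 1 / 4 ≤ |x|) (h2 : |x| ≤ 3 / 4) : (2 : ℝ≥0∞) ≤ ‖e x - 1‖ₑ ^ 2 := by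
  have h3 : Real.cos (2 * Real.pi * x) ≤ 0 := by
    rw [← Real.cos_abs, abs_mul, abs_of_pos (by positivity : (0:ℝ) < 2 * Real.pi)]
    apply Real.cos_nonpos_of_pi_div_two_le_of_le
    · nlinarith [Real.pi_pos]
    · nlinarith [Real.pi_pos]
  have h4 : (2:ℝ) ≤ ‖e x - 1‖ ^ 2 := by rw [norm_e_sub_one_sq]; linarith
  rw [← ofReal_norm, ← ENNReal.ofReal_pow (norm_nonneg _)]
  calc (2 : ℝ≥0∞) = ENNReal.ofReal 2 := by simp
    _ ≤ _ := ENNReal.ofReal_le_ofReal h4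

/-- `∫_{1/N}^1 dv/v` -/
lemma int_inv {a b : ℝ} (ha : 0 < a) (hab : a ≤ b) :
    ∫⁻ v in Ioc a b, ENNReal.ofReal (v⁻¹) = ENNReal.ofReal (Real.log (b / a)) := by
  have hb : 0 < b := lt_of_lt_of_le ha hab
  have hi : IntegrableOn (fun v : ℝ => v⁻¹) (Ioc a b) := by
    rw [← intervalIntegrable_iff_integrableOn_Ioc_of_le hab]
    exact intervalIntegral.intervalIntegrable_inv
      (fun x hx => by
        rw [uIcc_of_le hab] at hx
        exact (lt_of_lt_of_le ha hx.1).ne') continuousOn_id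
  rw [← ofReal_integral_eq_lintegral_ofReal hi]
  · congr 1
    rw [← intervalIntegral.integral_of_le hab, integral_inv_of_pos ha hb]
  · filter_upwards [ae_restrict_mem measurableSet_Ioc] with v hv
    exact inv_nonneg.2 (ha.trans hv.1).le

lemma int_rpow_Ioi : ∫⁻ v in Ioi (1:ℝ), ENNReal.ofReal (v ^ (-(3/2) : ℝ)) = 2 := by
  have hi : IntegrableOn (fun v : ℝ => v ^ (-(3/2) : ℝ)) (Ioi 1) :=
    integrableOn_Ioi_rpow_of_lt (by norm_num) (by norm_num)
  rw [← ofReal_integral_eq_lintegral_ofReal hi]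
  · rw [integral_Ioi_rpow_of_lt (by norm_num) (by norm_num)]
    norm_num
  · filter_upwards [ae_restrict_mem measurableSet_Ioi] with v hv
    exact Real.rpow_nonneg (zero_le_one.trans (le_of_lt hv)) _

lemma int_rpow_Ioc : ∫⁻ v in Ioc (0:ℝ) 1, ENNReal.ofReal (v ^ (-(1/2) : ℝ)) = 2 := by
  have hi : IntegrableOn (fun v : ℝ => v ^ (-(1/2) : ℝ)) (Ioc 0 1) := by
    rw [← intervalIntegrable_iff_integrableOn_Ioc_of_le zero_le_one]
    exact intervalIntegral.intervalIntegrable_rpow' (by norm_num)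
  rw [← ofReal_integral_eq_lintegral_ofReal hi]
  · rw [← intervalIntegral.integral_of_le zero_le_one, integral_rpow (Or.inl (by norm_num))]
    norm_num
  · filter_upwards [ae_restrict_mem measurableSet_Ioc] with v hv
    exact Real.rpow_nonneg hv.1.le _

lemma Wt_pos {N : ℝ} (hN : 1 ≤ N) (v : ℝ) : 0 < Wt N v := by
  unfold Wt
  split_ifs with h
  · positivity
  · push Not at h
    exact Real.rpow_pos_of_pos (zero_lt_one.trans h) _

lemma Wt_neg (N v : ℝ) : Wt N (-v) = Wt N v := by unfold Wt; rw [abs_neg]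

/-- first claim -/
lemma part_one {N : ℝ} (hN : 1 ≤ N) :
    ∫⁻ v : ℝ, (ENNReal.ofReal (Wt N v))⁻¹ ≤ ENNReal.ofReal (6 * (1 + Real.log N)) := by
  have hN0 : 0 < N := by linarith
  have hlog : 0 ≤ Real.log N := Real.log_nonneg hN
  have hinv : 1 / N ≤ 1 := by rw [div_le_one hN0]; exact hN
  rw [lintegral_even _ (fun v => by rw [Wt_neg])]
  have hsplit : Ioi (0:ℝ) = Ioc 0 (1 / N) ∪ (Ioc (1 / N) 1 ∪ Ioi 1) := by
    rw [Ioc_union_Ioi_eq_Ioi hinv, Ioc_union_Ioi_eq_Ioi (by positivity)]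
  have e1 : ∫⁻ v in Ioc (0:ℝ) (1 / N), (ENNReal.ofReal (Wt N v))⁻¹ ≤ ENNReal.ofReal 1 := by
    calc ∫⁻ v in Ioc (0:ℝ) (1 / N), (ENNReal.ofReal (Wt N v))⁻¹
        ≤ ∫⁻ v in Ioc (0:ℝ) (1 / N), ENNReal.ofReal N := by
          refine setLIntegral_mono measurable_const fun v hv => ?_
          rw [← ENNReal.ofReal_inv_of_pos (Wt_pos hN v)]
          apply ENNReal.ofReal_le_ofReal
          have : 1 / N ≤ Wt N v := by
            unfold Wt
            rw [abs_of_pos hv.1, if_pos (hv.2.trans hinv)]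
            linarith [hv.1]
          calc (Wt N v)⁻¹ ≤ (1 / N)⁻¹ := inv_anti₀ (by positivity) this
            _ = N := by simp
      _ = ENNReal.ofReal 1 := by
          rw [setLIntegral_const, Real.volume_Ioc, ← ENNReal.ofReal_mul hN0.le]
          congr 1; field_simp; ring
  have e2 : ∫⁻ v in Ioc (1 / N) (1:ℝ), (ENNReal.ofReal (Wt N v))⁻¹ ≤
      ENNReal.ofReal (Real.log N) := by
    calc ∫⁻ v in Ioc (1 / N) (1:ℝ), (ENNReal.ofReal (Wt N v))⁻¹
        ≤ ∫⁻ v in Ioc (1 / N) (1:ℝ), ENNReal.ofReal (v⁻¹) := by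
          refine setLIntegral_mono (by fun_prop) fun v hv => ?_
          have hv0 : 0 < v := lt_trans (by positivity) hv.1
          rw [← ENNReal.ofReal_inv_of_pos (Wt_pos hN v)]
          apply ENNReal.ofReal_le_ofReal
          apply inv_anti₀ hv0
          unfold Wt
          rw [abs_of_pos hv0, if_pos hv.2]
          have : 0 < 1 / N := by positivity
          linarith
      _ = ENNReal.ofReal (Real.log N) := by
          rw [int_inv (by positivity) hinv]; congr 2; simp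
  have e3 : ∫⁻ v in Ioi (1:ℝ), (ENNReal.ofReal (Wt N v))⁻¹ ≤ ENNReal.ofReal 2 := by
    calc ∫⁻ v in Ioi (1:ℝ), (ENNReal.ofReal (Wt N v))⁻¹
        ≤ ∫⁻ v in Ioi (1:ℝ), ENNReal.ofReal (v ^ (-(3/2) : ℝ)) := by
          refine setLIntegral_mono (by fun_prop) fun v hv => ?_
          have hv' : (1:ℝ) < v := hv
          have hv0 : 0 < v := lt_trans one_pos hv'
          rw [← ENNReal.ofReal_inv_of_pos (Wt_pos hN v)]
          apply ENNReal.ofReal_le_ofReal
          unfold Wt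
          rw [abs_of_pos hv0, if_neg (not_le.2 hv'), Real.rpow_neg hv0.le]
      _ = ENNReal.ofReal 2 := by rw [int_rpow_Ioi]; simp
  calc 2 * ∫⁻ v in Ioi (0:ℝ), (ENNReal.ofReal (Wt N v))⁻¹
      ≤ 2 * (ENNReal.ofReal 1 + (ENNReal.ofReal (Real.log N) + ENNReal.ofReal 2)) := by
        gcongr
        rw [hsplit]
        refine (lintegral_union_le _ _ _).trans (add_le_add e1 ?_)
        exact (lintegral_union_le _ _ _).trans (add_le_add e2 e3)
    _ = ENNReal.ofReal (2 * (1 + (Real.log N + 2))) := by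
        rw [ENNReal.ofReal_mul (by norm_num), ENNReal.ofReal_add (by norm_num) (by positivity),
          ENNReal.ofReal_add hlog (by norm_num)]
        simp
    _ ≤ ENNReal.ofReal (6 * (1 + Real.log N)) := by
        apply ENNReal.ofReal_le_ofReal; linarith

/-- Plancherel for differences -/
lemma planch_diff (F : ℝ → ℂ) (h1 : Integrable F) (h2 : MemLp F 2) (τ : ℝ) :
    ∫⁻ ξ, ‖F (ξ + τ) - F ξ‖ₑ ^ 2 = ∫⁻ v, ‖e (τ * v) - 1‖ₑ ^ 2 * ‖ft F v‖ₑ ^ 2 := by
  have h1' : Integrable (fun y => F (y + τ)) := h1.comp_add_right τ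
  have h2' : MemLp (fun y => F (y + τ)) 2 :=
    h2.comp_measurePreserving (measurePreserving_add_right volume τ)
  rw [← ft_planch (fun y => F (y + τ) - F y) (h1'.sub h1) (h2'.sub h2)]
  refine lintegral_congr fun v => ?_
  have hb : ∀ G : ℝ → ℂ, Integrable G → Integrable (fun x => e (-(x * v)) * G x) := by
    intro G hG
    refine hG.bdd_mul (c := 1) ?_ ?_
    · have : Continuous fun x : ℝ => e (-(x * v)) := continuous_e.comp (by fun_prop)
      exact this.aestronglyMeasurable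
    · exact Filter.Eventually.of_forall fun x => (norm_e _).le
  have h3 : ft (fun y => F (y + τ)) v = e (τ * v) * ft F v := by
    unfold ft
    rw [← integral_const_mul,
      ← integral_add_right_eq_self (fun x : ℝ => e (τ * v) * (e (-(x * v)) * F x)) τ]
    refine integral_congr_ae (Filter.Eventually.of_forall fun x => ?_)
    simp only
    rw [← mul_assoc, ← e_add]
    congr 2
    ring
  have h4 : ft (fun y => F (y + τ) - F y) v = (e (τ * v) - 1) * ft F v := by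
    rw [sub_mul, one_mul, ← h3]
    unfold ft
    rw [← integral_sub (hb _ h1') (hb _ h1)]
    refine integral_congr_ae (Filter.Eventually.of_forall fun x => ?_)
    simp only
    ring
  rw [h4, enorm_mul, mul_pow]

/-- lower bound of an integral over the good scales -/
lemma scale_lower {S : Set ℝ} {w : ℝ → ℝ≥0∞} {v c : ℝ} (hv : 0 < |v|)
    (hS : Icc (1 / (4 * |v|)) (3 / (4 * |v|)) ⊆ S)
    (hw : ∀ τ ∈ Icc (1 / (4 * |v|)) (3 / (4 * |v|)), ENNReal.ofReal c ≤ w τ) (hc : 0 ≤ c) :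
    ENNReal.ofReal (c / |v|) ≤ ∫⁻ τ in S, ‖e (τ * v) - 1‖ₑ ^ 2 * w τ := by
  calc ENNReal.ofReal (c / |v|) = ∫⁻ τ in Icc (1 / (4 * |v|)) (3 / (4 * |v|)),
        2 * ENNReal.ofReal c := by
        rw [setLIntegral_const, Real.volume_Icc]
        have h2 : (2:ℝ≥0∞) = ENNReal.ofReal 2 := by simp
        rw [h2, ← ENNReal.ofReal_mul (by norm_num), ← ENNReal.ofReal_mul (by positivity)]
        congr 1
        field_simp
        ring
    _ ≤ ∫⁻ τ in Icc (1 / (4 * |v|)) (3 / (4 * |v|)), ‖e (τ * v) - 1‖ₑ ^ 2 * w τ := by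
        refine setLIntegral_mono' measurableSet_Icc fun τ hτ => ?_
        refine mul_le_mul' ?_ (hw τ hτ)
        have hτ0 : 0 < τ := lt_of_lt_of_le (by positivity) hτ.1
        apply two_le_e
        · rw [abs_mul, abs_of_pos hτ0]
          have := hτ.1
          rw [div_le_iff₀ (by positivity)] at this
          linarith
        · rw [abs_mul, abs_of_pos hτ0]
          have := hτ.2
          rw [le_div_iff₀ (by positivity)] at this
          linarith
    _ ≤ _ := lintegral_mono_set hS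

/-- pointwise bound of the weight -/
lemma Wt_le {N : ℝ} (hN : 1 ≤ N) (v : ℝ) : ENNReal.ofReal (Wt N v) ≤
    ENNReal.ofReal (2 / N) +
      (ENNReal.ofReal (9 / 8) * (∫⁻ τ in Icc (1 / 4) N, ‖e (τ * v) - 1‖ₑ ^ 2 *
          ENNReal.ofReal ((τ ^ 2)⁻¹)) +
        ∫⁻ τ in Ioc 0 1, ‖e (τ * v) - 1‖ₑ ^ 2 * ENNReal.ofReal (τ ^ (-(5/2) : ℝ))) := by
  have hN0 : 0 < N := by linarith
  rcases le_or_gt |v| (1 / N) with h | h
  · refine le_trans ?_ le_self_add
    apply ENNReal.ofReal_le_ofReal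
    have hinv : 1 / N ≤ 1 := by rw [div_le_one hN0]; exact hN
    unfold Wt
    rw [if_pos (h.trans hinv)]
    have : 2 / N = 1 / N + 1 / N := by ring
    linarith
  · have hv : 0 < |v| := lt_trans (by positivity) h
    refine le_trans ?_ le_add_self
    rcases le_or_gt |v| 1 with h1 | h1
    · refine le_trans ?_ le_self_add
      have hk := scale_lower (S := Icc (1 / 4) N) (w := fun τ => ENNReal.ofReal ((τ ^ 2)⁻¹))
        (v := v) (c := 16 / 9 * |v| ^ 2) hv ?_ ?_ (by positivity)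
      · calc ENNReal.ofReal (Wt N v) ≤ ENNReal.ofReal (9 / 8) *
              ENNReal.ofReal (16 / 9 * |v| ^ 2 / |v|) := by
              rw [← ENNReal.ofReal_mul (by norm_num)]
              apply ENNReal.ofReal_le_ofReal
              unfold Wt
              rw [if_pos h1]
              have : 9 / 8 * (16 / 9 * |v| ^ 2 / |v|) = 2 * |v| := by
                field_simp; norm_num
              rw [this]; linarith
          _ ≤ _ := by gcongr
      · intro τ hτ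
        refine ⟨le_trans ?_ hτ.1, hτ.2.trans ?_⟩
        · apply one_div_le_one_div_of_le (by positivity); linarith
        · rw [div_le_iff₀ (by positivity)]
          have : 1 < N * |v| := by rw [div_lt_iff₀ hN0] at h; linarith
          nlinarith
      · intro τ hτ
        apply ENNReal.ofReal_le_ofReal
        have hτ0 : 0 < τ := lt_of_lt_of_le (by positivity) hτ.1
        have h3 : τ * |v| ≤ 3 / 4 := by
          have := hτ.2
          rw [le_div_iff₀ (by positivity)] at this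
          linarith
        rw [le_inv_comm₀ (by positivity) (by positivity)]
        rw [← one_div, le_div_iff₀ (by positivity)]
        nlinarith [mul_pos hτ0 hv]
    · refine le_trans ?_ le_add_self
      have hk := scale_lower (S := Ioc 0 1) (w := fun τ => ENNReal.ofReal (τ ^ (-(5/2) : ℝ)))
        (v := v) (c := |v| ^ (5 / 2 : ℝ)) hv ?_ ?_ (by positivity)
      · refine le_trans ?_ hk
        apply ENNReal.ofReal_le_ofReal
        unfold Wt
        rw [if_neg (not_le.2 h1)]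
        rw [le_div_iff₀ hv]
        have : |v| ^ (3 / 2 : ℝ) * |v| = |v| ^ (5 / 2 : ℝ) := by
          rw [← Real.rpow_add_one hv.ne']; norm_num
        exact this.le
      · intro τ hτ
        refine ⟨lt_of_lt_of_le (by positivity) hτ.1, hτ.2.trans ?_⟩
        rw [div_le_one (by positivity)]; linarith
      · intro τ hτ
        apply ENNReal.ofReal_le_ofReal
        have hτ0 : 0 < τ := lt_of_lt_of_le (by positivity) hτ.1
        have h3 : τ ≤ |v|⁻¹ := by
          refine hτ.2.trans ?_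
          rw [← one_div, div_le_div_iff₀ (by positivity) hv]
          nlinarith
        calc |v| ^ (5 / 2 : ℝ) = (|v|⁻¹) ^ (-(5 / 2) : ℝ) := by
              rw [Real.rpow_neg (by positivity), Real.inv_rpow hv.le, inv_inv]
          _ ≤ τ ^ (-(5/2) : ℝ) := by
              rw [Real.rpow_neg (by positivity), Real.rpow_neg hτ0.le]
              exact inv_anti₀ (Real.rpow_pos_of_pos hτ0 _)
                (Real.rpow_le_rpow hτ0.le h3 (by norm_num))

lemma measurable_ee (p : ℝ × ℝ → ℝ) (hp : Continuous p) :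
    Measurable (fun x : ℝ × ℝ => ‖e (p x) - 1‖ₑ ^ 2) := by
  have : Continuous fun x : ℝ × ℝ => e (p x) - 1 := (continuous_e.comp hp).sub continuous_const
  exact this.measurable.enorm.pow_const 2

/-- Tonelli -/
lemma tonelli (F : ℝ → ℂ) (h1 : Integrable F) (h2 : MemLp F 2) (S : Set ℝ) (w : ℝ → ℝ≥0∞)
    (hw : Measurable w) :
    ∫⁻ v, (∫⁻ τ in S, ‖e (τ * v) - 1‖ₑ ^ 2 * w τ) * ‖ft F v‖ₑ ^ 2 =
      ∫⁻ τ in S, w τ * (∫⁻ ξ : ℝ, ‖F (ξ + τ) - F ξ‖ₑ ^ 2) := by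
  have hft : Measurable (fun v => ‖ft F v‖ₑ ^ 2) :=
    (continuous_ft h1).measurable.enorm.pow_const 2
  have hw' : Measurable (fun x : ℝ × ℝ => w x.2) := hw.comp measurable_snd
  have hft' : Measurable (fun x : ℝ × ℝ => ‖ft F x.1‖ₑ ^ 2) := hft.comp measurable_fst
  have hm : Measurable (fun x : ℝ × ℝ => ‖e (x.2 * x.1) - 1‖ₑ ^ 2 * w x.2 * ‖ft F x.1‖ₑ ^ 2) :=
    ((measurable_ee (fun x => x.2 * x.1) (by fun_prop)).mul hw').mul hft'
  have he : ∀ v, Measurable fun τ : ℝ => ‖e (τ * v) - 1‖ₑ ^ 2 := by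
    intro v
    have : Continuous fun τ : ℝ => e (τ * v) - 1 :=
      (continuous_e.comp (continuous_id.mul continuous_const)).sub continuous_const
    exact this.measurable.enorm.pow_const 2
  have he' : ∀ τ, Measurable fun v : ℝ => ‖e (τ * v) - 1‖ₑ ^ 2 := by
    intro τ
    have : Continuous fun v : ℝ => e (τ * v) - 1 :=
      (continuous_e.comp (continuous_const.mul continuous_id)).sub continuous_const
    exact this.measurable.enorm.pow_const 2
  have s1 : ∀ v, (∫⁻ τ in S, ‖e (τ * v) - 1‖ₑ ^ 2 * w τ) * ‖ft F v‖ₑ ^ 2 =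
      ∫⁻ τ in S, ‖e (τ * v) - 1‖ₑ ^ 2 * w τ * ‖ft F v‖ₑ ^ 2 := by
    intro v
    exact (lintegral_mul_const _ ((he v).mul hw)).symm
  have s2 : ∀ τ, ∫⁻ v, ‖e (τ * v) - 1‖ₑ ^ 2 * w τ * ‖ft F v‖ₑ ^ 2 =
      w τ * (∫⁻ ξ : ℝ, ‖F (ξ + τ) - F ξ‖ₑ ^ 2) := by
    intro τ
    have hmm : Measurable fun v : ℝ => ‖e (τ * v) - 1‖ₑ ^ 2 * ‖ft F v‖ₑ ^ 2 := (he' τ).mul hft
    rw [planch_diff F h1 h2 τ, ← lintegral_const_mul _ hmm]
    refine lintegral_congr fun v => ?_
    ring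
  rw [lintegral_congr s1]
  rw [lintegral_lintegral_swap (μ := volume) (ν := volume.restrict S)
    (f := fun v τ => ‖e (τ * v) - 1‖ₑ ^ 2 * w τ * ‖ft F v‖ₑ ^ 2) hm.aemeasurable]
  exact lintegral_congr fun τ => s2 τ

/-- second claim -/
lemma part_two {N : ℝ} (hN : 1 ≤ N) (F : ℝ → ℂ) (A : ℝ≥0∞) (h1 : Integrable F)
    (h2 : MemLp F 2) (hA : ∫⁻ ξ : ℝ, ‖F ξ‖ₑ ^ 2 ≤ ENNReal.ofReal N * A)
    (hτ1 : ∀ τ : ℝ, 0 < τ → ∫⁻ ξ : ℝ, ‖F (ξ + τ) - F ξ‖ₑ ^ 2 ≤ ENNReal.ofReal τ * A)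
    (hτ2 : ∀ τ : ℝ, 0 < τ → τ ≤ 1 →
      ∫⁻ ξ : ℝ, ‖F (ξ + τ) - F ξ‖ₑ ^ 2 ≤ ENNReal.ofReal (τ ^ 2) * A) :
    ∫⁻ v : ℝ, ENNReal.ofReal (Wt N v) * ‖ft F v‖ₑ ^ 2 ≤
      ENNReal.ofReal (6 * (1 + Real.log N)) * A := by
  have hN0 : 0 < N := by linarith
  have hlog : 0 ≤ Real.log N := Real.log_nonneg hN
  have hft : Measurable (fun v => ‖ft F v‖ₑ ^ 2) :=
    (continuous_ft h1).measurable.enorm.pow_const 2
  obtain ⟨w1, hw1⟩ : ∃ w1 : ℝ → ℝ≥0∞, w1 = fun τ => ENNReal.ofReal ((τ ^ 2)⁻¹) := ⟨_, rfl⟩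
  obtain ⟨w2, hw2⟩ : ∃ w2 : ℝ → ℝ≥0∞, w2 = fun τ => ENNReal.ofReal (τ ^ (-(5/2) : ℝ)) := ⟨_, rfl⟩
  have mw1 : Measurable w1 := by rw [hw1]; fun_prop
  have mw2 : Measurable w2 := by rw [hw2]; fun_prop
  obtain ⟨I1, hI1⟩ : ∃ I1 : ℝ → ℝ≥0∞,
      I1 = fun v => ∫⁻ τ in Icc (1 / 4) N, ‖e (τ * v) - 1‖ₑ ^ 2 * w1 τ := ⟨_, rfl⟩
  obtain ⟨I2, hI2⟩ : ∃ I2 : ℝ → ℝ≥0∞,
      I2 = fun v => ∫⁻ τ in Ioc 0 1, ‖e (τ * v) - 1‖ₑ ^ 2 * w2 τ := ⟨_, rfl⟩
  have mI : ∀ (S : Set ℝ) (w : ℝ → ℝ≥0∞), Measurable w →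
      Measurable fun v => ∫⁻ τ in S, ‖e (τ * v) - 1‖ₑ ^ 2 * w τ := by
    intro S w hw
    have : Measurable (fun x : ℝ × ℝ => ‖e (x.2 * x.1) - 1‖ₑ ^ 2 * w x.2) :=
      (measurable_ee (fun x => x.2 * x.1) (by fun_prop)).mul (hw.comp measurable_snd)
    exact this.lintegral_prod_right'
  have mI1 : Measurable I1 := by rw [hI1]; exact mI _ _ mw1
  have mI2 : Measurable I2 := by rw [hI2]; exact mI _ _ mw2
  have hpt : ∀ v, ENNReal.ofReal (Wt N v) * ‖ft F v‖ₑ ^ 2 ≤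
      ENNReal.ofReal (2 / N) * ‖ft F v‖ₑ ^ 2 +
        (ENNReal.ofReal (9 / 8) * (I1 v * ‖ft F v‖ₑ ^ 2) + I2 v * ‖ft F v‖ₑ ^ 2) := by
    intro v
    have h := Wt_le hN v
    have h' : ENNReal.ofReal (Wt N v) ≤
        ENNReal.ofReal (2 / N) + (ENNReal.ofReal (9 / 8) * I1 v + I2 v) := by
      rw [hI1, hI2, hw1, hw2]; exact h
    calc ENNReal.ofReal (Wt N v) * ‖ft F v‖ₑ ^ 2
        ≤ (ENNReal.ofReal (2 / N) + (ENNReal.ofReal (9 / 8) * I1 v + I2 v)) * ‖ft F v‖ₑ ^ 2 :=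
          mul_le_mul' h' le_rfl
      _ = _ := by ring
  have b0 : ∫⁻ v, ENNReal.ofReal (2 / N) * ‖ft F v‖ₑ ^ 2 ≤ ENNReal.ofReal 2 * A := by
    rw [lintegral_const_mul _ hft, ft_planch F h1 h2]
    calc ENNReal.ofReal (2 / N) * (∫⁻ ξ : ℝ, ‖F ξ‖ₑ ^ 2)
        ≤ ENNReal.ofReal (2 / N) * (ENNReal.ofReal N * A) := mul_le_mul' le_rfl hA
      _ = ENNReal.ofReal 2 * A := by
        rw [← mul_assoc, ← ENNReal.ofReal_mul (by positivity)]
        congr 2; field_simp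
  have b1 : ∫⁻ v, I1 v * ‖ft F v‖ₑ ^ 2 ≤ ENNReal.ofReal (Real.log (4 * N)) * A := by
    have : ∫⁻ v, I1 v * ‖ft F v‖ₑ ^ 2 =
        ∫⁻ τ in Icc (1 / 4) N, w1 τ * (∫⁻ ξ : ℝ, ‖F (ξ + τ) - F ξ‖ₑ ^ 2) := by
      rw [hI1]; exact tonelli F h1 h2 _ _ mw1
    rw [this]
    calc ∫⁻ τ in Icc (1 / 4) N, w1 τ * (∫⁻ ξ : ℝ, ‖F (ξ + τ) - F ξ‖ₑ ^ 2)
        ≤ ∫⁻ τ in Icc (1 / 4) N, ENNReal.ofReal (τ⁻¹) * A := by
          refine setLIntegral_mono' measurableSet_Icc fun τ hτ => ?_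
          have hτ0 : 0 < τ := lt_of_lt_of_le (by norm_num) hτ.1
          calc w1 τ * (∫⁻ ξ : ℝ, ‖F (ξ + τ) - F ξ‖ₑ ^ 2)
              ≤ w1 τ * (ENNReal.ofReal τ * A) := mul_le_mul' le_rfl (hτ1 τ hτ0)
            _ = ENNReal.ofReal (τ⁻¹) * A := by
              rw [hw1]
              simp only
              rw [← mul_assoc, ← ENNReal.ofReal_mul (by positivity)]
              congr 2; field_simp
      _ = (∫⁻ τ in Icc (1 / 4) N, ENNReal.ofReal (τ⁻¹)) * A :=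
          lintegral_mul_const _ (by fun_prop)
      _ = ENNReal.ofReal (Real.log (4 * N)) * A := by
          rw [setLIntegral_congr (Ioc_ae_eq_Icc (μ := volume)).symm,
            int_inv (by norm_num) (by linarith)]
          congr 3; ring
  have b2 : ∫⁻ v, I2 v * ‖ft F v‖ₑ ^ 2 ≤ ENNReal.ofReal 2 * A := by
    have : ∫⁻ v, I2 v * ‖ft F v‖ₑ ^ 2 =
        ∫⁻ τ in Ioc 0 1, w2 τ * (∫⁻ ξ : ℝ, ‖F (ξ + τ) - F ξ‖ₑ ^ 2) := by
      rw [hI2]; exact tonelli F h1 h2 _ _ mw2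
    rw [this]
    calc ∫⁻ τ in Ioc 0 1, w2 τ * (∫⁻ ξ : ℝ, ‖F (ξ + τ) - F ξ‖ₑ ^ 2)
        ≤ ∫⁻ τ in Ioc (0:ℝ) 1, ENNReal.ofReal (τ ^ (-(1/2) : ℝ)) * A := by
          refine setLIntegral_mono' measurableSet_Ioc fun τ hτ => ?_
          have hτ0 : 0 < τ := hτ.1
          calc w2 τ * (∫⁻ ξ : ℝ, ‖F (ξ + τ) - F ξ‖ₑ ^ 2)
              ≤ w2 τ * (ENNReal.ofReal (τ ^ 2) * A) := mul_le_mul' le_rfl (hτ2 τ hτ0 hτ.2)
            _ = ENNReal.ofReal (τ ^ (-(1/2) : ℝ)) * A := by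
              rw [hw2]
              simp only
              rw [← mul_assoc, ← ENNReal.ofReal_mul (by positivity)]
              congr 2
              rw [← Real.rpow_natCast τ 2, ← Real.rpow_add hτ0]
              norm_num
      _ = (∫⁻ τ in Ioc (0:ℝ) 1, ENNReal.ofReal (τ ^ (-(1/2) : ℝ))) * A :=
          lintegral_mul_const _ (by fun_prop)
      _ = ENNReal.ofReal 2 * A := by rw [int_rpow_Ioc]; simp
  have hlog4 : Real.log (4 * N) ≤ 3 / 2 + Real.log N := by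
    rw [Real.log_mul (by norm_num) hN0.ne']
    have : Real.log 4 = 2 * Real.log 2 := by
      rw [show (4:ℝ) = 2 ^ 2 by norm_num, Real.log_pow]; norm_num
    have h2' := Real.log_two_lt_d9
    linarith
  have hlog4' : 0 ≤ Real.log (4 * N) := Real.log_nonneg (by linarith)
  calc ∫⁻ v : ℝ, ENNReal.ofReal (Wt N v) * ‖ft F v‖ₑ ^ 2
      ≤ ∫⁻ v : ℝ, (ENNReal.ofReal (2 / N) * ‖ft F v‖ₑ ^ 2 +
        (ENNReal.ofReal (9 / 8) * (I1 v * ‖ft F v‖ₑ ^ 2) + I2 v * ‖ft F v‖ₑ ^ 2)) :=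
        lintegral_mono hpt
    _ = (∫⁻ v : ℝ, ENNReal.ofReal (2 / N) * ‖ft F v‖ₑ ^ 2) +
        (ENNReal.ofReal (9 / 8) * (∫⁻ v : ℝ, I1 v * ‖ft F v‖ₑ ^ 2) +
          ∫⁻ v : ℝ, I2 v * ‖ft F v‖ₑ ^ 2) := by
        have m1 : Measurable fun v => I1 v * ‖ft F v‖ₑ ^ 2 := mI1.mul hft
        have m2 : Measurable fun v => ENNReal.ofReal (9 / 8) * (I1 v * ‖ft F v‖ₑ ^ 2) :=
          m1.const_mul _
        rw [lintegral_add_left (hft.const_mul _), lintegral_add_left m2,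
          lintegral_const_mul _ m1]
    _ ≤ ENNReal.ofReal 2 * A + (ENNReal.ofReal (9 / 8) * (ENNReal.ofReal (Real.log (4 * N)) * A) +
          ENNReal.ofReal 2 * A) := by gcongr
    _ = ENNReal.ofReal (2 + (9 / 8 * Real.log (4 * N) + 2)) * A := by
        rw [ENNReal.ofReal_add (by norm_num) (by positivity),
          ENNReal.ofReal_add (by positivity) (by norm_num), ENNReal.ofReal_mul (by norm_num)]
        ring
    _ ≤ ENNReal.ofReal (6 * (1 + Real.log N)) * A := by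
        gcongr
        linarith

theorem w_thm : S_W := by
  refine ⟨6, by norm_num, fun N hN => ⟨part_one hN, ?_⟩⟩
  intro F A _ h1 h2 hA hτ1 hτ2
  exact part_two hN F A h1 h2 hA hτ1 hτ2

end Pool.Agent.TH889.W
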