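import Pool.Agent.TH239.FF.Gen

set_option autoImplicit false

namespace Pool.Agent.TH889.J943

open Pool.Agent.TH239.FF
open Set Filter Topology MeasureTheory

/-- Cauchy product with a shift -/
theorem conv {f g : ℕ → ℝ} {A B : ℝ} (hf : HasSum f A) (hg : HasSum g B)
    (hf' : Summable fun n => ‖f n‖) (hg' : Summable fun n => ‖g n‖) :
    HasSum (fun n : ℕ => ∑ i ∈ Finset.range n, f i * g (n - 1 - i)) (A * B) := by
  have h1 : Summable fun n : ℕ => ∑ k ∈ Finset.range (n + 1), f k * g (n - k) :=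
    (summable_norm_sum_mul_range_of_summable_norm hf' hg').of_norm
  have h2 := tsum_mul_tsum_eq_tsum_sum_range_of_summable_norm hf' hg'
  have h3 : HasSum (fun n : ℕ => ∑ k ∈ Finset.range (n + 1), f k * g (n - k)) (A * B) := by
    rw [← hf.tsum_eq, ← hg.tsum_eq, h2]
    exact h1.hasSum
  rw [← hasSum_nat_add_iff' 1]
  simpa using h3

/-- the terms of the moments -/
noncomputable def FF (c : ℕ → ℝ → ℝ) (t x : ℝ) (j n : ℕ) : ℝ :=
  ((n : ℝ) + 1) ^ j * c n t * Real.exp (-((n : ℝ) + 1) * x)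

theorem FF_nonneg {c : ℕ → ℝ → ℝ} (h : Sol c) {t x : ℝ} (ht : 0 ≤ t) (j n : ℕ) :
    0 ≤ FF c t x j n := by
  unfold FF
  have := h.nn n t ht
  positivity

theorem FF_hasSum {c : ℕ → ℝ → ℝ} (g : Gen c) {t x : ℝ} (ht : 0 ≤ t) (hx : 0 < x) (j : ℕ) :
    HasSum (FF c t x j) (mo c j t x) := (g.su j t x ht hx).hasSum

theorem FF_norm {c : ℕ → ℝ → ℝ} (h : Sol c) (g : Gen c) {t x : ℝ} (ht : 0 ≤ t) (hx : 0 < x)
    (j : ℕ) : Summable fun n => ‖FF c t x j n‖ := by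
  refine (FF_hasSum g ht hx j).summable.congr (fun n => ?_)
  rw [Real.norm_eq_abs, abs_of_nonneg (FF_nonneg h ht j n)]

theorem FF_conv {c : ℕ → ℝ → ℝ} (h : Sol c) (g : Gen c) {t x : ℝ} (ht : 0 ≤ t) (hx : 0 < x)
    (j k : ℕ) : HasSum (fun n : ℕ => ∑ i ∈ Finset.range n, FF c t x j i * FF c t x k (n - 1 - i))
      (mo c j t x * mo c k t x) :=
  conv (FF_hasSum g ht hx j) (FF_hasSum g ht hx k) (FF_norm h g ht hx j) (FF_norm h g ht hx k)

theorem FF_mul (c : ℕ → ℝ → ℝ) (t x : ℝ) (j k : ℕ) {n i : ℕ} (hi : i < n) :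
    FF c t x j i * FF c t x k (n - 1 - i) = ((i : ℝ) + 1) ^ j * (((n : ℝ) + 1) - ((i : ℝ) + 1)) ^ k
      * (c i t * c (n - 1 - i) t) * Real.exp (-((n : ℝ) + 1) * x) := by
  have h1 : ((n - 1 - i : ℕ) : ℝ) = (n : ℝ) - 1 - i := by
    rw [Nat.sub_sub, Nat.cast_sub (by omega)]
    push_cast
    ring
  unfold FF
  have h2 : Real.exp (-((n : ℝ) + 1) * x) = Real.exp (-((i : ℝ) + 1) * x)
      * Real.exp (-(((n - 1 - i : ℕ) : ℝ) + 1) * x) := by
    rw [← Real.exp_add, h1]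
    congr 1
    ring
  rw [h2]
  have h3 : ((n : ℝ) + 1) - ((i : ℝ) + 1) = ((n - 1 - i : ℕ) : ℝ) + 1 := by
    rw [h1]
    ring
  rw [h3]
  ring

theorem dr_gen0 {c : ℕ → ℝ → ℝ} (h : Sol c) (g : Gen c) {t x : ℝ} (ht : 0 ≤ t) (hx : 0 < x) :
    HasSum (fun n : ℕ => dr c n t * Real.exp (-((n : ℝ) + 1) * x)) (-(U c t x * mo c 1 t x)) := by
  have h1 := (FF_hasSum g ht hx 1).neg.add
    (((FF_conv h g ht hx 1 0).add (FF_conv h g ht hx 0 1)).mul_left (1 / 2))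
  have h2 : -(U c t x * mo c 1 t x) = -mo c 1 t x + 1 / 2 * (mo c 1 t x * mo c 0 t x
      + mo c 0 t x * mo c 1 t x) := by
    unfold U
    ring
  rw [h2]
  refine h1.congr_fun (fun n => ?_)
  have h3 : ∑ i ∈ Finset.range n, FF c t x 1 i * FF c t x 0 (n - 1 - i) +
      ∑ i ∈ Finset.range n, FF c t x 0 i * FF c t x 1 (n - 1 - i)
      = ((n : ℝ) + 1) * (∑ i ∈ Finset.range n, c i t * c (n - 1 - i) t)
        * Real.exp (-((n : ℝ) + 1) * x) := by
    rw [← Finset.sum_add_distrib, Finset.mul_sum, Finset.sum_mul]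
    apply Finset.sum_congr rfl
    intro i hi
    rw [FF_mul c t x 1 0 (Finset.mem_range.mp hi), FF_mul c t x 0 1 (Finset.mem_range.mp hi)]
    ring
  rw [h3]
  unfold dr FF
  ring

theorem dr_gen2 {c : ℕ → ℝ → ℝ} (h : Sol c) (g : Gen c) {t x : ℝ} (ht : 0 ≤ t) (hx : 0 < x) :
    HasSum (fun n : ℕ => ((n : ℝ) + 1) ^ 2 * dr c n t * Real.exp (-((n : ℝ) + 1) * x))
      (3 * mo c 1 t x * mo c 2 t x - U c t x * mo c 3 t x) := by
  have h1 := (FF_hasSum g ht hx 3).neg.add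
    (((((FF_conv h g ht hx 3 0).add ((FF_conv h g ht hx 2 1).mul_left 3)).add
      ((FF_conv h g ht hx 1 2).mul_left 3)).add (FF_conv h g ht hx 0 3)).mul_left (1 / 2))
  have h2 : 3 * mo c 1 t x * mo c 2 t x - U c t x * mo c 3 t x
      = -mo c 3 t x + 1 / 2 * (mo c 3 t x * mo c 0 t x + 3 * (mo c 2 t x * mo c 1 t x)
        + 3 * (mo c 1 t x * mo c 2 t x) + mo c 0 t x * mo c 3 t x) := by
    unfold U
    ring
  rw [h2]
  refine h1.congr_fun (fun n => ?_)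
  have h3 : ∑ i ∈ Finset.range n, FF c t x 3 i * FF c t x 0 (n - 1 - i) +
      3 * ∑ i ∈ Finset.range n, FF c t x 2 i * FF c t x 1 (n - 1 - i) +
      3 * ∑ i ∈ Finset.range n, FF c t x 1 i * FF c t x 2 (n - 1 - i) +
      ∑ i ∈ Finset.range n, FF c t x 0 i * FF c t x 3 (n - 1 - i)
      = ((n : ℝ) + 1) ^ 3 * (∑ i ∈ Finset.range n, c i t * c (n - 1 - i) t)
        * Real.exp (-((n : ℝ) + 1) * x) := by
    rw [Finset.mul_sum, Finset.mul_sum, ← Finset.sum_add_distrib, ← Finset.sum_add_distrib,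
      ← Finset.sum_add_distrib, Finset.mul_sum, Finset.sum_mul]
    apply Finset.sum_congr rfl
    intro i hi
    rw [FF_mul c t x 3 0 (Finset.mem_range.mp hi), FF_mul c t x 0 3 (Finset.mem_range.mp hi),
      FF_mul c t x 2 1 (Finset.mem_range.mp hi), FF_mul c t x 1 2 (Finset.mem_range.mp hi)]
    ring
  rw [h3]
  unfold dr FF
  ring

/-- auxiliary, used for the mass balances -/
theorem conv_gen0 {c : ℕ → ℝ → ℝ} (h : Sol c) (g : Gen c) {t x : ℝ} (ht : 0 ≤ t) (hx : 0 ≤ x) :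
    HasSum (fun n : ℕ => (∑ i ∈ Finset.range n, c i t * c (n - 1 - i) t) * Real.exp (-((n : ℝ) + 1) * x))
      ((mo c 0 t x) ^ 2) := by
  have hs : Summable (FF c t x 0) := by
    apply Summable.of_nonneg_of_le (FF_nonneg h ht 0) _ (h.sm t ht).summable
    intro n
    unfold FF
    rw [pow_zero, one_mul]
    have h1 := h.nn n t ht
    have h2 : Real.exp (-((n : ℝ) + 1) * x) ≤ 1 := by
      rw [Real.exp_le_one_iff]
      have : (0:ℝ) ≤ (n : ℝ) + 1 := by positivity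
      nlinarith
    nlinarith
  have h1 : HasSum (FF c t x 0) (mo c 0 t x) := hs.hasSum
  have hn : Summable fun n => ‖FF c t x 0 n‖ := by
    refine hs.congr (fun n => ?_)
    rw [Real.norm_eq_abs, abs_of_nonneg (FF_nonneg h ht 0 n)]
  have h2 := conv h1 h1 hn hn
  rw [pow_two]
  refine h2.congr_fun (fun n => ?_)
  rw [Finset.sum_mul]
  apply Finset.sum_congr rfl
  intro i hi
  rw [FF_mul c t x 0 0 (Finset.mem_range.mp hi)]
  ring

end Pool.Agent.TH889.J943
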