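import Pool.Agent.TH239.FF.Gen

set_option autoImplicit false

namespace Pool.Agent.TH889.J944

open Pool.Agent.TH239.FF
open Set Filter Topology MeasureTheory

theorem sum_pow_exp (k : ℕ) {a : ℝ} (ha : 0 < a) :
    Summable (fun n : ℕ => ((n : ℝ) + 1) ^ k * Real.exp (-((n : ℝ) + 1) * a)) := by
  have h := Real.summable_pow_mul_exp_neg_nat_mul k ha
  have h2 := (summable_nat_add_iff 1).mpr h
  refine h2.congr (fun n => ?_)
  push_cast
  congr 2
  ring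

theorem mo_hasSum {c : ℕ → ℝ → ℝ} (g : Gen c) (j : ℕ) {t x : ℝ} (ht : 0 ≤ t) (hx : 0 < x) :
    HasSum (fun n : ℕ => ((n : ℝ) + 1) ^ j * c n t * Real.exp (-((n : ℝ) + 1) * x))
      (mo c j t x) := (g.su j t x ht hx).hasSum

theorem exp_mono' (n : ℕ) {a x : ℝ} (h : a ≤ x) :
    Real.exp (-((n : ℝ) + 1) * x) ≤ Real.exp (-((n : ℝ) + 1) * a) := by
  apply Real.exp_le_exp.mpr
  have : (0 : ℝ) ≤ (n : ℝ) + 1 := by positivity
  nlinarith

theorem U_lip {c : ℕ → ℝ → ℝ} (h : Sol c) (b : Bas c) (g : Gen c) {a : ℝ} (ha : 0 < a) :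
    ∃ C : ℝ, 0 ≤ C ∧ ∀ s t x : ℝ, 0 ≤ s → s ≤ t → a ≤ x →
      |U c t x - U c s x| ≤ C * ((t - s) + (Ph c t - Ph c s)) := by
  refine ⟨∑' n : ℕ, ((n : ℝ) + 1) ^ 1 * Real.exp (-((n : ℝ) + 1) * a),
    tsum_nonneg (fun n => by positivity), ?_⟩
  intro s t x hs hst hax
  have ht : 0 ≤ t := hs.trans hst
  have hx : 0 < x := ha.trans_le hax
  have h1 := (mo_hasSum g 0 ht hx).sub (mo_hasSum g 0 hs hx)
  have hP : 0 ≤ (t - s) + (Ph c t - Ph c s) := by
    have := b.pm s t hs hst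
    linarith
  have h2 : ‖mo c 0 t x - mo c 0 s x‖ ≤
      (∑' n : ℕ, ((n : ℝ) + 1) ^ 1 * Real.exp (-((n : ℝ) + 1) * a)) *
        ((t - s) + (Ph c t - Ph c s)) := by
    rw [← h1.tsum_eq]
    apply tsum_of_norm_bounded ((sum_pow_exp 1 ha).hasSum.mul_right _)
    intro n
    have h3 := b.lip n s t hs hst
    have h4 := exp_mono' n hax
    have h5 := Real.exp_pos (-((n : ℝ) + 1) * x)
    have h6 : (0:ℝ) ≤ (n : ℝ) + 1 := by positivity
    have h7 : ((n : ℝ) + 1) ^ 0 * c n t * Real.exp (-((n : ℝ) + 1) * x)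
        - ((n : ℝ) + 1) ^ 0 * c n s * Real.exp (-((n : ℝ) + 1) * x)
        = (c n t - c n s) * Real.exp (-((n : ℝ) + 1) * x) := by ring
    rw [h7, Real.norm_eq_abs, abs_mul, abs_of_pos h5]
    calc |c n t - c n s| * Real.exp (-((n : ℝ) + 1) * x)
        ≤ (((n : ℝ) + 1) * ((t - s) + (Ph c t - Ph c s))) * Real.exp (-((n : ℝ) + 1) * a) :=
          mul_le_mul h3 h4 h5.le (mul_nonneg h6 hP)
      _ = _ := by ring
  have h8 : U c t x - U c s x = -(mo c 0 t x - mo c 0 s x) := by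
    unfold U
    ring
  rw [h8, abs_neg]
  exact h2

theorem expand {c : ℕ → ℝ → ℝ} (b : Bas c) (g : Gen c) (j : ℕ) {a : ℝ} (ha : 0 < a) {s t x S : ℝ}
    (hs : 0 ≤ s) (hst : s ≤ t) (hax : a ≤ x)
    (hS : HasSum (fun n : ℕ => ((n : ℝ) + 1) ^ j * dr c n t * Real.exp (-((n : ℝ) + 1) * x)) S) :
    |mo c j t x - mo c j s x - (t - s) * S - Real.exp (-x) * (Ph c t - Ph c s)|
      ≤ (∑' n : ℕ, 2 * (((n : ℝ) + 1) ^ (j + 2) * Real.exp (-((n : ℝ) + 1) * a))) *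
        ((t - s) * ((t - s) + (Ph c t - Ph c s))) := by
  have ht : 0 ≤ t := hs.trans hst
  have hx : 0 < x := ha.trans_le hax
  have hP : 0 ≤ (t - s) * ((t - s) + (Ph c t - Ph c s)) := by
    have := b.pm s t hs hst
    apply mul_nonneg <;> linarith
  have h0 : HasSum (fun n : ℕ => if n = 0 then Real.exp (-x) * (Ph c t - Ph c s) else 0)
      (Real.exp (-x) * (Ph c t - Ph c s)) := hasSum_ite_eq 0 _
  have h1 := (((mo_hasSum g j ht hx).sub (mo_hasSum g j hs hx)).sub (hS.mul_left (t - s))).sub h0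
  rw [← h1.tsum_eq, ← Real.norm_eq_abs]
  apply tsum_of_norm_bounded (((sum_pow_exp (j + 2) ha).mul_left 2).hasSum.mul_right _)
  intro n
  have h3 := b.exp n s t hs hst
  have h4 := exp_mono' n hax
  have h5 := Real.exp_pos (-((n : ℝ) + 1) * x)
  have h6 : (0:ℝ) ≤ (n : ℝ) + 1 := by positivity
  have h7 : ((n : ℝ) + 1) ^ j * c n t * Real.exp (-((n : ℝ) + 1) * x)
        - ((n : ℝ) + 1) ^ j * c n s * Real.exp (-((n : ℝ) + 1) * x)
        - (t - s) * (((n : ℝ) + 1) ^ j * dr c n t * Real.exp (-((n : ℝ) + 1) * x))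
        - (if n = 0 then Real.exp (-x) * (Ph c t - Ph c s) else 0)
      = (((n : ℝ) + 1) ^ j * Real.exp (-((n : ℝ) + 1) * x)) *
        (c n t - c n s - (t - s) * dr c n t - (if n = 0 then Ph c t - Ph c s else 0)) := by
    split_ifs with hn
    · subst hn
      simp
      ring
    · ring
  rw [h7, Real.norm_eq_abs, abs_mul, abs_of_nonneg (by positivity)]
  calc (((n : ℝ) + 1) ^ j * Real.exp (-((n : ℝ) + 1) * x)) *
        |c n t - c n s - (t - s) * dr c n t - (if n = 0 then Ph c t - Ph c s else 0)|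
      ≤ (((n : ℝ) + 1) ^ j * Real.exp (-((n : ℝ) + 1) * a)) *
        (2 * ((n : ℝ) + 1) ^ 2 * ((t - s) * ((t - s) + (Ph c t - Ph c s)))) := by
        apply mul_le_mul _ h3 (abs_nonneg _) (by positivity)
        exact mul_le_mul_of_nonneg_left h4 (by positivity)
    _ = _ := by ring

theorem U_expand {c : ℕ → ℝ → ℝ} (h : Sol c) (b : Bas c) (g : Gen c)
    (hd : ∀ t x : ℝ, 0 ≤ t → 0 < x →
      HasSum (fun n : ℕ => dr c n t * Real.exp (-((n : ℝ) + 1) * x)) (-(U c t x * mo c 1 t x)))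
    {a : ℝ} (ha : 0 < a) :
    ∃ C : ℝ, 0 ≤ C ∧ ∀ s t x : ℝ, 0 ≤ s → s ≤ t → a ≤ x →
      |U c t x - U c s x - (t - s) * (U c t x * mo c 1 t x)
          + Real.exp (-x) * (Ph c t - Ph c s)|
        ≤ C * ((t - s) * ((t - s) + (Ph c t - Ph c s))) := by
  refine ⟨∑' n : ℕ, 2 * (((n : ℝ) + 1) ^ (0 + 2) * Real.exp (-((n : ℝ) + 1) * a)),
    tsum_nonneg (fun n => by positivity), ?_⟩
  intro s t x hs hst hax
  have h1 := hd t x (hs.trans hst) (ha.trans_le hax)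
  have h2 := expand b g 0 ha hs hst hax (S := -(U c t x * mo c 1 t x)) (by
    simpa using h1)
  have h3 : U c t x - U c s x - (t - s) * (U c t x * mo c 1 t x)
          + Real.exp (-x) * (Ph c t - Ph c s)
      = -(mo c 0 t x - mo c 0 s x - (t - s) * (-(U c t x * mo c 1 t x))
        - Real.exp (-x) * (Ph c t - Ph c s)) := by
    unfold U
    ring
  rw [h3, abs_neg]
  exact h2

theorem mo2_expand {c : ℕ → ℝ → ℝ} (h : Sol c) (b : Bas c) (g : Gen c)
    (hd : ∀ t x : ℝ, 0 ≤ t → 0 < x →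
      HasSum (fun n : ℕ => ((n : ℝ) + 1) ^ 2 * dr c n t * Real.exp (-((n : ℝ) + 1) * x))
        (3 * mo c 1 t x * mo c 2 t x - U c t x * mo c 3 t x))
    {a : ℝ} (ha : 0 < a) :
    ∃ C : ℝ, 0 ≤ C ∧ ∀ s t x : ℝ, 0 ≤ s → s ≤ t → a ≤ x →
      |mo c 2 t x - mo c 2 s x
          - (t - s) * (3 * mo c 1 t x * mo c 2 t x - U c t x * mo c 3 t x)
          - Real.exp (-x) * (Ph c t - Ph c s)|
        ≤ C * ((t - s) * ((t - s) + (Ph c t - Ph c s))) := by
  refine ⟨∑' n : ℕ, 2 * (((n : ℝ) + 1) ^ (2 + 2) * Real.exp (-((n : ℝ) + 1) * a)),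
    tsum_nonneg (fun n => by positivity), ?_⟩
  intro s t x hs hst hax
  exact expand b g 2 ha hs hst hax (hd t x (hs.trans hst) (ha.trans_le hax))

end Pool.Agent.TH889.J944
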