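import Pool.Agent.TH239.FF.Gen

set_option autoImplicit false

namespace Pool.Agent.TH889.J947

open Pool.Agent.TH239.FF
open Set Filter Topology MeasureTheory

theorem U_bounds {c : ℕ → ℝ → ℝ} (g : Gen c) {t x : ℝ} (ht : 0 ≤ t) (hx : 0 ≤ x) :
    1 - Real.exp (-x) ≤ U c t x ∧ 0 ≤ U c t x ∧ U c t x ≤ 1 := by
  have h1 := g.m0 t x ht hx
  have h2 := g.no 0 t x ht
  have h3 : Real.exp (-x) ≤ 1 := by
    rw [Real.exp_le_one_iff]
    linarith
  unfold U
  refine ⟨by linarith, by linarith, by linarith⟩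

theorem W_nonneg {c : ℕ → ℝ → ℝ} (g : Gen c) {t x : ℝ} (ht : 0 ≤ t) : 0 ≤ W c t x := by
  unfold W
  have := g.no 2 t x ht
  positivity

theorem W_le {c : ℕ → ℝ → ℝ} (g : Gen c) {t x : ℝ} (ht : 0 ≤ t) (hx : 0 < x) :
    W c t x ≤ 4 * x ^ (-(2 : ℝ) / 3) * Real.exp (-x / 6) := by
  obtain ⟨h1, h2, h3⟩ := U_bounds g ht hx.le
  have h4 := g.m2 t x ht hx
  have h5 := g.no 2 t x ht
  have h6 : (1 - U c t x ^ 4) ^ 2 ≤ 1 := by
    have h7 : U c t x ^ 4 ≤ 1 := pow_le_one₀ h2 h3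
    have h8 : 0 ≤ U c t x ^ 4 := by positivity
    nlinarith
  have h9 : 4 * (1 - U c t x ^ 4) ^ 2 * mo c 2 t x ≤ 64 / x ^ 2 * Real.exp (-x / 2) := by
    calc 4 * (1 - U c t x ^ 4) ^ 2 * mo c 2 t x ≤ 4 * 1 * mo c 2 t x := by
          apply mul_le_mul_of_nonneg_right _ h5
          linarith
      _ ≤ 4 * (16 / x ^ 2 * Real.exp (-x / 2)) := by linarith
      _ = 64 / x ^ 2 * Real.exp (-x / 2) := by ring
  have h10 : (64 / x ^ 2 * Real.exp (-x / 2)) ^ ((1 : ℝ) / 3)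
      = 4 * x ^ (-(2 : ℝ) / 3) * Real.exp (-x / 6) := by
    have e1 : (64 / x ^ 2 * Real.exp (-x / 2))
        = (4 * x ^ (-(2 : ℝ) / 3) * Real.exp (-x / 6)) ^ (3 : ℕ) := by
      rw [mul_pow, mul_pow, ← Real.rpow_natCast (x ^ (-(2 : ℝ) / 3)) 3, ← Real.rpow_mul hx.le,
        ← Real.exp_nat_mul]
      have e2 : (-(2 : ℝ) / 3) * ((3 : ℕ) : ℝ) = -2 := by push_cast; ring
      have e3 : ((3 : ℕ) : ℝ) * (-x / 6) = -x / 2 := by push_cast; ring
      rw [e2, e3, Real.rpow_neg hx.le]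
      have e4 : x ^ (2 : ℝ) = x ^ (2 : ℕ) := by
        rw [← Real.rpow_natCast]
        norm_num
      rw [e4]
      norm_num
      ring
    rw [e1, ← Real.rpow_natCast, ← Real.rpow_mul (by positivity)]
    norm_num
  unfold W
  rw [← h10]
  exact Real.rpow_le_rpow (by positivity) h9 (by norm_num)

theorem H_bound {c : ℕ → ℝ → ℝ} (h : Sol c) (g : Gen c) {t x : ℝ} (ht : 0 ≤ t) (hx : 0 < x) :
    |H c t x| ≤ 4 * x ^ (-(2 : ℝ) / 3) * Real.exp (-x / 6) + 4 * Real.exp (-x) := by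
  obtain ⟨h1, h2, h3⟩ := U_bounds g ht hx.le
  have h4 := W_le g ht hx
  have h5 : 0 ≤ W c t x := W_nonneg g ht
  have h6 : 0 ≤ (4 / 3) * (1 - (U c t x) ^ 3) := by
    have : U c t x ^ 3 ≤ 1 := pow_le_one₀ h2 h3
    linarith
  have h7 : (4 / 3) * (1 - (U c t x) ^ 3) ≤ 4 * Real.exp (-x) := by
    have e1 : (1 - (U c t x) ^ 3) = (1 - U c t x) * (1 + U c t x + U c t x ^ 2) := by ring
    have e2 : 1 + U c t x + U c t x ^ 2 ≤ 3 := by nlinarith
    have e3 : (1 - U c t x) * (1 + U c t x + U c t x ^ 2) ≤ (1 - U c t x) * 3 :=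
      mul_le_mul_of_nonneg_left e2 (by linarith)
    rw [e1]
    linarith
  unfold H
  rw [abs_le]
  have h8 : 0 ≤ 4 * Real.exp (-x) := by positivity
  constructor <;> linarith

theorem bound_integrable : IntegrableOn
    (fun x : ℝ => 4 * x ^ (-(2 : ℝ) / 3) * Real.exp (-x / 6) + 4 * Real.exp (-x)) (Ioi 0) := by
  have h1 := integrableOn_rpow_mul_exp_neg_mul_rpow (p := 1) (s := -(2 : ℝ) / 3) (b := 1 / 6)
    (by norm_num) (by norm_num) (by norm_num)
  have h2 := integrableOn_exp_neg_Ioi 0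
  have h3 : IntegrableOn (fun x : ℝ => 4 * (x ^ (-(2 : ℝ) / 3) * Real.exp (-(1 / 6) * x ^ (1 : ℝ))))
      (Ioi 0) := Integrable.const_mul h1 4
  have h4 : IntegrableOn (fun x : ℝ => 4 * Real.exp (-x)) (Ioi 0) := Integrable.const_mul h2 4
  refine (Integrable.add h3 h4).congr (Eventually.of_forall fun x => ?_)
  simp only [Pi.add_apply, Real.rpow_one]
  have : -(1 / 6) * x = -x / 6 := by ring
  rw [this]
  ring

theorem cont_W_x {c : ℕ → ℝ → ℝ} (g : Gen c) {t : ℝ} (ht : 0 ≤ t) :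
    ContinuousOn (fun x => W c t x) (Ioi 0) := by
  have h1 : ∀ j, ContinuousOn (fun x => mo c j t x) (Ioi 0) := fun j x hx =>
    (g.de j t x ht hx).continuousAt.continuousWithinAt
  unfold W U
  apply ContinuousOn.rpow_const
  · have h0 := h1 0
    have h2 := h1 2
    fun_prop
  · intro x _
    right
    norm_num

theorem cont_H_x {c : ℕ → ℝ → ℝ} (g : Gen c) {t : ℝ} (ht : 0 ≤ t) :
    ContinuousOn (fun x => H c t x) (Ioi 0) := by
  have h1 : ContinuousOn (fun x => mo c 0 t x) (Ioi 0) := fun x hx =>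
    (g.de 0 t x ht hx).continuousAt.continuousWithinAt
  have h2 := cont_W_x g ht
  unfold H U
  fun_prop

theorem H_integrable {c : ℕ → ℝ → ℝ} (h : Sol c) (g : Gen c) {t : ℝ} (ht : 0 ≤ t) :
    IntegrableOn (fun x => H c t x) (Ioi 0) := by
  refine Integrable.mono' bound_integrable ((cont_H_x g ht).aestronglyMeasurable measurableSet_Ioi)
    ?_
  rw [ae_restrict_iff' measurableSet_Ioi]
  exact Eventually.of_forall fun x hx => H_bound h g ht hx

theorem H_int_bound : ∃ C : ℝ, ∀ c : ℕ → ℝ → ℝ, Sol c → Gen c → ∀ t : ℝ, 0 ≤ t →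
    |∫ x in Ioi (0 : ℝ), H c t x| ≤ C := by
  refine ⟨∫ x in Ioi (0 : ℝ), (4 * x ^ (-(2 : ℝ) / 3) * Real.exp (-x / 6) + 4 * Real.exp (-x)), ?_⟩
  intro c h g t ht
  rw [← Real.norm_eq_abs]
  apply norm_integral_le_of_norm_le bound_integrable
  rw [ae_restrict_iff' measurableSet_Ioi]
  exact Eventually.of_forall fun x hx => H_bound h g ht hx

theorem cont_F_t {c : ℕ → ℝ → ℝ} (g : Gen c) {x : ℝ} (hx : 0 < x) :
    ContinuousOn (fun r => F c r x) (Ici 0) := by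
  have h1 : ∀ j, ContinuousOn (fun r => mo c j r x) (Ici 0) := by
    intro j
    have h2 : ContinuousOn (fun r : ℝ => (r, x)) (Ici 0) := by fun_prop
    exact (g.co j).comp h2 (fun r hr => ⟨hr, hx⟩)
  have h0 := h1 0
  have h2 := h1 2
  have hW : ContinuousOn (fun r => W c r x) (Ici 0) := by
    unfold W U
    apply ContinuousOn.rpow_const
    · fun_prop
    · intro x _
      right
      norm_num
  unfold F U
  fun_prop

theorem stage2 {c : ℕ → ℝ → ℝ} (h : Sol c) (g : Gen c)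
    (s1 : ∀ a b t₁ t₂ : ℝ, 0 < a → a ≤ b → 3 ≤ t₁ → t₁ ≤ t₂ →
      (∫ r in t₁..t₂, (F c r b - F c r a))
        ≤ (∫ x in a..b, H c t₂ x) - (∫ x in a..b, H c t₁ x))
    {a t₁ t₂ : ℝ} (ha : 0 < a) (ht₁ : 3 ≤ t₁) (h12 : t₁ ≤ t₂) :
    (t₂ - t₁) - (∫ r in t₁..t₂, F c r a)
      ≤ (∫ x in Ioi a, H c t₂ x) - (∫ x in Ioi a, H c t₁ x) := by
  have ht1 : 0 ≤ t₁ := by linarith
  have ht2 : 0 ≤ t₂ := by linarith
  have hint : ∀ t, 0 ≤ t → IntegrableOn (fun x => H c t x) (Ioi a) := fun t ht =>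
    (H_integrable h g ht).mono_set (Ioi_subset_Ioi ha.le)
  have hFi : ∀ x, 0 < x → IntervalIntegrable (fun r => F c r x) volume t₁ t₂ := by
    intro x hx
    apply ContinuousOn.intervalIntegrable
    apply (cont_F_t g hx).mono
    intro r hr
    rw [uIcc_of_le h12] at hr
    exact ht1.trans hr.1
  have lim1 : Tendsto (fun b : ℝ => (∫ x in a..b, H c t₂ x) - (∫ x in a..b, H c t₁ x)) atTop
      (𝓝 ((∫ x in Ioi a, H c t₂ x) - (∫ x in Ioi a, H c t₁ x))) :=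
    (intervalIntegral_tendsto_integral_Ioi a (hint t₂ ht2) tendsto_id).sub
      (intervalIntegral_tendsto_integral_Ioi a (hint t₁ ht1) tendsto_id)
  have lim2 : Tendsto (fun b : ℝ => (t₂ - t₁) * (1 - Real.exp (-b)) ^ 4
      - (∫ r in t₁..t₂, F c r a)) atTop
      (𝓝 ((t₂ - t₁) * (1 - 0) ^ 4 - (∫ r in t₁..t₂, F c r a))) := by
    have h1 : Tendsto (fun b : ℝ => Real.exp (-b)) atTop (𝓝 0) :=
      Real.tendsto_exp_neg_atTop_nhds_zero
    exact ((((tendsto_const_nhds.sub h1).pow 4).const_mul _).sub_const _)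
  rw [sub_zero, one_pow, mul_one] at lim2
  apply le_of_tendsto_of_tendsto lim2 lim1
  filter_upwards [eventually_ge_atTop a] with b hb
  have hb0 : 0 < b := ha.trans_le hb
  refine le_trans ?_ (s1 a b t₁ t₂ ha hb ht₁ h12)
  rw [intervalIntegral.integral_sub (hFi b hb0) (hFi a ha)]
  apply sub_le_sub_right
  have h2 : ∫ _r in t₁..t₂, (1 - Real.exp (-b)) ^ 4 = (t₂ - t₁) * (1 - Real.exp (-b)) ^ 4 := by
    rw [intervalIntegral.integral_const, smul_eq_mul]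
  rw [← h2]
  apply intervalIntegral.integral_mono_on h12 (by simp) (hFi b hb0)
  intro r hr
  have hr0 : 0 ≤ r := ht1.trans hr.1
  obtain ⟨u1, u2, u3⟩ := U_bounds g hr0 hb0.le
  have hW : 0 ≤ W c r b := W_nonneg g hr0
  have h3 : 0 ≤ 1 - Real.exp (-b) := by
    have : Real.exp (-b) ≤ 1 := by
      rw [Real.exp_le_one_iff]
      linarith
    linarith
  have h4 : (1 - Real.exp (-b)) ^ 4 ≤ U c r b ^ 4 := pow_le_pow_left₀ h3 u1 4
  unfold F
  have h5 := mul_nonneg u2 hW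
  linarith

end Pool.Agent.TH889.J947
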