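import Pool.Agent.TH605.AP.WF

/-! Discs of large curvature containing a given point are small (project AP). -/

set_option autoImplicit false

open Set Topology Filter

namespace Pool.Agent.TH889.APS2

open Pool.Agent.TH605.AP

lemma ip_self (V : HV) : ip V V = V.p ^ 2 + V.q ^ 2 - V.k * V.c := by
  unfold ip
  ring

lemma E_coe (V : HV) (w : ℂ) : E V (w : OnePoint ℂ) =
    V.k * (w.re ^ 2 + w.im ^ 2) - 2 * (V.p * w.re + V.q * w.im) + V.c := rfl

lemma E_infty (V : HV) : E V (OnePoint.infty : OnePoint ℂ) = V.k := rfl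

theorem vec_small (z : OnePoint ℂ) (U : Set (OnePoint ℂ)) (hU : U ∈ 𝓝 z) :
    ∃ N : ℕ, ∀ V : HV, ip V V = 1 → 0 ≤ V.k → 0 ≤ V.c → (N : ℝ) ≤ V.k + V.c → E V z ≤ 0 →
      {y | E V y ≤ 0} ⊆ U := by
  induction z using OnePoint.rec with
  | infty =>
    have hinf : (OnePoint.infty : OnePoint ℂ) ∈ U := mem_of_mem_nhds hU
    have h1 : {w : ℂ | (w : OnePoint ℂ) ∈ U} ∈ cocompact ℂ := by
      rw [← coclosedCompact_eq_cocompact, ← OnePoint.comap_coe_nhds_infty]
      exact preimage_mem_comap hU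
    rw [mem_cocompact] at h1
    obtain ⟨t, ht, htU⟩ := h1
    obtain ⟨R, hR⟩ := ht.isBounded.subset_closedBall 0
    have hR' : ∀ w : ℂ, R < ‖w‖ → (w : OnePoint ℂ) ∈ U := by
      intro w hw
      refine htU ?_
      intro hwt
      have := hR hwt
      rw [mem_closedBall_zero_iff] at this
      linarith
    obtain ⟨N, hN⟩ := exists_nat_gt (2 * R)
    refine ⟨N, fun V hV hk hc hN' hE y hy => ?_⟩
    rw [E_infty] at hE
    have hk0 : V.k = 0 := le_antisymm hE hk
    rw [ip_self, hk0, zero_mul, sub_zero] at hV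
    induction y using OnePoint.rec with
    | infty => exact hinf
    | coe w =>
      apply hR'
      have hy' : E V (w : OnePoint ℂ) ≤ 0 := hy
      rw [E_coe, hk0, zero_mul] at hy'
      rw [hk0, zero_add] at hN'
      have h2 : ‖w‖ ^ 2 = w.re ^ 2 + w.im ^ 2 := by
        rw [Complex.sq_norm, Complex.normSq_apply]; ring
      have h3 : (V.p * w.re + V.q * w.im) ^ 2 ≤ ‖w‖ ^ 2 := by
        have h4 : (V.p * w.re + V.q * w.im) ^ 2 + (V.p * w.im - V.q * w.re) ^ 2 =
            (V.p ^ 2 + V.q ^ 2) * (w.re ^ 2 + w.im ^ 2) := by ring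
        rw [hV, one_mul, ← h2] at h4
        nlinarith [sq_nonneg (V.p * w.im - V.q * w.re)]
      have h5 : V.p * w.re + V.q * w.im ≤ ‖w‖ :=
        (le_abs_self _).trans (abs_le_of_sq_le_sq h3 (norm_nonneg w))
      linarith
  | coe z =>
    rw [OnePoint.nhds_coe_eq, mem_map] at hU
    obtain ⟨ε, hε, hεU⟩ := Metric.mem_nhds_iff.1 hU
    set B : ℝ := z.re ^ 2 + z.im ^ 2 with hB
    have hB0 : 0 ≤ B := by positivity
    set K : ℝ := 1 + 2 / ε with hK
    have hK1 : 1 ≤ K := by
      have : 0 ≤ 2 / ε := by positivity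
      linarith
    obtain ⟨N, hN⟩ := exists_nat_gt (K + 4 * B * (1 + K) + 2)
    refine ⟨N, fun V hV hk hc hN' hE y hy => ?_⟩
    rw [ip_self] at hV
    have hEz := hE
    rw [E_coe, ← hB] at hEz
    have hkK : K ≤ V.k := by
      by_contra hcon
      push Not at hcon
      have hc1 : 4 * B * (1 + K) + 2 < V.c := by linarith
      have hkB : 0 ≤ V.k * B := mul_nonneg hk hB0
      have h1 : V.c ≤ 2 * (V.p * z.re + V.q * z.im) := by linarith
      have h2 : (V.p * z.re + V.q * z.im) ^ 2 ≤ (V.p ^ 2 + V.q ^ 2) * B := by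
        have h4 : (V.p * z.re + V.q * z.im) ^ 2 + (V.p * z.im - V.q * z.re) ^ 2 =
            (V.p ^ 2 + V.q ^ 2) * B := by rw [hB]; ring
        nlinarith [sq_nonneg (V.p * z.im - V.q * z.re)]
      have hB1 : 0 ≤ 4 * B * (1 + K) := by positivity
      have hcpos : 1 ≤ V.c := by linarith
      have h3 : V.c ^ 2 ≤ 4 * ((1 + V.k * V.c) * B) := by
        have h5 : V.p ^ 2 + V.q ^ 2 = 1 + V.k * V.c := by linarith
        rw [h5] at h2
        have h6 : V.c ^ 2 ≤ (2 * (V.p * z.re + V.q * z.im)) ^ 2 :=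
          pow_le_pow_left₀ hc h1 2
        nlinarith
      have h7 : V.k * V.c ≤ K * V.c := mul_le_mul_of_nonneg_right hcon.le hc
      have h8 : 1 + V.k * V.c ≤ (1 + K) * V.c := by nlinarith
      have h9 : (1 + V.k * V.c) * B ≤ ((1 + K) * V.c) * B := mul_le_mul_of_nonneg_right h8 hB0
      have h10 : V.c * V.c ≤ (4 * B * (1 + K)) * V.c := by nlinarith
      have h11 : V.c ≤ 4 * B * (1 + K) := le_of_mul_le_mul_right h10 (by linarith)
      linarith
    have hkpos : 0 < V.k := by linarith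
    have key : ∀ w : ℂ, E V (w : OnePoint ℂ) ≤ 0 →
        (V.k * w.re - V.p) ^ 2 + (V.k * w.im - V.q) ^ 2 ≤ 1 := by
      intro w hw
      have h1 : V.k * E V (w : OnePoint ℂ) ≤ 0 := mul_nonpos_of_nonneg_of_nonpos hkpos.le hw
      rw [E_coe] at h1
      nlinarith
    induction y using OnePoint.rec with
    | infty =>
      exfalso
      have : V.k ≤ 0 := hy
      linarith
    | coe w =>
      apply hεU
      have h1 := key w hy
      have h2 := key z hE
      rw [Metric.mem_ball, dist_eq_norm]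
      have h3 : (V.k * ‖w - z‖) ^ 2 ≤ 2 ^ 2 := by
        rw [mul_pow, Complex.sq_norm, Complex.normSq_apply, Complex.sub_re, Complex.sub_im]
        nlinarith [sq_nonneg ((V.k * w.re - V.p) + (V.k * z.re - V.p)),
          sq_nonneg ((V.k * w.im - V.q) + (V.k * z.im - V.q))]
      have h4 : V.k * ‖w - z‖ ≤ 2 :=
        (le_abs_self _).trans (abs_le_of_sq_le_sq h3 (by norm_num))
      have h5 : 2 / ε < V.k := by
        rw [hK] at hkK
        linarith
      rw [div_lt_iff₀ hε] at h5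
      by_contra hcon
      push Not at hcon
      have h6 : V.k * ε ≤ V.k * ‖w - z‖ := mul_le_mul_of_nonneg_left hcon hkpos.le
      linarith

end Pool.Agent.TH889.APS2
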