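import Pool.Agent.TH152.BB.Stm

/-! Job 4278 (helper152): homogeneous relations between leading coefficients. -/

set_option autoImplicit false

namespace Pool.Agent.TH152.BB

namespace RelAux

variable {B : Type} [CommRing B]

/-- the coefficients below `a` are zero and the coefficient at `a` is `c` -/
def Ld (x : HahnSeries ℚ B) (a : ℚ) (c : B) : Prop :=
  (∀ γ < a, x.coeff γ = 0) ∧ x.coeff a = c

theorem Ld.mul {x y : HahnSeries ℚ B} {a b : ℚ} {c d : B} (hx : Ld x a c) (hy : Ld y b d) :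
    Ld (x * y) (a + b) (c * d) := by
  refine ⟨?_, ?_⟩
  · intro e he
    rw [HahnSeries.coeff_mul]
    apply Finset.sum_eq_zero
    rintro ⟨u, v⟩ huv
    rw [Finset.mem_antidiagonal] at huv
    obtain ⟨_, _, h⟩ := huv
    simp only at h ⊢
    rcases lt_or_ge u a with h1 | h1
    · rw [hx.1 u h1, zero_mul]
    · rw [hy.1 v (by linarith), mul_zero]
  · rw [← hx.2, ← hy.2, HahnSeries.coeff_mul]
    by_cases h : x.coeff a ≠ 0 ∧ y.coeff b ≠ 0
    · rw [Finset.sum_eq_single (a, b)]
      · rintro ⟨u, v⟩ huv hne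
        rw [Finset.mem_antidiagonal] at huv
        obtain ⟨_, _, h⟩ := huv
        simp only at h ⊢
        rcases lt_trichotomy u a with h1 | h1 | h1
        · rw [hx.1 u h1, zero_mul]
        · exact absurd (Prod.ext h1 (by simp only; linarith)) hne
        · rw [hy.1 v (by linarith), mul_zero]
      · intro h1
        exfalso
        apply h1
        rw [Finset.mem_antidiagonal]
        exact ⟨h.1, h.2, rfl⟩
    · rw [Finset.sum_eq_zero]
      · rw [not_and_or, not_not, not_not] at h
        rcases h with h | h <;> simp [h]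
      · rintro ⟨u, v⟩ huv
        rw [Finset.mem_antidiagonal] at huv
        obtain ⟨h2, h3, h4⟩ := huv
        simp only at h4 ⊢
        rcases lt_trichotomy u a with h1 | h1 | h1
        · rw [hx.1 u h1, zero_mul]
        · exfalso
          apply h
          have h5 : v = b := by linarith
          subst h1 h5
          exact ⟨h2, h3⟩
        · rw [hy.1 v (by linarith), mul_zero]

theorem Ld.one : Ld (1 : HahnSeries ℚ B) 0 1 := by
  refine ⟨fun γ hγ => ?_, ?_⟩
  · rw [HahnSeries.coeff_one, if_neg hγ.ne]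
  · rw [HahnSeries.coeff_one, if_pos rfl]

theorem Ld.congr {x : HahnSeries ℚ B} {a b : ℚ} {c : B} (h : Ld x a c) (hab : a = b) :
    Ld x b c := hab ▸ h

theorem Ld.pow {x : HahnSeries ℚ B} {a : ℚ} {c : B} (hx : Ld x a c) (n : ℕ) :
    Ld (x ^ n) (n * a) (c ^ n) := by
  induction n with
  | zero =>
    rw [pow_zero, pow_zero]
    exact Ld.one.congr (by simp)
  | succ n ih =>
    rw [pow_succ, pow_succ]
    exact (ih.mul hx).congr (by push_cast; ring)

theorem Ld.prod {ι : Type} (S : Finset ι) {x : ι → HahnSeries ℚ B} {a : ι → ℚ} {c : ι → B}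
    (h : ∀ i ∈ S, Ld (x i) (a i) (c i)) : Ld (∏ i ∈ S, x i) (∑ i ∈ S, a i) (∏ i ∈ S, c i) := by
  classical
  induction S using Finset.induction_on with
  | empty =>
    rw [Finset.prod_empty, Finset.prod_empty, Finset.sum_empty]
    exact Ld.one
  | insert i S hi ih =>
    rw [Finset.prod_insert hi, Finset.prod_insert hi, Finset.sum_insert hi]
    exact (h i (Finset.mem_insert_self i S)).mul
      (ih fun j hj => h j (Finset.mem_insert_of_mem hj))

theorem Ld.sum {ι : Type} (S : Finset ι) {x : ι → HahnSeries ℚ B} {a : ℚ} {c : ι → B}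
    (h : ∀ i ∈ S, Ld (x i) a (c i)) : Ld (∑ i ∈ S, x i) a (∑ i ∈ S, c i) := by
  refine ⟨fun γ hγ => ?_, ?_⟩
  · rw [HahnSeries.coeff_sum]
    exact Finset.sum_eq_zero fun i hi => (h i hi).1 γ hγ
  · rw [HahnSeries.coeff_sum]
    exact Finset.sum_congr rfl fun i hi => (h i hi).2

theorem Ld.const {k : Type} [Field k] [Algebra k B] (c : k) :
    Ld (algebraMap k (HahnSeries ℚ B) c) 0 (algebraMap k B c) := by
  rw [HahnSeries.algebraMap_apply', PowerSeries.algebraMap_apply, HahnSeries.ofPowerSeries_C,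
    HahnSeries.C_apply]
  refine ⟨fun γ hγ => ?_, ?_⟩
  · rw [HahnSeries.coeff_single_of_ne hγ.ne]
  · rw [HahnSeries.coeff_single_same]

theorem hm_Ld {k : Type} [Field k] [Algebra k B] {N : ℕ} {G0 : HahnSeries ℚ B}
    {G : Fin N → HahnSeries ℚ B} {μ : ℚ} {p0 : B} {p : Fin N → B} (h0 : Ld G0 μ p0)
    (h : ∀ j, Ld (G j) μ (p j)) (F : MvPolynomial (Fin N) k) (D : ℕ)
    (hD : ∀ α ∈ F.support, ∑ j, α j ≤ D) : Ld (hm F D G0 G) (D * μ) (hm F D p0 p) := by
  unfold hm
  apply Ld.sum
  intro α hα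
  have h1 := ((Ld.const (B := B) (F.coeff α)).mul
    (Ld.prod Finset.univ fun j _ => (h j).pow (α j))).mul (h0.pow (D - ∑ j, α j))
  refine h1.congr ?_
  have h2 := hD α hα
  rw [← Finset.sum_mul, Nat.cast_sub h2]
  push_cast
  ring

end RelAux

open RelAux

theorem rel_all : S_REL := by
  intro k _ N G0 G μ P0 P hG0 hG hP0 hP F D hD h0
  have h1 := hm_Ld (B := RatFunc k) (G0 := G0) (G := G) (μ := μ) ⟨hG0, hP0⟩
    (fun j => ⟨hG j, hP j⟩) F D hD
  have h2 : hm F D (algebraMap (Polynomial k) (RatFunc k) P0)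
      (fun j => algebraMap (Polynomial k) (RatFunc k) (P j)) = 0 := by
    rw [← h1.2, h0, HahnSeries.coeff_zero]
  apply RatFunc.algebraMap_injective k
  rw [map_zero, ← h2]
  unfold hm
  rw [map_sum]
  refine Finset.sum_congr rfl fun α _ => ?_
  rw [map_mul, map_mul, map_prod, map_pow, ← IsScalarTower.algebraMap_apply]
  simp only [map_pow]

end Pool.Agent.TH152.BB
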