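import Pool.Agent.TH196.Loew.Defs

/-!
Certified lower bound of `|G0|` on the torus (project Loewner, job 2891).
-/

set_option autoImplicit false
set_option maxRecDepth 100000

open Complex
open scoped ContDiff

namespace Pool.Agent.TH889.LWG

open Pool.Agent.TH196.Loew

/-! ### sums over lists of terms with keys -/

section Keys

variable {κ : Type}

/-- value of a list of terms `(key, a, b)`: the sum of `(a + b i) φ(key)` -/
noncomputable def evk (φ : κ → ℂ) (L : List (κ × ℤ × ℤ)) : ℂ :=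
  (L.map fun m => ((m.2.1 : ℂ) + (m.2.2 : ℂ) * I) * φ m.1).sum

lemma evk_nil (φ : κ → ℂ) : evk φ [] = 0 := rfl

lemma evk_cons (φ : κ → ℂ) (m : κ × ℤ × ℤ) (L : List (κ × ℤ × ℤ)) :
    evk φ (m :: L) = ((m.2.1 : ℂ) + (m.2.2 : ℂ) * I) * φ m.1 + evk φ L := by
  simp [evk]

lemma evk_append (φ : κ → ℂ) (L L' : List (κ × ℤ × ℤ)) :
    evk φ (L ++ L') = evk φ L + evk φ L' := by
  simp [evk]

/-- insertion of a term -/
def ins [DecidableEq κ] (m : κ × ℤ × ℤ) : List (κ × ℤ × ℤ) → List (κ × ℤ × ℤ)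
  | [] => [m]
  | x :: L => if x.1 = m.1 then (x.1, x.2.1 + m.2.1, x.2.2 + m.2.2) :: L else x :: ins m L

lemma evk_ins [DecidableEq κ] (φ : κ → ℂ) (m : κ × ℤ × ℤ) (L : List (κ × ℤ × ℤ)) :
    evk φ (ins m L) = ((m.2.1 : ℂ) + (m.2.2 : ℂ) * I) * φ m.1 + evk φ L := by
  induction L with
  | nil => simp [ins, evk_cons, evk_nil]
  | cons x L ih =>
    unfold ins
    split_ifs with h
    · rw [evk_cons, evk_cons, h]
      push_cast
      ring
    · rw [evk_cons, evk_cons, ih]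
      ring

lemma evk_foldr [DecidableEq κ] (φ : κ → ℂ) (L B : List (κ × ℤ × ℤ)) :
    evk φ (L.foldr ins B) = evk φ L + evk φ B := by
  induction L with
  | nil => simp [evk_nil]
  | cons m L ih => rw [List.foldr_cons, evk_ins, ih, evk_cons]; ring

lemma evk_zero (φ : κ → ℂ) (L : List (κ × ℤ × ℤ)) (h : ∀ m ∈ L, m.2 = (0, 0)) :
    evk φ L = 0 := by
  induction L with
  | nil => rfl
  | cons m L ih =>
    rw [evk_cons, ih fun m' hm => h m' (List.mem_cons_of_mem _ hm), h m List.mem_cons_self]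
    simp

end Keys

/-! ### expansion of the modes -/

/-- the five monomials of a mode, times `12800` -/
def ex (j k A B : ℤ) : List ((ℤ × ℤ) × ℤ × ℤ) :=
  [((j, k), A * (-64 * j ^ 2 + 6 * k ^ 2) + B * (32 * j * k),
      -(A * (32 * j * k)) + B * (-64 * j ^ 2 + 6 * k ^ 2)),
   ((j, k + 1), A * (4 * k ^ 2 + 2 * k) + B * (16 * j * k),
      -(A * (16 * j * k)) + B * (4 * k ^ 2 + 2 * k)),
   ((j, k - 1), A * (4 * k ^ 2 - 2 * k) + B * (16 * j * k),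
      -(A * (16 * j * k)) + B * (4 * k ^ 2 - 2 * k)),
   ((j, k + 2), A * (k ^ 2 + k), B * (k ^ 2 + k)),
   ((j, k - 2), A * (k ^ 2 - k), B * (k ^ 2 - k))]

/-- monomials -/
noncomputable def ph (V W : ℂ) (x : ℤ × ℤ) : ℂ := V ^ x.1 * W ^ x.2

lemma ex_eq {V W : ℂ} (hW : W ≠ 0) (j k A B : ℤ) :
    12800 * ((((A : ℂ) + (B : ℂ) * I) / 200) * V ^ j * W ^ k *
      ((I * j - k * (2 + W + W⁻¹) / 8) ^ 2 + k * (W - W⁻¹) * (2 + W + W⁻¹) / 64)) =
    evk (ph V W) (ex j k A B) := by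
  have e1 : W ^ (k + 1) = W ^ k * W := by rw [zpow_add₀ hW, zpow_one]
  have e2 : W ^ (k - 1) = W ^ k * W⁻¹ := by rw [zpow_sub₀ hW, zpow_one, div_eq_mul_inv]
  have e3 : W ^ (k + 2) = W ^ k * (W * W) := by
    rw [zpow_add₀ hW]; congr 1; norm_cast; ring
  have e4 : W ^ (k - 2) = W ^ k * (W⁻¹ * W⁻¹) := by
    rw [zpow_sub₀ hW, div_eq_mul_inv]; congr 1
    have : W ^ (2 : ℤ) = W * W := by norm_cast; ring
    rw [this, mul_inv]
  have hY : W * W⁻¹ = 1 := mul_inv_cancel₀ hW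
  simp only [ex, evk_cons, evk_nil, ph, e1, e2, e3, e4]
  generalize W⁻¹ = Y at *
  generalize W ^ k = w
  generalize V ^ j = v
  push_cast
  linear_combination (v * w * (64 * (j : ℂ) ^ 2 * (A + B * I) - 16 * B * j * k * (2 + W + Y))) * I_sq
    + (2 * (k : ℂ) ^ 2 * (A + B * I) * v * w) * hY

/-- all the monomials of `12800 G0` -/
def allM : List ((ℤ × ℤ) × ℤ × ℤ) :=
  ((0, 0), 12800, 0) :: halfModes.flatMap fun m =>
    ex m.1 m.2.1 m.2.2.1 m.2.2.2 ++ ex (-m.1) (-m.2.1) m.2.2.1 (-m.2.2.2)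

lemma flat_eq {V W : ℂ} (hW : W ≠ 0) (h : List (ℤ × ℤ × ℤ × ℤ)) :
    12800 * (((h.flatMap fun m =>
      [(m.1, m.2.1, ((m.2.2.1 : ℂ) + (m.2.2.2 : ℂ) * I) / 200),
       (-m.1, -m.2.1, ((m.2.2.1 : ℂ) - (m.2.2.2 : ℂ) * I) / 200)]).map
        fun m : ℤ × ℤ × ℂ => m.2.2 * V ^ m.1 * W ^ m.2.1 *
    ((I * m.1 - m.2.1 * (2 + W + W⁻¹) / 8) ^ 2
      + m.2.1 * (W - W⁻¹) * (2 + W + W⁻¹) / 64)).sum) =
    evk (ph V W) (h.flatMap fun m =>
      ex m.1 m.2.1 m.2.2.1 m.2.2.2 ++ ex (-m.1) (-m.2.1) m.2.2.1 (-m.2.2.2)) := by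
  induction h with
  | nil => simp [evk_nil]
  | cons m h ih =>
    rw [List.flatMap_cons, List.flatMap_cons, List.map_append, List.sum_append, mul_add, ih,
      evk_append, evk_append]
    congr 1
    rw [← ex_eq hW m.1 m.2.1, ← ex_eq hW (-m.1) (-m.2.1)]
    simp only [List.map_cons, List.map_nil, List.sum_cons, List.sum_nil, add_zero]
    push_cast
    ring

lemma G0_allM {V W : ℂ} (hW : W ≠ 0) : 12800 * G0 V W = evk (ph V W) allM := by
  unfold G0 modes allM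
  rw [mul_add, flat_eq hW, evk_cons]
  simp [ph]

/-- the table of the coefficients `((j, k), a, b, c)` with `|a + b i| ≤ c` -/
def TLC : List ((ℤ × ℤ) × ℤ × ℤ × ℤ) :=
  [
   ((-2, -7), 0, 90, 90), ((-1, -7), 30, 210, 213), ((0, -7), 0, 0, 0), ((1, -7), -30, 210, 213), ((2, -7), 0, -90, 90),
   ((-2, -6), 480, 350, 595), ((-1, -6), 970, 690, 1191), ((0, -6), 80, 0, 80), ((1, -6), -970, 690, 1191), ((2, -6), 480, -350, 595),
   ((-2, -5), 1088, -246, 1116), ((-1, -5), 2142, -518, 2204), ((0, -5), 0, 0, 0), ((1, -5), -2142, -518, 2204), ((2, -5), 1088, 246, 1116),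
   ((-2, -4), 736, 110, 745), ((-1, -4), 476, -602, 768), ((0, -4), 792, 0, 792), ((1, -4), -476, -602, 768), ((2, -4), 736, -110, 745),
   ((-2, -3), 128, 116, 173), ((-1, -3), 1490, 1840, 2368), ((0, -3), 92, 0, 92), ((1, -3), -1490, 1840, 2368), ((2, -3), 128, -116, 173),
   ((-2, -2), 0, 12, 12), ((-1, -2), 3370, 1212, 3582), ((0, -2), -5676, 0, 5676), ((1, -2), -3370, 1212, 3582), ((2, -2), 0, -12, 12),
   ((-2, -1), 0, 0, 0), ((-1, -1), 2146, -564, 2219), ((0, -1), -7980, 0, 7980), ((1, -1), -2146, -564, 2219), ((2, -1), 0, 0, 0),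
   ((-2, 0), 0, 0, 0), ((-1, 0), 1088, 224, 1111), ((0, 0), 6632, 0, 6632), ((1, 0), -1088, 224, 1111), ((2, 0), 0, 0, 0),
   ((-2, 1), 0, 0, 0), ((-1, 1), 2078, 2612, 3338), ((0, 1), -7980, 0, 7980), ((1, 1), -2078, 2612, 3338), ((2, 1), 0, 0, 0),
   ((-2, 2), 0, 12, 12), ((-1, 2), 1814, 3364, 3822), ((0, 2), -5676, 0, 5676), ((1, 2), -1814, 3364, 3822), ((2, 2), 0, -12, 12),
   ((-2, 3), -128, 116, 173), ((-1, 3), 558, 144, 577), ((0, 3), 92, 0, 92), ((1, 3), -558, 144, 577), ((2, 3), -128, -116, 173),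
   ((-2, 4), -736, 110, 745), ((-1, 4), 644, -2246, 2337), ((0, 4), 792, 0, 792), ((1, 4), -644, -2246, 2337), ((2, 4), -736, -110, 745),
   ((-2, 5), -1088, -246, 1116), ((-1, 5), 98, -1722, 1725), ((0, 5), 0, 0, 0), ((1, 5), -98, -1722, 1725), ((2, 5), -1088, 246, 1116),
   ((-2, 6), -480, 350, 595), ((-1, 6), 150, -850, 864), ((0, 6), 80, 0, 80), ((1, 6), -150, -850, 864), ((2, 6), -480, -350, 595),
   ((-2, 7), 0, 90, 90), ((-1, 7), -30, -210, 213), ((0, 7), 0, 0, 0), ((1, 7), 30, -210, 213), ((2, 7), 0, -90, 90)]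

def TL1 : List ((ℤ × ℤ) × ℤ × ℤ) := TLC.map fun m => (m.1, m.2.1, m.2.2.1)

lemma norm1 : allM.foldr ins (TLC.map fun m => (m.1, (0, 0))) = TL1 := by decide +kernel

lemma G0_TL1 {V W : ℂ} (hW : W ≠ 0) : 12800 * G0 V W = evk (ph V W) TL1 := by
  rw [G0_allM hW, ← norm1, evk_foldr, evk_zero _ (TLC.map fun m => (m.1, ((0 : ℤ), (0 : ℤ)))),
    add_zero]
  intro m hm
  rw [List.mem_map] at hm
  obtain ⟨x, -, rfl⟩ := hm
  rfl

/-! ### Lipschitz estimate -/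

lemma norm_gauss_le {a b c : ℤ} (hc : 0 ≤ c) (h : a ^ 2 + b ^ 2 ≤ c ^ 2) :
    ‖(a : ℂ) + (b : ℂ) * I‖ ≤ c := by
  have h1 : ‖(a : ℂ) + (b : ℂ) * I‖ ^ 2 = (a : ℝ) ^ 2 + (b : ℝ) ^ 2 := by
    rw [Complex.sq_norm, Complex.normSq_apply]
    simp
    ring
  have h2 : ‖(a : ℂ) + (b : ℂ) * I‖ ^ 2 ≤ (c : ℝ) ^ 2 := by
    rw [h1]
    exact_mod_cast h
  exact (le_abs_self _).trans (abs_le_of_sq_le_sq h2 (by exact_mod_cast hc))

lemma zpow_lip_nat {v w : ℂ} (hv : ‖v‖ = 1) (hw : ‖w‖ = 1) (n : ℕ) :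
    ‖v ^ n - w ^ n‖ ≤ n * ‖v - w‖ := by
  induction n with
  | zero => simp
  | succ n ih =>
    have : v ^ (n + 1) - w ^ (n + 1) = v * (v ^ n - w ^ n) + (v - w) * w ^ n := by ring
    rw [this]
    refine (norm_add_le _ _).trans ?_
    rw [norm_mul, norm_mul, hv, norm_pow, hw, one_pow, one_mul, mul_one]
    push_cast
    linarith

lemma zpow_lip {v w : ℂ} (hv : ‖v‖ = 1) (hw : ‖w‖ = 1) (j : ℤ) :
    ‖v ^ j - w ^ j‖ ≤ |(j : ℝ)| * ‖v - w‖ := by
  have hinv : ∀ u : ℂ, ‖u‖ = 1 → u⁻¹ = (starRingEnd ℂ) u := fun u hu => by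
    rw [Complex.inv_def, Complex.normSq_eq_norm_sq, hu]
    simp
  obtain ⟨n, rfl | rfl⟩ := j.eq_nat_or_neg
  · have h1 := zpow_lip_nat hv hw n
    rw [zpow_natCast, zpow_natCast]
    refine h1.trans (le_of_eq ?_)
    rw [Int.cast_natCast, Nat.abs_cast]
  · have h1 := zpow_lip_nat hv hw n
    rw [zpow_neg, zpow_neg, zpow_natCast, zpow_natCast, ← inv_pow, ← inv_pow, hinv v hv, hinv w hw,
      ← map_pow, ← map_pow, ← map_sub, Complex.norm_conj]
    refine h1.trans (le_of_eq ?_)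
    rw [Int.cast_neg, Int.cast_natCast, abs_neg, Nat.abs_cast]

lemma ph_lip {V W v w : ℂ} (hV : ‖V‖ = 1) (hW : ‖W‖ = 1) (hv : ‖v‖ = 1) (hw : ‖w‖ = 1)
    (x : ℤ × ℤ) : ‖ph V W x - ph v w x‖ ≤ |(x.1 : ℝ)| * ‖V - v‖ + |(x.2 : ℝ)| * ‖W - w‖ := by
  unfold ph
  have : V ^ x.1 * W ^ x.2 - v ^ x.1 * w ^ x.2 =
      (V ^ x.1 - v ^ x.1) * W ^ x.2 + v ^ x.1 * (W ^ x.2 - w ^ x.2) := by ring
  rw [this]
  refine (norm_add_le _ _).trans ?_
  rw [norm_mul, norm_mul, norm_zpow, norm_zpow, hW, hv, one_zpow, one_zpow, one_mul, mul_one]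
  exact add_le_add (zpow_lip hV hv _) (zpow_lip hW hw _)

lemma evk_lip {V W v w : ℂ} (hV : ‖V‖ = 1) (hW : ‖W‖ = 1) (hv : ‖v‖ = 1) (hw : ‖w‖ = 1)
    (L : List ((ℤ × ℤ) × ℤ × ℤ × ℤ)) (hL : ∀ m ∈ L, 0 ≤ m.2.2.2 ∧
      m.2.1 ^ 2 + m.2.2.1 ^ 2 ≤ m.2.2.2 ^ 2) :
    ‖evk (ph V W) (L.map fun m => (m.1, m.2.1, m.2.2.1)) -
      evk (ph v w) (L.map fun m => (m.1, m.2.1, m.2.2.1))‖ ≤
    (((L.map fun m => m.2.2.2 * |m.1.1|).sum : ℤ) : ℝ) * ‖V - v‖ +
      (((L.map fun m => m.2.2.2 * |m.1.2|).sum : ℤ) : ℝ) * ‖W - w‖ := by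
  induction L with
  | nil => simp [evk_nil]
  | cons m L ih =>
    have ih' := ih fun m' hm => hL m' (List.mem_cons_of_mem _ hm)
    have h1 := hL m List.mem_cons_self
    simp only [List.map_cons, evk_cons, List.sum_cons]
    have e : ∀ a b c d e' : ℂ, a * b + c - (a * d + e') = a * (b - d) + (c - e') := by
      intros; ring
    rw [e]
    refine (norm_add_le _ _).trans ?_
    have h2 := norm_gauss_le h1.1 h1.2
    have h3 := ph_lip hV hW hv hw m.1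
    have h4 : ‖((m.2.1 : ℂ) + (m.2.2.1 : ℂ) * I) * (ph V W m.1 - ph v w m.1)‖ ≤
        (m.2.2.2 : ℝ) * (|(m.1.1 : ℝ)| * ‖V - v‖ + |(m.1.2 : ℝ)| * ‖W - w‖) := by
      rw [norm_mul]
      exact mul_le_mul h2 h3 (norm_nonneg _) (by exact_mod_cast h1.1)
    push_cast
    have h5 := add_le_add h4 ih'
    refine h5.trans (le_of_eq ?_)
    push_cast
    ring

lemma TLC_ok : ∀ m ∈ TLC, 0 ≤ m.2.2.2 ∧ m.2.1 ^ 2 + m.2.2.1 ^ 2 ≤ m.2.2.2 ^ 2 := by
  decide +kernel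

lemma TLC_sj : (TLC.map fun m => m.2.2.2 * |m.1.1|).sum = 74912 := by decide +kernel

lemma TLC_sk : (TLC.map fun m => m.2.2.2 * |m.1.2|).sum = 252878 := by decide +kernel

lemma ne_zero_of_norm {W : ℂ} (hW : ‖W‖ = 1) : W ≠ 0 := by
  intro h
  rw [h, norm_zero] at hW
  exact zero_ne_one hW

lemma G0_lip {V W v w : ℂ} (hV : ‖V‖ = 1) (hW : ‖W‖ = 1) (hv : ‖v‖ = 1) (hw : ‖w‖ = 1) :
    12800 * ‖G0 V W - G0 v w‖ ≤ 74912 * ‖V - v‖ + 252878 * ‖W - w‖ := by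
  have h1 := evk_lip hV hW hv hw TLC TLC_ok
  rw [TLC_sj, TLC_sk] at h1
  have h2 : evk (ph V W) (TLC.map fun m => (m.1, m.2.1, m.2.2.1)) = 12800 * G0 V W :=
    (G0_TL1 (ne_zero_of_norm hW)).symm
  have h3 : evk (ph v w) (TLC.map fun m => (m.1, m.2.1, m.2.2.1)) = 12800 * G0 v w :=
    (G0_TL1 (ne_zero_of_norm hw)).symm
  rw [h2, h3, ← mul_sub, norm_mul] at h1
  have h4 : ‖(12800 : ℂ)‖ = 12800 := by norm_num
  rw [h4] at h1
  exact_mod_cast h1

/-! ### real form on the unit circle -/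

/-- `Re W^k`, `Im W^k` for `r = 2k`, `r = 2k+1` -/
noncomputable def xr (W : ℂ) (r : ℕ) : ℝ := if r % 2 = 0 then (W ^ (r / 2)).re else (W ^ (r / 2)).im

lemma xr_even (W : ℂ) (n : ℕ) : xr W (2 * n) = (W ^ n).re := by
  unfold xr
  rw [if_pos (by omega)]
  congr 2
  omega

lemma xr_odd (W : ℂ) (n : ℕ) : xr W (2 * n + 1) = (W ^ n).im := by
  unfold xr
  rw [if_neg (by omega)]
  congr 2
  omega

noncomputable def ph2 (V W : ℂ) (x : ℤ × ℕ) : ℂ := V ^ x.1 * (xr W x.2 : ℂ)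

def fold1 (m : (ℤ × ℤ) × ℤ × ℤ) : List ((ℤ × ℕ) × ℤ × ℤ) :=
  if 0 ≤ m.1.2 then
    [((m.1.1, 2 * m.1.2.natAbs), m.2.1, m.2.2), ((m.1.1, 2 * m.1.2.natAbs + 1), -m.2.2, m.2.1)]
  else [((m.1.1, 2 * m.1.2.natAbs), m.2.1, m.2.2), ((m.1.1, 2 * m.1.2.natAbs + 1), m.2.2, -m.2.1)]

lemma fold1_eq {V W : ℂ} (hW : ‖W‖ = 1) (m : (ℤ × ℤ) × ℤ × ℤ) :
    evk (ph2 V W) (fold1 m) = ((m.2.1 : ℂ) + (m.2.2 : ℂ) * I) * ph V W m.1 := by
  obtain ⟨⟨j, k⟩, a, b⟩ := m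
  have hinv : ∀ u : ℂ, ‖u‖ = 1 → u⁻¹ = (starRingEnd ℂ) u := fun u hu => by
    rw [Complex.inv_def, Complex.normSq_eq_norm_sq, hu]
    simp
  unfold fold1
  simp only
  split_ifs with h
  · obtain ⟨n, rfl⟩ := Int.eq_ofNat_of_zero_le h
    simp only [Int.natAbs_natCast, evk_cons, evk_nil, ph2, ph, xr_even, xr_odd, zpow_natCast]
    have e := Complex.re_add_im (W ^ n)
    push_cast
    linear_combination (((a : ℂ) + b * I) * V ^ j) * e - ((b : ℂ) * V ^ j * ((W ^ n).im : ℂ)) * I_sq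
  · obtain ⟨n, hn⟩ := Int.eq_ofNat_of_zero_le (show 0 ≤ -k by omega)
    have hk : k = -(n : ℤ) := by omega
    subst hk
    simp only [Int.natAbs_neg, Int.natAbs_natCast, evk_cons, evk_nil, ph2, ph, xr_even, xr_odd]
    rw [zpow_neg, zpow_natCast, ← inv_pow, hinv W hW, ← map_pow]
    have e := Complex.re_add_im ((starRingEnd ℂ) (W ^ n))
    rw [Complex.conj_re, Complex.conj_im] at e
    push_cast at e ⊢
    linear_combination (((a : ℂ) + b * I) * V ^ j) * e + ((b : ℂ) * V ^ j * ((W ^ n).im : ℂ)) * I_sq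

lemma foldMap_eq {V W : ℂ} (hW : ‖W‖ = 1) (L : List ((ℤ × ℤ) × ℤ × ℤ)) :
    evk (ph2 V W) (L.flatMap fold1) = evk (ph V W) L := by
  induction L with
  | nil => rfl
  | cons m L ih => rw [List.flatMap_cons, evk_append, ih, fold1_eq hW, evk_cons]

/-- rows of coefficients of `V^j`, `j = -2..2`, of `Re W^k`, `Im W^k` -/
def rws : List (List (ℤ × ℤ)) :=
  [
   [(0, 0), (1088, 224), (6632, 0), (-1088, 224), (0, 0)],
   [(0, 0), (-224, 1088), (0, 6632), (-224, -1088), (0, 0)],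
   [(0, 0), (4224, 2048), (-15960, 0), (-4224, 2048), (0, 0)],
   [(0, 0), (-3176, -68), (0, 0), (-3176, 68), (0, 0)],
   [(0, 24), (5184, 4576), (-11352, 0), (-5184, 4576), (0, -24)],
   [(0, 0), (-2152, -1556), (0, 0), (-2152, 1556), (0, 0)],
   [(0, 232), (2048, 1984), (184, 0), (-2048, 1984), (0, -232)],
   [(0, -256), (1696, -932), (0, 0), (1696, 932), (0, -256)],
   [(0, 220), (1120, -2848), (1584, 0), (-1120, -2848), (0, -220)],
   [(0, -1472), (1644, 168), (0, 0), (1644, -168), (0, -1472)],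
   [(0, -492), (2240, -2240), (0, 0), (-2240, -2240), (0, 492)],
   [(0, -2176), (1204, -2044), (0, 0), (1204, 2044), (0, -2176)],
   [(0, 700), (1120, -160), (160, 0), (-1120, -160), (0, -700)],
   [(0, -960), (1540, -820), (0, 0), (1540, 820), (0, -960)],
   [(0, 180), (0, 0), (0, 0), (0, 0), (0, -180)],
   [(0, 0), (420, -60), (0, 0), (420, 60), (0, 0)]]

def fr (r : ℕ) : ℤ → List (ℤ × ℤ) → List ((ℤ × ℕ) × ℤ × ℤ)
  | _, [] => []
  | j, c :: cs => ((j, r), c.1, c.2) :: fr r (j + 1) cs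

def fa : ℕ → List (List (ℤ × ℤ)) → List ((ℤ × ℕ) × ℤ × ℤ)
  | _, [] => []
  | r, cs :: rs => fr r (-2) cs ++ fa (r + 1) rs

lemma norm2 : (TL1.flatMap fold1).foldr ins ((fa 0 rws).map fun m => (m.1, (0, 0))) =
    fa 0 rws := by decide +kernel

noncomputable def rE (V : ℂ) : ℤ → List (ℤ × ℤ) → ℂ
  | _, [] => 0
  | j, c :: cs => ((c.1 : ℂ) + (c.2 : ℂ) * I) * V ^ j + rE V (j + 1) cs

noncomputable def dC : List ℂ → List ℝ → ℂ
  | a :: l, b :: m => a * (b : ℂ) + dC l m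
  | _, _ => 0

lemma evk_fr (V W : ℂ) (r : ℕ) (cs : List (ℤ × ℤ)) : ∀ j : ℤ,
    evk (ph2 V W) (fr r j cs) = rE V j cs * (xr W r : ℂ) := by
  induction cs with
  | nil => intro j; simp [fr, rE, evk_nil]
  | cons c cs ih =>
    intro j
    simp only [fr, rE, evk_cons, ih, ph2]
    ring

lemma evk_fa (V W : ℂ) (rs : List (List (ℤ × ℤ))) : ∀ r : ℕ,
    evk (ph2 V W) (fa r rs) = dC (rs.map (rE V (-2))) ((List.range' r rs.length).map (xr W)) := by
  induction rs with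
  | nil => intro r; rfl
  | cons cs rs ih =>
    intro r
    simp only [fa, evk_append, evk_fr, ih, List.map_cons, List.length_cons, List.range'_succ, dC]

lemma G0_rows {V W : ℂ} (hW : ‖W‖ = 1) :
    12800 * G0 V W = dC (rws.map (rE V (-2))) ((List.range' 0 16).map (xr W)) := by
  rw [G0_TL1 (ne_zero_of_norm hW), ← foldMap_eq hW]
  have h1 := evk_foldr (ph2 V W) (TL1.flatMap fold1) ((fa 0 rws).map fun m => (m.1, ((0 : ℤ), (0 : ℤ))))
  rw [norm2, evk_zero _ ((fa 0 rws).map fun m => (m.1, ((0 : ℤ), (0 : ℤ)))), add_zero] at h1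
  · rw [← h1]
    exact evk_fa V W rws 0
  · intro m hm
    rw [List.mem_map] at hm
    obtain ⟨x, -, rfl⟩ := hm
    rfl

/-! ### integers -/

/-- Gaussian product -/
def gm (a b : ℤ × ℤ) : ℤ × ℤ := (a.1 * b.1 - a.2 * b.2, a.1 * b.2 + a.2 * b.1)

noncomputable def tC (a : ℤ × ℤ) : ℂ := (a.1 : ℂ) + (a.2 : ℂ) * I

lemma tC_gm (a b : ℤ × ℤ) : tC (gm a b) = tC a * tC b := by
  simp only [tC, gm]
  push_cast
  linear_combination -((a.2 : ℂ) * b.2) * I_sq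

lemma tC_re (a : ℤ × ℤ) : (tC a).re = a.1 := by simp [tC]
lemma tC_im (a : ℤ × ℤ) : (tC a).im = a.2 := by simp [tC]

def dZ : List ℤ → List ℤ → ℤ
  | a :: l, b :: m => a * b + dZ l m
  | _, _ => 0

def xs (a : ℤ × ℤ) (P : ℤ) : ℕ → ℤ × ℤ → List ℤ
  | 0, c => [c.1, c.2]
  | n + 1, c => c.1 * P ^ (n + 1) :: c.2 * P ^ (n + 1) :: xs a P n (gm c a)

def dRe : List (ℤ × ℤ) → List (ℤ × ℤ) → ℤ
  | a :: l, b :: m => a.1 * b.1 - a.2 * b.2 + dRe l m
  | _, _ => 0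

def dIm : List (ℤ × ℤ) → List (ℤ × ℤ) → ℤ
  | a :: l, b :: m => a.1 * b.2 + a.2 * b.1 + dIm l m
  | _, _ => 0

def v5 (b : ℤ × ℤ) (P : ℤ) : List (ℤ × ℤ) :=
  [(b.1 * b.1 - b.2 * b.2, -(2 * b.1 * b.2)), (b.1 * P, -(b.2 * P)), (P * P, 0), (b.1 * P, b.2 * P),
   (b.1 * b.1 - b.2 * b.2, 2 * b.1 * b.2)]

lemma xs_eq {a : ℤ × ℤ} {P : ℤ} {w : ℂ} (hw : tC a = w * (P : ℂ)) (n : ℕ) :
    ∀ (k : ℕ) (c : ℤ × ℤ), tC c = w ^ k * (P : ℂ) ^ k →
    (xs a P n c).map (fun x : ℤ => (x : ℝ)) =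
      ((List.range' (2 * k) (2 * (n + 1))).map (xr w)).map (· * (P : ℝ) ^ (n + k)) := by
  induction n with
  | zero =>
    intro k c hc
    have h1 : (c.1 : ℝ) = (w ^ k).re * (P : ℝ) ^ k := by
      rw [← tC_re, hc, ← Complex.ofReal_intCast, ← Complex.ofReal_pow, Complex.re_mul_ofReal]
    have h2 : (c.2 : ℝ) = (w ^ k).im * (P : ℝ) ^ k := by
      rw [← tC_im, hc, ← Complex.ofReal_intCast, ← Complex.ofReal_pow, Complex.im_mul_ofReal]
    simp only [xs, zero_add, mul_one, List.range'_succ, List.range'_zero, List.map_cons,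
      List.map_nil, xr_even, xr_odd, h1, h2]
  | succ n ih =>
    intro k c hc
    have h1 : (c.1 : ℝ) = (w ^ k).re * (P : ℝ) ^ k := by
      rw [← tC_re, hc, ← Complex.ofReal_intCast, ← Complex.ofReal_pow, Complex.re_mul_ofReal]
    have h2 : (c.2 : ℝ) = (w ^ k).im * (P : ℝ) ^ k := by
      rw [← tC_im, hc, ← Complex.ofReal_intCast, ← Complex.ofReal_pow, Complex.im_mul_ofReal]
    have h3 := ih (k + 1) (gm c a) (by rw [tC_gm, hc, hw]; ring)
    have e1 : 2 * (n + 1 + 1) = 2 * (n + 1) + 1 + 1 := by ring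
    have e2 : 2 * k + 1 + 1 = 2 * (k + 1) := by ring
    have e3 : n + (k + 1) = n + 1 + k := by ring
    rw [e3] at h3
    rw [e1, List.range'_succ, List.range'_succ, e2]
    simp only [xs, List.map_cons, h3, xr_even, xr_odd, List.cons.injEq, and_true]
    push_cast
    rw [h1, h2]
    constructor <;> ring

lemma rE_eq {b : ℤ × ℤ} {P : ℤ} {v : ℂ} (hv : tC b = v * (P : ℂ)) (hv1 : ‖v‖ = 1)
    (cs : List (ℤ × ℤ)) (hcs : cs.length = 5) :
    rE v (-2) cs * (P : ℂ) ^ 2 = (dRe cs (v5 b P) : ℂ) + (dIm cs (v5 b P) : ℂ) * I := by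
  have hinv : ∀ u : ℂ, ‖u‖ = 1 → u⁻¹ = (starRingEnd ℂ) u := fun u hu => by
    rw [Complex.inv_def, Complex.normSq_eq_norm_sq, hu]
    simp
  have hv0 : v ≠ 0 := ne_zero_of_norm hv1
  have hc : (b.1 : ℂ) - (b.2 : ℂ) * I = v⁻¹ * P := by
    have := congrArg (starRingEnd ℂ) hv
    rw [map_mul, ← hinv v hv1, tC] at this
    simpa [sub_eq_add_neg] using this
  have hb : (b.1 : ℂ) + (b.2 : ℂ) * I = v * P := hv
  match cs, hcs with
  | [c0, c1, c2, c3, c4], _ =>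
    simp only [rE, v5, dRe, dIm]
    rw [show (-2 : ℤ) + 1 = -1 by norm_num, show (-1 : ℤ) + 1 = 0 by norm_num,
      show (0 : ℤ) + 1 = 1 by norm_num, show (1 : ℤ) + 1 = 2 by norm_num, zpow_zero, zpow_one,
      zpow_neg_one]
    have e1 : v ^ (-2 : ℤ) * (P : ℂ) ^ 2 = ((b.1 : ℂ) - (b.2 : ℂ) * I) ^ 2 := by
      rw [hc, zpow_neg, zpow_ofNat, mul_pow, inv_pow]
    have e2 : v⁻¹ * (P : ℂ) ^ 2 = ((b.1 : ℂ) - (b.2 : ℂ) * I) * P := by
      rw [hc]; ring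
    have e3 : v * (P : ℂ) ^ 2 = ((b.1 : ℂ) + (b.2 : ℂ) * I) * P := by
      rw [hb]; ring
    have e4 : v ^ (2 : ℤ) * (P : ℂ) ^ 2 = ((b.1 : ℂ) + (b.2 : ℂ) * I) ^ 2 := by
      rw [hb, zpow_ofNat, mul_pow]
    push_cast
    linear_combination ((c0.1 : ℂ) + c0.2 * I) * e1 + ((c1.1 : ℂ) + c1.2 * I) * e2 +
      ((c3.1 : ℂ) + c3.2 * I) * e3 + ((c4.1 : ℂ) + c4.2 * I) * e4 +
      ((b.2 : ℂ) ^ 2 * (c0.1 + c0.2 * I) - 2 * b.1 * b.2 * c0.2 - c1.2 * b.2 * P + c3.2 * b.2 * P +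
        (b.2 : ℂ) ^ 2 * (c4.1 + c4.2 * I) + 2 * b.1 * b.2 * c4.2) * I_sq

lemma dC_eq (E : List (ℤ × ℤ) → ℂ) (u : List (ℤ × ℤ)) (R : ℂ) (Q : ℝ)
    (rs : List (List (ℤ × ℤ)))
    (hE : ∀ cs ∈ rs, E cs * R = (dRe cs u : ℂ) + (dIm cs u : ℂ) * I) :
    ∀ (X : List ℝ) (x : List ℤ), x.map (fun x : ℤ => (x : ℝ)) = X.map (· * Q) →
    dC (rs.map E) X * (R * (Q : ℂ)) =
      (dZ (rs.map fun r => dRe r u) x : ℂ) + (dZ (rs.map fun r => dIm r u) x : ℂ) * I := by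
  induction rs with
  | nil => intro X x _; simp [dC, dZ]
  | cons cs rs ih =>
    intro X x hx
    cases X with
    | nil =>
      cases x with
      | nil => simp [dC, dZ]
      | cons y x => simp at hx
    | cons Y X =>
      cases x with
      | nil => simp at hx
      | cons y x =>
        simp only [List.map_cons, List.cons.injEq] at hx
        have h1 := ih (fun cs hcs => hE cs (List.mem_cons_of_mem _ hcs)) X x hx.2
        have h2 := hE cs List.mem_cons_self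
        have h3 : (y : ℂ) = (Y : ℂ) * (Q : ℂ) := by
          have := congrArg (fun t : ℝ => (t : ℂ)) hx.1
          simpa using this
        simp only [List.map_cons, dC, dZ]
        push_cast
        rw [h3]
        linear_combination h1 + (Y : ℂ) * (Q : ℂ) * h2

lemma net_val {b a : ℤ × ℤ} {P R : ℤ} {v w : ℂ} (hP : 0 < P) (hR : 0 < R)
    (hv : tC b = v * (P : ℂ)) (hw : tC a = w * (R : ℂ)) (hv1 : ‖v‖ = 1) (hw1 : ‖w‖ = 1)
    (h : (6229 * (P * P) * R ^ 7) * (6229 * (P * P) * R ^ 7) ≤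
      dZ (rws.map fun r => dRe r (v5 b P)) (xs a R 7 (1, 0)) *
        dZ (rws.map fun r => dRe r (v5 b P)) (xs a R 7 (1, 0)) +
      dZ (rws.map fun r => dIm r (v5 b P)) (xs a R 7 (1, 0)) *
        dZ (rws.map fun r => dIm r (v5 b P)) (xs a R 7 (1, 0))) :
    6229 ≤ 12800 * ‖G0 v w‖ := by
  have h1 := xs_eq hw 7 0 (1, 0) (by simp [tC])
  have h2 := dC_eq (rE v (-2)) (v5 b P) ((P : ℂ) ^ 2) ((R : ℝ) ^ 7) rws (by
    intro cs hcs
    refine rE_eq hv hv1 cs ?_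
    revert cs
    decide) ((List.range' 0 16).map (xr w)) (xs a R 7 (1, 0)) (by simpa using h1)
  rw [← G0_rows hw1] at h2
  set x : ℤ := dZ (rws.map fun r => dRe r (v5 b P)) (xs a R 7 (1, 0)) with hx
  set y : ℤ := dZ (rws.map fun r => dIm r (v5 b P)) (xs a R 7 (1, 0)) with hy
  have h3 : ‖(x : ℂ) + (y : ℂ) * I‖ ^ 2 = (x : ℝ) * x + (y : ℝ) * y := by
    rw [Complex.sq_norm, Complex.normSq_apply]
    simp
  rw [← h2] at h3
  have hP' : (0 : ℝ) < P := by exact_mod_cast hP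
  have hR' : (0 : ℝ) < R := by exact_mod_cast hR
  have h4 : ‖12800 * G0 v w * ((P : ℂ) ^ 2 * (((R : ℝ) ^ 7 : ℝ) : ℂ))‖ =
      (12800 * ‖G0 v w‖) * ((P : ℝ) * P * (R : ℝ) ^ 7) := by
    rw [norm_mul, norm_mul, norm_mul, norm_pow, Complex.norm_real, Complex.norm_intCast,
      abs_of_pos hP', Real.norm_of_nonneg (by positivity),
      show ‖(12800 : ℂ)‖ = 12800 by norm_num]
    ring
  rw [h4] at h3
  have h5 : ((6229 * ((P : ℝ) * P) * (R : ℝ) ^ 7) * (6229 * ((P : ℝ) * P) * (R : ℝ) ^ 7)) ≤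
      (x : ℝ) * x + (y : ℝ) * y := by exact_mod_cast h
  rw [← h3] at h5
  have hS : (0 : ℝ) < (P : ℝ) * P * (R : ℝ) ^ 7 := by positivity
  have h6 : (6229 * ((P : ℝ) * P * (R : ℝ) ^ 7)) ^ 2 ≤
      ((12800 * ‖G0 v w‖) * ((P : ℝ) * P * (R : ℝ) ^ 7)) ^ 2 := by
    refine le_trans (le_of_eq ?_) h5
    ring
  have h7 := (le_abs_self _).trans (abs_le_of_sq_le_sq h6 (by positivity))
  exact le_of_mul_le_mul_right h7 hS

/-! ### the check -/

def fN {α : Type} (n : ℕ) (f : ℕ → α) : α :=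
  match n with
  | 0 => f 0
  | k + 1 => f (Nat.succ k)

lemma fN_eq {α : Type} (n : ℕ) (f : ℕ → α) : fN n f = f n := by cases n <;> rfl

def MO : ℕ := 1461501637330902918203684832716283019655932542976

def enc (x : ℤ) : ℕ := (x % (MO : ℤ)).toNat

def fL {α : Type} : List ℤ → (List ℕ → α) → α
  | [], f => f []
  | a :: l, f => fN (enc a) fun a' => fL l fun l' => f (a' :: l')

lemma fL_eq {α : Type} (l : List ℤ) : ∀ f : List ℕ → α, fL l f = f (l.map enc) := by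
  induction l with
  | nil => intro f; rfl
  | cons a l ih =>
    intro f
    simp only [fL, fN_eq, ih, List.map_cons]

structure V16 where
  mk ::
  (a0 a1 a2 a3 a4 a5 a6 a7 a8 a9 a10 a11 a12 a13 a14 a15 : ℕ)

def V16.dot (r x : V16) : ℕ := Nat.add (Nat.mul r.a0 x.a0) (Nat.add (Nat.mul r.a1 x.a1) (Nat.add (Nat.mul r.a2 x.a2) (Nat.add (Nat.mul r.a3 x.a3) (Nat.add (Nat.mul r.a4 x.a4) (Nat.add (Nat.mul r.a5 x.a5) (Nat.add (Nat.mul r.a6 x.a6) (Nat.add (Nat.mul r.a7 x.a7) (Nat.add (Nat.mul r.a8 x.a8) (Nat.add (Nat.mul r.a9 x.a9) (Nat.add (Nat.mul r.a10 x.a10) (Nat.add (Nat.mul r.a11 x.a11) (Nat.add (Nat.mul r.a12 x.a12) (Nat.add (Nat.mul r.a13 x.a13) (Nat.add (Nat.mul r.a14 x.a14) (Nat.mul r.a15 x.a15)))))))))))))))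

def ofL {α : Type} (f : V16 → α) : List ℕ → α
  | [x0, x1, x2, x3, x4, x5, x6, x7, x8, x9, x10, x11, x12, x13, x14, x15] =>
    f ⟨x0, x1, x2, x3, x4, x5, x6, x7, x8, x9, x10, x11, x12, x13, x14, x15⟩
  | _ => f ⟨0, 0, 0, 0, 0, 0, 0, 0, 0, 0, 0, 0, 0, 0, 0, 0⟩

def dN : List ℕ → List ℕ → ℕ
  | a :: l, b :: m => Nat.add (Nat.mul a b) (dN l m)
  | _, _ => 0

lemma len16 {β : Type} (l : List β) (h : l.length = 16) :
    ∃ x0 x1 x2 x3 x4 x5 x6 x7 x8 x9 x10 x11 x12 x13 x14 x15 : β,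
      l = [x0, x1, x2, x3, x4, x5, x6, x7, x8, x9, x10, x11, x12, x13, x14, x15] := by
  match l, h with
  | [x0, x1, x2, x3, x4, x5, x6, x7, x8, x9, x10, x11, x12, x13, x14, x15], _ =>
    exact ⟨x0, x1, x2, x3, x4, x5, x6, x7, x8, x9, x10, x11, x12, x13, x14, x15, rfl⟩

/-- the vector of a list of length 16 -/
lemma ofL_spec (l : List ℕ) (h : l.length = 16) : ∃ v : V16,
    (∀ {α : Type} (f : V16 → α), ofL f l = f v) ∧
    l = [v.a0, v.a1, v.a2, v.a3, v.a4, v.a5, v.a6, v.a7, v.a8, v.a9, v.a10, v.a11, v.a12, v.a13,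
      v.a14, v.a15] := by
  obtain ⟨x0, x1, x2, x3, x4, x5, x6, x7, x8, x9, x10, x11, x12, x13, x14, x15, rfl⟩ := len16 l h
  exact ⟨⟨x0, x1, x2, x3, x4, x5, x6, x7, x8, x9, x10, x11, x12, x13, x14, x15⟩,
    fun f => rfl, rfl⟩

lemma dot_dN (v x : V16) : v.dot x =
    dN [v.a0, v.a1, v.a2, v.a3, v.a4, v.a5, v.a6, v.a7, v.a8, v.a9, v.a10, v.a11, v.a12, v.a13,
      v.a14, v.a15] [x.a0, x.a1, x.a2, x.a3, x.a4, x.a5, x.a6, x.a7, x.a8, x.a9, x.a10, x.a11,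
      x.a12, x.a13, x.a14, x.a15] := rfl

lemma dN_mod (l : List ℤ) : ∀ m : List ℤ,
    ((dN (l.map enc) (m.map enc) : ℕ) : ℤ) ≡ dZ l m [ZMOD MO] := by
  have he : ∀ x : ℤ, ((enc x : ℕ) : ℤ) ≡ x [ZMOD MO] := by
    intro x
    unfold enc
    have h0 : (0 : ℤ) < MO := by norm_num [MO]
    rw [Int.toNat_of_nonneg (Int.emod_nonneg _ h0.ne')]
    exact Int.mod_modEq x MO
  induction l with
  | nil => intro m; simp [dN, dZ]
  | cons a l ih =>
    intro m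
    cases m with
    | nil => simp [dN, dZ]
    | cons b m =>
      have h1 : dN ((a :: l).map enc) ((b :: m).map enc) =
          enc a * enc b + dN (l.map enc) (m.map enc) := rfl
      rw [h1, dZ]
      push_cast
      exact Int.ModEq.add (Int.ModEq.mul (he a) (he b)) (ih m)

def amin (r : ℕ) : ℕ := if Nat.ble (Nat.mul 2 r) MO then r else Nat.sub MO r

lemma amin_sq (D : ℤ) (r : ℕ) (h : (r : ℤ) ≡ D [ZMOD MO]) :
    ((amin (Nat.mod r MO) : ℕ) : ℤ) * (amin (Nat.mod r MO) : ℕ) ≤ D * D := by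
  have h0 : (0 : ℤ) < MO := by norm_num [MO]
  have h0' : 0 < MO := by norm_num [MO]
  set q := Nat.mod r MO with hq
  have hq1 : q < MO := Nat.mod_lt _ h0'
  have hq2 : (q : ℤ) = D % MO := by
    have e1 : (q : ℤ) = (r : ℤ) % MO := by
      rw [hq]
      exact Int.natCast_mod r MO
    rw [e1]
    exact h
  have hD := Int.emod_add_mul_ediv D MO
  rw [← hq2] at hD
  set k := D / (MO : ℤ) with hk
  have hq3 : (q : ℤ) < MO := by exact_mod_cast hq1
  have hq4 : (0 : ℤ) ≤ q := by positivity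
  have key : ((amin q : ℕ) : ℤ) ≤ |D| := by
    unfold amin
    split_ifs with h1
    · rw [Nat.ble_eq] at h1
      have h2 : 2 * (q : ℤ) ≤ MO := by exact_mod_cast h1
      rcases lt_or_ge k 0 with h3 | h3
      · have : (MO : ℤ) * k ≤ -MO := by nlinarith
        rw [abs_of_neg (by linarith)]
        linarith
      · have : 0 ≤ (MO : ℤ) * k := mul_nonneg h0.le h3
        rw [abs_of_nonneg (by linarith)]
        linarith
    · rw [Nat.ble_eq] at h1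
      have h2 : (MO : ℤ) < 2 * (q : ℤ) := by
        have : ¬ (2 * q ≤ MO) := h1
        exact_mod_cast (not_le.1 this)
      have h5 : ((Nat.sub MO q : ℕ) : ℤ) = MO - q := by
        exact Int.ofNat_sub hq1.le
      rw [h5]
      rcases lt_or_ge k 0 with h3 | h3
      · have : (MO : ℤ) * k ≤ -MO := by nlinarith
        rw [abs_of_neg (by linarith)]
        linarith
      · have : 0 ≤ (MO : ℤ) * k := mul_nonneg h0.le h3
        rw [abs_of_nonneg (by linarith)]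
        linarith
  have h6 : (0 : ℤ) ≤ ((amin q : ℕ) : ℤ) := by positivity
  calc ((amin q : ℕ) : ℤ) * (amin q : ℕ) ≤ |D| * |D| := mul_le_mul key key h6 (abs_nonneg _)
    _ = D * D := abs_mul_abs_self D

def chk1 (X : V16) (P7 : ℕ) (R : ℕ × V16 × V16) : Bool :=
  fN (Nat.mod (R.2.1.dot X) MO) fun x' => fN (Nat.mod (R.2.2.dot X) MO) fun y' =>
  fN (amin x') fun x => fN (amin y') fun y => fN (Nat.mul R.1 P7) fun z =>
  Nat.ble (Nat.mul z z) (Nat.add (Nat.mul x x) (Nat.mul y y))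

def rowN (s N n : ℤ) : ℕ × List ℤ × List ℤ :=
  let P := N * N + n * n
  let v := v5 (s * (N * N - n * n), s * (2 * N * n)) P
  ((6229 * (P * P)).toNat, rws.map (fun r => dRe r v), rws.map (fun r => dIm r v))

def allR {α : Type} (s N : ℤ) (f : List (ℕ × V16 × V16) → α) :
    ℕ → List (ℕ × V16 × V16) → α
  | 0, acc => f acc
  | k + 1, acc =>
    let r := rowN s N ((k : ℤ) - N)
    fN r.1 fun r1 => fL r.2.1 fun r2 => fL r.2.2 fun r3 =>
      ofL (fun v2 => ofL (fun v3 => allR s N f k ((r1, v2, v3) :: acc)) r3) r2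

def allC (X : V16) (P7 : ℕ) : List (ℕ × V16 × V16) → Bool
  | [] => true
  | r :: rs => match chk1 X P7 r with
    | true => allC X P7 rs
    | false => false

def chkM (M s : ℤ) (Rs : List (ℕ × V16 × V16)) (m : ℤ) : Bool :=
  let P := M * M + m * m
  fN ((P ^ 7).toNat) fun P7 =>
  fL (xs (s * (M * M - m * m), s * (2 * M * m)) P 7 (1, 0)) fun X =>
  ofL (fun v => allC v P7 Rs) X

def loop (M s : ℤ) (Rs : List (ℕ × V16 × V16)) (m : ℤ) : ℕ → Bool
  | 0 => true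
  | f + 1 => chkM M s Rs m && loop M s Rs (m + 1) f

/-- `R` is the row of `n` -/
def IsRow (s N n : ℤ) (R : ℕ × V16 × V16) : Prop :=
  R.1 = (rowN s N n).1 ∧
  (rowN s N n).2.1.map enc = [R.2.1.a0, R.2.1.a1, R.2.1.a2, R.2.1.a3, R.2.1.a4, R.2.1.a5,
    R.2.1.a6, R.2.1.a7, R.2.1.a8, R.2.1.a9, R.2.1.a10, R.2.1.a11, R.2.1.a12, R.2.1.a13,
    R.2.1.a14, R.2.1.a15] ∧
  (rowN s N n).2.2.map enc = [R.2.2.a0, R.2.2.a1, R.2.2.a2, R.2.2.a3, R.2.2.a4, R.2.2.a5,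
    R.2.2.a6, R.2.2.a7, R.2.2.a8, R.2.2.a9, R.2.2.a10, R.2.2.a11, R.2.2.a12, R.2.2.a13,
    R.2.2.a14, R.2.2.a15]

lemma allR_spec (s N : ℤ) (f : List (ℕ × V16 × V16) → Bool) (k : ℕ) :
    ∀ acc, allR s N f k acc = true → ∃ Rs, f Rs = true ∧ (∀ r ∈ acc, r ∈ Rs) ∧
      ∀ i : ℕ, i < k → ∃ R ∈ Rs, IsRow s N ((i : ℤ) - N) R := by
  induction k with
  | zero => intro acc h; exact ⟨acc, h, fun r hr => hr, fun i hi => absurd hi (Nat.not_lt_zero i)⟩
  | succ k ih =>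
    intro acc h
    simp only [allR, fN_eq, fL_eq] at h
    obtain ⟨v2, hv2, hl2⟩ := ofL_spec ((rowN s N ((k : ℤ) - N)).2.1.map enc) (by simp [rowN, rws])
    obtain ⟨v3, hv3, hl3⟩ := ofL_spec ((rowN s N ((k : ℤ) - N)).2.2.map enc) (by simp [rowN, rws])
    rw [hv2, hv3] at h
    obtain ⟨Rs, h1, h2, h3⟩ := ih _ h
    refine ⟨Rs, h1, fun r hr => h2 r (List.mem_cons_of_mem _ hr), fun i hi => ?_⟩
    rcases Nat.lt_succ_iff_lt_or_eq.1 hi with hi | rfl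
    · exact h3 i hi
    · exact ⟨_, h2 _ List.mem_cons_self, rfl, hl2, hl3⟩

lemma allC_spec (X : V16) (P7 : ℕ) (Rs : List (ℕ × V16 × V16)) (h : allC X P7 Rs = true) :
    ∀ R ∈ Rs, chk1 X P7 R = true := by
  induction Rs with
  | nil => intro R hR; simp at hR
  | cons r rs ih =>
    unfold allC at h
    cases hc : chk1 X P7 r with
    | false => rw [hc] at h; simp at h
    | true =>
      rw [hc] at h
      intro R hR
      rcases List.mem_cons.1 hR with rfl | hR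
      · exact hc
      · exact ih h R hR

lemma loop_spec (M s : ℤ) (Rs : List (ℕ × V16 × V16)) (f : ℕ) :
    ∀ m, loop M s Rs m f = true → ∀ i : ℕ, i < f → chkM M s Rs (m + i) = true := by
  induction f with
  | zero => intro m _ i hi; exact absurd hi (Nat.not_lt_zero i)
  | succ f ih =>
    intro m h i hi
    simp only [loop, Bool.and_eq_true] at h
    rcases i with _ | i
    · simpa using h.1
    · have := ih (m + 1) h.2 i (by omega)
      have e : m + ((i + 1 : ℕ) : ℤ) = m + 1 + i := by push_cast; ring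
      rw [e]
      exact this

/-- what the check says -/
lemma cell {s t N M n m : ℤ} {R : ℕ × V16 × V16} {Rs : List (ℕ × V16 × V16)} (hR : R ∈ Rs)
    (hrow : IsRow s N n R) (h : chkM M t Rs m = true) (hN : 0 < N) (hM : 0 < M) :
    (6229 * ((N * N + n * n) * (N * N + n * n)) * (M * M + m * m) ^ 7) *
      (6229 * ((N * N + n * n) * (N * N + n * n)) * (M * M + m * m) ^ 7) ≤
      dZ (rws.map fun r => dRe r (v5 (s * (N * N - n * n), s * (2 * N * n)) (N * N + n * n)))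
        (xs (t * (M * M - m * m), t * (2 * M * m)) (M * M + m * m) 7 (1, 0)) *
      dZ (rws.map fun r => dRe r (v5 (s * (N * N - n * n), s * (2 * N * n)) (N * N + n * n)))
        (xs (t * (M * M - m * m), t * (2 * M * m)) (M * M + m * m) 7 (1, 0)) +
      dZ (rws.map fun r => dIm r (v5 (s * (N * N - n * n), s * (2 * N * n)) (N * N + n * n)))
        (xs (t * (M * M - m * m), t * (2 * M * m)) (M * M + m * m) 7 (1, 0)) *
      dZ (rws.map fun r => dIm r (v5 (s * (N * N - n * n), s * (2 * N * n)) (N * N + n * n)))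
        (xs (t * (M * M - m * m), t * (2 * M * m)) (M * M + m * m) 7 (1, 0)) := by
  simp only [chkM, fN_eq, fL_eq] at h
  obtain ⟨v, hv, hl⟩ := ofL_spec
    ((xs (t * (M * M - m * m), t * (2 * M * m)) (M * M + m * m) 7 (1, 0)).map enc) (by simp [xs])
  rw [hv] at h
  have h1 := allC_spec _ _ _ h R hR
  simp only [chk1, fN_eq, Nat.ble_eq] at h1
  obtain ⟨hr1, hr2, hr3⟩ := hrow
  rw [dot_dN, dot_dN, ← hl, ← hr2, ← hr3] at h1
  have h2 := amin_sq _ _ (dN_mod (rowN s N n).2.1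
    (xs (t * (M * M - m * m), t * (2 * M * m)) (M * M + m * m) 7 (1, 0)))
  have h3 := amin_sq _ _ (dN_mod (rowN s N n).2.2
    (xs (t * (M * M - m * m), t * (2 * M * m)) (M * M + m * m) 7 (1, 0)))
  rw [hr1] at h1
  have hP : 0 < N * N + n * n := add_pos_of_pos_of_nonneg (mul_pos hN hN) (mul_self_nonneg n)
  have hQ : 0 < M * M + m * m := add_pos_of_pos_of_nonneg (mul_pos hM hM) (mul_self_nonneg m)
  have e1 : (((rowN s N n).1 : ℕ) : ℤ) = 6229 * ((N * N + n * n) * (N * N + n * n)) := by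
    simp only [rowN]
    rw [Int.toNat_of_nonneg (by positivity)]
  have e2 : ((((M * M + m * m) ^ 7).toNat : ℕ) : ℤ) = (M * M + m * m) ^ 7 :=
    Int.toNat_of_nonneg (by positivity)
  have h4 := Int.ofNat_le.2 h1
  refine le_trans (le_of_eq ?_) (h4.trans (le_trans (le_of_eq ?_) (add_le_add h2 h3)))
  · rw [← e1, ← e2]
    rfl
  · rfl

theorem chk_pp : allR 1 25 (fun Rs => loop 85 1 Rs (-85) 171) 51 [] = true := by decide +kernel

theorem chk_pm : allR 1 25 (fun Rs => loop 85 (-1) Rs (-85) 171) 51 [] = true := by decide +kernel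

theorem chk_mp : allR (-1) 25 (fun Rs => loop 85 1 Rs (-85) 171) 51 [] = true := by decide +kernel

theorem chk_mm : allR (-1) 25 (fun Rs => loop 85 (-1) Rs (-85) 171) 51 [] = true := by
  decide +kernel

lemma chk_all {s t : ℤ} (hs : s = 1 ∨ s = -1) (ht : t = 1 ∨ t = -1) :
    allR s 25 (fun Rs => loop 85 t Rs (-85) 171) 51 [] = true := by
  rcases hs with rfl | rfl <;> rcases ht with rfl | rfl
  · exact chk_pp
  · exact chk_pm
  · exact chk_mp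
  · exact chk_mm

/-- the net point -/
noncomputable def np (s N n : ℤ) : ℂ :=
  tC (s * (N * N - n * n), s * (2 * N * n)) / ((N * N + n * n : ℤ) : ℂ)

lemma np_mul {s N n : ℤ} (hN : 0 < N) :
    tC (s * (N * N - n * n), s * (2 * N * n)) = np s N n * ((N * N + n * n : ℤ) : ℂ) := by
  have hP : 0 < N * N + n * n := add_pos_of_pos_of_nonneg (mul_pos hN hN) (mul_self_nonneg n)
  have h : ((N * N + n * n : ℤ) : ℂ) ≠ 0 := by exact_mod_cast hP.ne'
  unfold np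
  rw [div_mul_cancel₀ _ h]

lemma np_norm {s N n : ℤ} (hs : s = 1 ∨ s = -1) (hN : 0 < N) : ‖np s N n‖ = 1 := by
  have hP : 0 < N * N + n * n := add_pos_of_pos_of_nonneg (mul_pos hN hN) (mul_self_nonneg n)
  have hP' : (0 : ℝ) < ((N * N + n * n : ℤ) : ℝ) := by exact_mod_cast hP
  have h1 : ‖tC (s * (N * N - n * n), s * (2 * N * n))‖ ^ 2 = ((N * N + n * n : ℤ) : ℝ) ^ 2 := by
    rw [Complex.sq_norm, Complex.normSq_apply, tC_re, tC_im]
    rcases hs with rfl | rfl <;> push_cast <;> ring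
  have h2 : ‖tC (s * (N * N - n * n), s * (2 * N * n))‖ = ((N * N + n * n : ℤ) : ℝ) := by
    have h3 := abs_eq_abs.2 (sq_eq_sq_iff_eq_or_eq_neg.1 h1)
    rwa [abs_of_nonneg (norm_nonneg _), abs_of_pos hP'] at h3
  unfold np
  rw [norm_div, h2, Complex.norm_intCast, abs_of_pos hP', div_self hP'.ne']

lemma net (N : ℤ) (hN : 0 < N) (V : ℂ) (hV : ‖V‖ = 1) : ∃ s : ℤ, (s = 1 ∨ s = -1) ∧
    ∃ n : ℤ, -N ≤ n ∧ n ≤ N ∧ ‖V - np s N n‖ ≤ 1 / N := by
  have hN' : (0 : ℝ) < N := by exact_mod_cast hN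
  have hV2 : V.re ^ 2 + V.im ^ 2 = 1 := by
    have : ‖V‖ ^ 2 = V.re ^ 2 + V.im ^ 2 := by
      rw [Complex.sq_norm, Complex.normSq_apply]; ring
    rw [← this, hV, one_pow]
  obtain ⟨s, hs, hx⟩ : ∃ s : ℤ, (s = 1 ∨ s = -1) ∧ 0 ≤ (s : ℝ) * V.re := by
    rcases le_total 0 V.re with h | h
    · exact ⟨1, Or.inl rfl, by simpa using h⟩
    · exact ⟨-1, Or.inr rfl, by simpa using h⟩
  refine ⟨s, hs, ?_⟩
  have hs2 : (s : ℝ) ^ 2 = 1 := by rcases hs with rfl | rfl <;> norm_num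
  set x : ℝ := s * V.re with hxd
  set y : ℝ := s * V.im with hyd
  have hxy : x ^ 2 + y ^ 2 = 1 := by
    rw [hxd, hyd, mul_pow, mul_pow, hs2, one_mul, one_mul, hV2]
  set T : ℝ := y / (1 + x) with hT
  have hx1 : 0 < 1 + x := by linarith
  have hyT : y = T * (1 + x) := by rw [hT]; field_simp
  have hy1 : |y| ≤ 1 := by
    rw [abs_le]
    constructor <;> nlinarith
  have hT1 : |T| ≤ 1 := by
    rw [hT, abs_div, abs_of_pos hx1]
    exact (div_le_one hx1).2 (by linarith)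
  have hT2 := abs_le.1 hT1
  -- parametrisation
  have hq : (1 + x) * (1 + T ^ 2) = 2 := by
    have h1 : (1 + x) * ((1 + x) * (1 + T ^ 2)) = (1 + x) * 2 := by
      have : (1 + x) * ((1 + x) * (1 + T ^ 2)) = (1 + x) ^ 2 + (T * (1 + x)) ^ 2 := by ring
      rw [this, ← hyT]
      nlinarith
    exact mul_left_cancel₀ hx1.ne' h1
  obtain ⟨n, hn1, hn2, hn3⟩ : ∃ n : ℤ, -N ≤ n ∧ n ≤ N ∧ |T - n / N| ≤ 1 / (2 * N) := by
    have h1 := abs_sub_round (T * N)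
    refine ⟨round (T * N), ?_, ?_, ?_⟩
    · have h2 : ((-N : ℤ) : ℝ) ≤ T * N := by push_cast; nlinarith
      have h3 : (-(N : ℝ)) - 1 / 2 ≤ (round (T * N) : ℝ) := by
        have := (abs_le.1 h1).2
        push_cast at h2
        linarith
      by_contra hcon
      push Not at hcon
      have h4 : round (T * N) ≤ -N - 1 := by omega
      have h5 : (round (T * N) : ℝ) ≤ -(N : ℝ) - 1 := by exact_mod_cast h4
      linarith
    · have h2 : T * N ≤ (N : ℝ) := by nlinarith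
      have h3 : (round (T * N) : ℝ) ≤ (N : ℝ) + 1 / 2 := by
        have := (abs_le.1 h1).1
        linarith
      by_contra hcon
      push Not at hcon
      have h4 : N + 1 ≤ round (T * N) := by omega
      have h5 : (N : ℝ) + 1 ≤ (round (T * N) : ℝ) := by exact_mod_cast h4
      linarith
    · have h2 : T - (round (T * N) : ℝ) / N = (T * N - round (T * N)) / N := by
        field_simp
      rw [h2, abs_div, abs_of_pos hN', div_le_div_iff₀ hN' (by positivity)]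
      nlinarith
  refine ⟨n, hn1, hn2, ?_⟩
  set τ : ℝ := n / N with hτ
  have hnN : (n : ℝ) = τ * N := by rw [hτ]; field_simp
  have hTT : (0 : ℝ) < 1 + T ^ 2 := by positivity
  have hττ : (0 : ℝ) < 1 + τ ^ 2 := by positivity
  have hxT : x = (1 - T ^ 2) / (1 + T ^ 2) := by
    rw [eq_div_iff hTT.ne']; nlinarith
  have hyT' : y = 2 * T / (1 + T ^ 2) := by
    rw [eq_div_iff hTT.ne', hyT]
    have : T * (1 + x) * (1 + T ^ 2) = T * ((1 + x) * (1 + T ^ 2)) := by ring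
    rw [this, hq]; ring
  have hVr : V.re = s * x := by rw [hxd, ← mul_assoc, ← sq, hs2, one_mul]
  have hVi : V.im = s * y := by rw [hyd, ← mul_assoc, ← sq, hs2, one_mul]
  have hnp : np s N n = (((s : ℝ) * ((1 - τ ^ 2) / (1 + τ ^ 2)) : ℝ) : ℂ) +
      (((s : ℝ) * (2 * τ / (1 + τ ^ 2)) : ℝ) : ℂ) * I := by
    have hNN : ((N * N + n * n : ℤ) : ℝ) = N ^ 2 * (1 + τ ^ 2) := by
      push_cast; rw [hnN]; ring
    have hP0 : ((N * N + n * n : ℤ) : ℂ) = ((N ^ 2 * (1 + τ ^ 2) : ℝ) : ℂ) := by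
      rw [← hNN]; push_cast; ring
    have hz : (N ^ 2 * (1 + τ ^ 2) : ℝ) ≠ 0 := by positivity
    have e1 : ((s * (N * N - n * n) : ℤ) : ℝ) =
        ((s : ℝ) * ((1 - τ ^ 2) / (1 + τ ^ 2))) * (N ^ 2 * (1 + τ ^ 2)) := by
      push_cast; rw [hnN]; field_simp
    have e2 : ((s * (2 * N * n) : ℤ) : ℝ) =
        ((s : ℝ) * (2 * τ / (1 + τ ^ 2))) * (N ^ 2 * (1 + τ ^ 2)) := by
      push_cast; rw [hnN]; field_simp
    unfold np
    rw [hP0, div_eq_iff (by exact_mod_cast hz), tC]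
    have e1' : (((s * (N * N - n * n) : ℤ) : ℂ)) =
        ((((s : ℝ) * ((1 - τ ^ 2) / (1 + τ ^ 2))) * (N ^ 2 * (1 + τ ^ 2)) : ℝ) : ℂ) := by
      rw [← e1]; push_cast; ring
    have e2' : (((s * (2 * N * n) : ℤ) : ℂ)) =
        ((((s : ℝ) * (2 * τ / (1 + τ ^ 2))) * (N ^ 2 * (1 + τ ^ 2)) : ℝ) : ℂ) := by
      rw [← e2]; push_cast; ring
    simp only
    rw [e1', e2', Complex.ofReal_mul _ (N ^ 2 * (1 + τ ^ 2) : ℝ),
      Complex.ofReal_mul _ (N ^ 2 * (1 + τ ^ 2) : ℝ)]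
    ring
  have hsq : ‖V - np s N n‖ ^ 2 = 4 * (T - τ) ^ 2 / ((1 + T ^ 2) * (1 + τ ^ 2)) := by
    rw [Complex.sq_norm, Complex.normSq_apply, Complex.sub_re, Complex.sub_im, hnp]
    simp only [Complex.add_re, Complex.add_im, Complex.ofReal_re, Complex.ofReal_im,
      Complex.mul_re, Complex.mul_im, Complex.I_re, Complex.I_im, mul_zero, mul_one,
      zero_add, add_zero, sub_self]
    rw [hVr, hVi, hxT, hyT']
    have e : ∀ a b c d : ℝ, ((s : ℝ) * a - s * b) * (s * a - s * b) +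
        (s * c - s * d) * (s * c - s * d) = (s : ℝ) ^ 2 * ((a - b) ^ 2 + (c - d) ^ 2) := by
      intros; ring
    rw [e, hs2, one_mul]
    field_simp
    ring
  have hle : ‖V - np s N n‖ ^ 2 ≤ (2 * |T - τ|) ^ 2 := by
    rw [hsq, mul_pow, sq_abs, div_le_iff₀ (by positivity)]
    have h0 := mul_nonneg (sq_nonneg T) (sq_nonneg τ)
    have h0' := sq_nonneg T
    have h0'' := sq_nonneg τ
    have h1 : (1 : ℝ) ≤ (1 + T ^ 2) * (1 + τ ^ 2) := by
      have : (1 + T ^ 2) * (1 + τ ^ 2) = 1 + T ^ 2 + τ ^ 2 + T ^ 2 * τ ^ 2 := by ring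
      linarith
    have h3 : (0 : ℝ) ≤ 2 ^ 2 * (T - τ) ^ 2 := by positivity
    have h2 := mul_le_mul_of_nonneg_left h1 h3
    linarith
  have h2 := (le_abs_self _).trans (abs_le_of_sq_le_sq hle (by positivity))
  refine h2.trans ?_
  have h3 : 2 * |T - τ| ≤ 2 * (1 / (2 * N)) := by linarith
  refine h3.trans (le_of_eq ?_)
  field_simp

theorem G0_net {s t n m : ℤ} (hs : s = 1 ∨ s = -1) (ht : t = 1 ∨ t = -1)
    (hn1 : -25 ≤ n) (hn2 : n ≤ 25) (hm1 : -85 ≤ m) (hm2 : m ≤ 85) :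
    6229 ≤ 12800 * ‖G0 (np s 25 n) (np t 85 m)‖ := by
  obtain ⟨Rs, h1, -, h2⟩ := allR_spec s 25 _ 51 [] (chk_all hs ht)
  obtain ⟨R, hR, hrow⟩ := h2 (n + 25).toNat (by omega)
  have e1 : (((n + 25).toNat : ℕ) : ℤ) - 25 = n := by omega
  rw [e1] at hrow
  have h3 := loop_spec 85 t Rs 171 (-85) h1 (m + 85).toNat (by omega)
  have e2 : (-85 : ℤ) + (((m + 85).toNat : ℕ) : ℤ) = m := by omega
  rw [e2] at h3
  have h4 := cell hR hrow h3 (by norm_num) (by norm_num)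
  exact net_val (add_pos_of_pos_of_nonneg (by norm_num) (mul_self_nonneg n))
    (add_pos_of_pos_of_nonneg (by norm_num) (mul_self_nonneg m))
    (np_mul (by norm_num)) (np_mul (by norm_num)) (np_norm hs (by norm_num))
    (np_norm ht (by norm_num)) h4

theorem G0_lower (V W : ℂ) (hV : ‖V‖ = 1) (hW : ‖W‖ = 1) : (1 / 50 : ℝ) ≤ ‖G0 V W‖ := by
  obtain ⟨s, hs, n, hn1, hn2, hn⟩ := net 25 (by norm_num) V hV
  obtain ⟨t, ht, m, hm1, hm2, hm⟩ := net 85 (by norm_num) W hW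
  have h1 := G0_net hs ht hn1 hn2 hm1 hm2
  have h2 := G0_lip hV hW (np_norm (n := n) hs (show (0 : ℤ) < 25 by norm_num))
    (np_norm (n := m) ht (show (0 : ℤ) < 85 by norm_num))
  push_cast at hn hm
  have h3 : ‖G0 (np s 25 n) (np t 85 m)‖ ≤ ‖G0 V W‖ + ‖G0 V W - G0 (np s 25 n) (np t 85 m)‖ := by
    have := norm_sub_le (G0 V W) (G0 V W - G0 (np s 25 n) (np t 85 m))
    rwa [sub_sub_cancel] at this
  linarith

end Pool.Agent.TH889.LWG
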