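import Pool.Agent.TH279.RI.DefsX

/-! Job 597 (RI-COMPARE): comparison of rearrangement-invariant norms of simple functions. -/

set_option autoImplicit false

open MeasureTheory
open scoped ENNReal NNReal

namespace Pool.Agent.TH889.J597

open Pool.Agent.TH279.RI Set Filter

variable {d : ℕ}

/-- Lebesgue measure is nonatomic: a measurable set of finite measure has measurable subsets of
every smaller measure. -/
lemma exists_subset (hd : 0 < d) {A : Set (Fin d → ℝ)} (hA : MeasurableSet A)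
    (hfin : volume A < ∞) {s : ℝ≥0∞} (hs : s ≤ volume A) :
    ∃ B ⊆ A, MeasurableSet B ∧ volume B = s := by
  rcases hs.eq_or_lt with rfl | hs
  · exact ⟨A, Subset.rfl, hA, rfl⟩
  let i0 : Fin d := ⟨0, hd⟩
  let ν : Measure ℝ := (volume.restrict A).map (fun x : Fin d → ℝ => x i0)
  have hm : Measurable (fun x : Fin d → ℝ => x i0) := measurable_pi_apply i0
  have hν : ∀ S : Set ℝ, MeasurableSet S → ν S = volume ({x : Fin d → ℝ | x i0 ∈ S} ∩ A) := by
    intro S hS
    rw [Measure.map_apply hm hS, Measure.restrict_apply (hm hS)]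
    rfl
  have hνuniv : ν univ = volume A := by
    rw [hν univ MeasurableSet.univ]; simp
  have : IsFiniteMeasure ν := ⟨by rw [hνuniv]; exact hfin⟩
  have : NullSingletonClass ν := ⟨fun x => by
    rw [hν {x} (measurableSet_singleton x)]
    refine measure_mono_null inter_subset_left ?_
    have := Measure.pi_hyperplane (fun _ : Fin d => (volume : Measure ℝ)) i0 x
    simpa [volume_pi] using this⟩
  have hlim : Tendsto (fun n : ℕ => ν (Ioc (-(n : ℝ)) n)) atTop (nhds (ν univ)) := by
    have hU : (⋃ n : ℕ, Ioc (-(n : ℝ)) n) = univ := by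
      refine eq_univ_of_forall fun x => mem_iUnion.2 ?_
      obtain ⟨n, hn⟩ := exists_nat_gt |x|
      exact ⟨n, by have := abs_lt.1 hn; exact this.1, (abs_lt.1 hn).2.le⟩
    rw [← hU]
    refine tendsto_measure_iUnion_atTop ?_
    intro m n hmn
    have : (m : ℝ) ≤ n := by exact_mod_cast hmn
    exact Ioc_subset_Ioc (by linarith) this
  rw [hνuniv] at hlim
  obtain ⟨n, hn⟩ := (hlim.eventually (lt_mem_nhds hs)).exists
  have hcont : Continuous fun b => ∫ _ in (-(n : ℝ))..b, (1 : ℝ) ∂ν :=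
    (integrable_const (1 : ℝ)).continuous_primitive _
  have hval : ∀ b : ℝ, -(n : ℝ) ≤ b → ∫ _ in (-(n : ℝ))..b, (1 : ℝ) ∂ν =
      (ν (Ioc (-(n : ℝ)) b)).toReal := by
    intro b hb
    rw [intervalIntegral.integral_of_le hb]
    simp [Measure.real]
  have hnn : -(n : ℝ) ≤ n := by
    have : (0 : ℝ) ≤ n := Nat.cast_nonneg n
    linarith
  have hsfin : s ≠ ∞ := (hs.trans hfin).ne
  have hmem : s.toReal ∈ Icc (∫ _ in (-(n : ℝ))..(-(n : ℝ)), (1 : ℝ) ∂ν)
      (∫ _ in (-(n : ℝ))..(n : ℝ), (1 : ℝ) ∂ν) := by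
    constructor
    · rw [intervalIntegral.integral_same]; exact ENNReal.toReal_nonneg
    · rw [hval n hnn]
      exact ENNReal.toReal_mono (measure_ne_top _ _) hn.le
  obtain ⟨b, hb, hbe⟩ := intermediate_value_Icc hnn hcont.continuousOn hmem
  refine ⟨{x : Fin d → ℝ | x i0 ∈ Ioc (-(n : ℝ)) b} ∩ A, inter_subset_right,
    (hm measurableSet_Ioc).inter hA, ?_⟩
  rw [← hν _ measurableSet_Ioc]
  have h1 := hbe
  simp only at h1
  rw [hval b hb.1] at h1
  rw [← ENNReal.ofReal_toReal (measure_ne_top ν (Ioc (-(n : ℝ)) b)), h1,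
    ENNReal.ofReal_toReal hsfin]

lemma level (J : Finset ℤ) (c : ℤ → ℝ≥0) (A : ℤ → Set (Fin d → ℝ))
    (hd : ∀ m ∈ J, ∀ n ∈ J, m ≠ n → Disjoint (A m) (A n)) (t : ℝ≥0∞) :
    {x | t < ∑ m ∈ J, (A m).indicator (fun _ => (c m : ℝ≥0∞)) x} =
      ⋃ m ∈ J.filter (fun m => t < (c m : ℝ≥0∞)), A m := by
  ext x
  simp only [mem_ofPred_eq, mem_iUnion, Finset.mem_filter, exists_prop]
  by_cases hx : ∃ m ∈ J, x ∈ A m
  · obtain ⟨m, hm, hxm⟩ := hx
    have hsum : ∑ m ∈ J, (A m).indicator (fun _ => (c m : ℝ≥0∞)) x = c m := by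
      rw [Finset.sum_eq_single_of_mem m hm]
      · exact indicator_of_mem hxm _
      · intro n hn hnm
        exact indicator_of_notMem (fun h => (hd n hn m hm hnm).le_bot ⟨h, hxm⟩) _
    rw [hsum]
    constructor
    · intro h; exact ⟨m, ⟨hm, h⟩, hxm⟩
    · rintro ⟨n, ⟨hn, hlt⟩, hxn⟩
      by_cases hnm : n = m
      · rw [← hnm]; exact hlt
      · exact absurd ⟨hxn, hxm⟩ (fun h => (hd n hn m hm hnm).le_bot h)
  · have hsum : ∑ m ∈ J, (A m).indicator (fun _ => (c m : ℝ≥0∞)) x = 0 := by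
      refine Finset.sum_eq_zero fun m hm => ?_
      exact indicator_of_notMem (fun h => hx ⟨m, hm, h⟩) _
    rw [hsum]
    constructor
    · intro h; exact absurd h not_lt_zero
    · rintro ⟨n, ⟨hn, _⟩, hxn⟩
      exact absurd ⟨n, hn, hxn⟩ hx

lemma measurable_sum (J : Finset ℤ) (c : ℤ → ℝ≥0) (A : ℤ → Set (Fin d → ℝ))
    (hA : ∀ m, MeasurableSet (A m)) :
    Measurable fun x => ∑ m ∈ J, (A m).indicator (fun _ => (c m : ℝ≥0∞)) x :=
  Finset.measurable_fun_sum _ fun m _ => (measurable_const).indicator (hA m)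

lemma rho_eq (X : RINorm d) (J : Finset ℤ) (c : ℤ → ℝ≥0) (A B : ℤ → Set (Fin d → ℝ))
    (hA : ∀ m, MeasurableSet (A m)) (hB : ∀ m, MeasurableSet (B m))
    (hAd : ∀ m ∈ J, ∀ n ∈ J, m ≠ n → Disjoint (A m) (A n))
    (hBd : ∀ m ∈ J, ∀ n ∈ J, m ≠ n → Disjoint (B m) (B n))
    (hvol : ∀ m ∈ J, volume (A m) = volume (B m)) :
    X.ρ (fun x => ∑ m ∈ J, (A m).indicator (fun _ => (c m : ℝ≥0∞)) x) =
      X.ρ (fun x => ∑ m ∈ J, (B m).indicator (fun _ => (c m : ℝ≥0∞)) x) := by
  refine X.rearr _ _ (measurable_sum J c A hA) (measurable_sum J c B hB) fun t => ?_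
  rw [level J c A hAd t, level J c B hBd t, measure_biUnion_finset, measure_biUnion_finset]
  · refine Finset.sum_congr rfl fun m hm => hvol m (Finset.mem_filter.1 hm).1
  · intro m hm n hn hmn
    exact hBd m (Finset.mem_filter.1 hm).1 n (Finset.mem_filter.1 hn).1 hmn
  · intro m _; exact hB m
  · intro m hm n hn hmn
    exact hAd m (Finset.mem_filter.1 hm).1 n (Finset.mem_filter.1 hn).1 hmn
  · intro m _; exact hA m

theorem RINorm.compare {d : ℕ} (hd : 0 < d) (X : RINorm d) (D : ℕ) (J : Finset ℤ) (c : ℤ → ℝ≥0)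
    (G P : ℤ → Set (Fin d → ℝ))
    (hG : ∀ m, MeasurableSet (G m)) (hP : ∀ m, MeasurableSet (P m))
    (hGd : ∀ m ∈ J, ∀ n ∈ J, m ≠ n → Disjoint (G m) (G n))
    (hPd : ∀ m ∈ J, ∀ n ∈ J, m ≠ n → Disjoint (P m) (P n))
    (hfin : ∀ m ∈ J, volume (P m) < ∞)
    (hvol : ∀ m ∈ J, volume (G m) ≤ D * volume (P m)) :
    X.ρ (fun x => ∑ m ∈ J, (G m).indicator (fun _ => (c m : ℝ≥0∞)) x) ≤
      D * X.ρ (fun x => ∑ m ∈ J, (P m).indicator (fun _ => (c m : ℝ≥0∞)) x) := by
  induction D generalizing G with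
  | zero =>
    have h0 : X.ρ (fun x => ∑ m ∈ J, (G m).indicator (fun _ => (c m : ℝ≥0∞)) x) = 0 := by
      rw [X.zero_iff _ (measurable_sum J c G hG)]
      have hnull : volume (⋃ m ∈ J, G m) = 0 := by
        refine (measure_biUnion_null_iff J.countable_toSet).2 ?_
        intro m hm
        have := hvol m hm
        simpa using this
      filter_upwards [measure_eq_zero_iff_ae_notMem.1 hnull] with x hx
      refine Finset.sum_eq_zero fun m hm => ?_
      refine indicator_of_notMem (fun h => hx ?_) _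
      exact mem_biUnion hm h
    rw [h0]; exact bot_le
  | succ D ih =>
    have hGfin : ∀ m ∈ J, volume (G m) < ∞ := fun m hm =>
      (hvol m hm).trans_lt (ENNReal.mul_lt_top (by simp) (hfin m hm))
    have h1 : ∀ m, ∃ B, B ⊆ G m ∧ MeasurableSet B ∧
        (m ∈ J → volume B = min (volume (G m)) (volume (P m))) := by
      intro m
      by_cases hm : m ∈ J
      · obtain ⟨B, hB1, hB2, hB3⟩ := exists_subset hd (hG m) (hGfin m hm)
          (min_le_left (volume (G m)) (volume (P m)))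
        exact ⟨B, hB1, hB2, fun _ => hB3⟩
      · exact ⟨∅, empty_subset _, MeasurableSet.empty, fun h => absurd h hm⟩
    choose G' hG'1 hG'2 hG'3 using h1
    have h2 : ∀ m, ∃ B, B ⊆ P m ∧ MeasurableSet B ∧
        (m ∈ J → volume B = min (volume (G m)) (volume (P m))) := by
      intro m
      by_cases hm : m ∈ J
      · obtain ⟨B, hB1, hB2, hB3⟩ := exists_subset hd (hP m) (hfin m hm)
          (min_le_right (volume (G m)) (volume (P m)))
        exact ⟨B, hB1, hB2, fun _ => hB3⟩
      · exact ⟨∅, empty_subset _, MeasurableSet.empty, fun h => absurd h hm⟩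
    choose P' hP'1 hP'2 hP'3 using h2
    have hsplit : (fun x => ∑ m ∈ J, (G m).indicator (fun _ => (c m : ℝ≥0∞)) x) =
        fun x => (∑ m ∈ J, (G' m).indicator (fun _ => (c m : ℝ≥0∞)) x) +
          ∑ m ∈ J, (G m \ G' m).indicator (fun _ => (c m : ℝ≥0∞)) x := by
      funext x
      rw [← Finset.sum_add_distrib]
      refine Finset.sum_congr rfl fun m _ => ?_
      by_cases hx : x ∈ G' m
      · have hx' : x ∉ G m \ G' m := fun h => h.2 hx
        rw [indicator_of_mem (hG'1 m hx), indicator_of_mem hx, indicator_of_notMem hx', add_zero]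
      · by_cases hxG : x ∈ G m
        · rw [indicator_of_mem hxG, indicator_of_notMem hx,
            indicator_of_mem (show x ∈ G m \ G' m from ⟨hxG, hx⟩), zero_add]
        · rw [indicator_of_notMem hxG, indicator_of_notMem hx,
            indicator_of_notMem (fun h => hxG h.1), add_zero]
    rw [hsplit]
    refine (X.add_le _ _ (measurable_sum J c G' hG'2)
      (measurable_sum J c _ fun m => (hG m).diff (hG'2 m))).trans ?_
    have e1 : X.ρ (fun x => ∑ m ∈ J, (G' m).indicator (fun _ => (c m : ℝ≥0∞)) x) ≤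
        X.ρ (fun x => ∑ m ∈ J, (P m).indicator (fun _ => (c m : ℝ≥0∞)) x) := by
      rw [rho_eq X J c G' P' hG'2 hP'2
        (fun m hm n hn hmn => (hGd m hm n hn hmn).mono (hG'1 m) (hG'1 n))
        (fun m hm n hn hmn => (hPd m hm n hn hmn).mono (hP'1 m) (hP'1 n))
        (fun m hm => (hG'3 m hm).trans (hP'3 m hm).symm)]
      refine X.mono _ _ (measurable_sum J c P' hP'2) (measurable_sum J c P hP)
        (Filter.Eventually.of_forall fun x => ?_)
      exact Finset.sum_le_sum fun m _ =>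
        indicator_le_indicator_of_subset (hP'1 m) (fun _ => bot_le) x
    have e2 := ih (fun m => G m \ G' m) (fun m => (hG m).diff (hG'2 m))
      (fun m hm n hn hmn => (hGd m hm n hn hmn).mono sdiff_subset sdiff_subset)
      (fun m hm => by
        have hlt : volume (G' m) ≠ ∞ :=
          ((measure_mono (hG'1 m)).trans_lt (hGfin m hm)).ne
        rw [measure_sdiff (hG'1 m) (hG'2 m).nullMeasurableSet hlt, hG'3 m hm]
        rcases le_total (volume (G m)) (volume (P m)) with h | h
        · rw [min_eq_left h, tsub_self]; exact bot_le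
        · rw [min_eq_right h, tsub_le_iff_right]
          have := hvol m hm
          push_cast at this
          rwa [add_mul, one_mul] at this)
    calc _ ≤ X.ρ (fun x => ∑ m ∈ J, (P m).indicator (fun _ => (c m : ℝ≥0∞)) x) +
          D * X.ρ (fun x => ∑ m ∈ J, (P m).indicator (fun _ => (c m : ℝ≥0∞)) x) :=
          add_le_add e1 e2
      _ = _ := by push_cast; ring

end Pool.Agent.TH889.J597
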