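import Mathlib
import Pool.Agent.TH597.FD.Stm

set_option autoImplicit false

namespace Pool.Agent.TH889.FD_SEP

open MeasureTheory Set Metric Filter
open Pool.Agent.TH597.FD

/-- two balls which are apart in both coordinates -/
theorem sep_aux {m k : ℕ} (x₀ y₀ : E m × E k) (ρ : ℝ) (h1 : 4 * ρ ≤ ‖x₀.1 - y₀.1‖)
    (h2 : 4 * ρ ≤ ‖x₀.2 - y₀.2‖) (hρ : 0 < ρ) (x y : E m × E k) (hx : x ∈ closedBall x₀ ρ)
    (hy : y ∈ closedBall y₀ ρ) : ρ ^ 2 ≤ v1 (x, y) ∧ ρ ^ 2 ≤ v2 (x, y) := by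
  rw [mem_closedBall, Prod.dist_eq] at hx hy
  have a1 : ‖x.1 - x₀.1‖ ≤ ρ := by
    rw [← dist_eq_norm]; exact (le_max_left _ _).trans hx
  have a2 : ‖x.2 - x₀.2‖ ≤ ρ := by
    rw [← dist_eq_norm]; exact (le_max_right _ _).trans hx
  have b1 : ‖y.1 - y₀.1‖ ≤ ρ := by
    rw [← dist_eq_norm]; exact (le_max_left _ _).trans hy
  have b2 : ‖y.2 - y₀.2‖ ≤ ρ := by
    rw [← dist_eq_norm]; exact (le_max_right _ _).trans hy
  have c1 : ρ ≤ ‖x.1 - y.1‖ := by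
    have e : x₀.1 - y₀.1 = (x.1 - y.1) - (x.1 - x₀.1) + (y.1 - y₀.1) := by abel
    have t1 := norm_add_le ((x.1 - y.1) - (x.1 - x₀.1)) (y.1 - y₀.1)
    have t2 := norm_sub_le (x.1 - y.1) (x.1 - x₀.1)
    rw [← e] at t1
    linarith
  have c2 : ρ ≤ ‖x.2 - y.2‖ := by
    have e : x₀.2 - y₀.2 = (x.2 - y.2) - (x.2 - x₀.2) + (y.2 - y₀.2) := by abel
    have t1 := norm_add_le ((x.2 - y.2) - (x.2 - x₀.2)) (y.2 - y₀.2)
    have t2 := norm_sub_le (x.2 - y.2) (x.2 - x₀.2)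
    rw [← e] at t1
    linarith
  exact ⟨pow_le_pow_left₀ hρ.le c1 2, pow_le_pow_left₀ hρ.le c2 2⟩

/-- separation of a product measure or one fibre -/
theorem sep : Pool.Agent.TH597.FD.SEP := by
  intro m k μ _
  classical
  by_cases hU : (μ.prod μ) {p : (E m × E k) × (E m × E k) | p.1.1 ≠ p.2.1 ∧ p.1.2 ≠ p.2.2} = 0
  · right
    by_contra hcon
    rw [not_or] at hcon
    obtain ⟨hA, hB⟩ := hcon
    have h1 : ∀ᵐ p ∂(μ.prod μ), ¬ (p.1.1 ≠ p.2.1 ∧ p.1.2 ≠ p.2.2) :=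
      measure_eq_zero_iff_ae_notMem.1 hU
    have h2 : ∀ᵐ x ∂μ, ∀ᵐ y ∂μ, ¬ (x.1 ≠ y.1 ∧ x.2 ≠ y.2) := Measure.ae_ae_of_ae_prod h1
    obtain ⟨x, hx⟩ := h2.exists
    have h3 : ∃ᶠ y in ae μ, y.2 ≠ x.2 := by
      intro h
      apply hB
      refine ⟨x.2, ?_⟩
      filter_upwards [h] with y hy
      simpa using hy
    obtain ⟨y, hy1, hy2, hy3⟩ := (h3.and_eventually (h2.and hx)).exists
    have hxy : x.1 = y.1 := by
      by_contra hne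
      exact hy3 ⟨hne, fun h => hy1 h.symm⟩
    apply hA
    refine ⟨x.1, ?_⟩
    filter_upwards [hx, hy2] with z hz1 hz2
    by_contra hne
    have e1 : x.2 = z.2 := by
      by_contra h
      exact hz1 ⟨fun h' => hne h'.symm, h⟩
    have e2 : y.2 = z.2 := by
      by_contra h
      exact hz2 ⟨fun h' => hne (by rw [hxy]; exact h'.symm), h⟩
    exact hy1 (e2.trans e1.symm)
  · left
    obtain ⟨p, hp, hp2⟩ := exists_mem_forall_mem_nhdsWithin_pos_measure hU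
    obtain ⟨x₀, y₀⟩ := p
    obtain ⟨g1, g2⟩ := hp
    have n1 : 0 < ‖x₀.1 - y₀.1‖ := norm_pos_iff.2 (sub_ne_zero.2 g1)
    have n2 : 0 < ‖x₀.2 - y₀.2‖ := norm_pos_iff.2 (sub_ne_zero.2 g2)
    set ρ : ℝ := min ‖x₀.1 - y₀.1‖ ‖x₀.2 - y₀.2‖ / 4 with hρ
    have hρ0 : 0 < ρ := by
      rw [hρ]; exact div_pos (lt_min n1 n2) (by norm_num)
    have r1 : 4 * ρ ≤ ‖x₀.1 - y₀.1‖ := by
      have := min_le_left ‖x₀.1 - y₀.1‖ ‖x₀.2 - y₀.2‖
      rw [hρ]; linarith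
    have r2 : 4 * ρ ≤ ‖x₀.2 - y₀.2‖ := by
      have := min_le_right ‖x₀.1 - y₀.1‖ ‖x₀.2 - y₀.2‖
      rw [hρ]; linarith
    have hpos := hp2 (closedBall x₀ ρ ×ˢ closedBall y₀ ρ)
      (mem_nhdsWithin_of_mem_nhds (prod_mem_nhds (closedBall_mem_nhds _ hρ0)
        (closedBall_mem_nhds _ hρ0)))
    rw [Measure.prod_prod] at hpos
    refine ⟨ρ ^ 2, closedBall x₀ ρ, closedBall y₀ ρ, by positivity, isClosed_closedBall,
      isClosed_closedBall, ?_, ?_, fun x hx y hy => sep_aux x₀ y₀ ρ r1 r2 hρ0 x y hx hy⟩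
    · intro h; rw [h, zero_mul] at hpos; exact lt_irrefl _ hpos
    · intro h; rw [h, mul_zero] at hpos; exact lt_irrefl _ hpos

end Pool.Agent.TH889.FD_SEP
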