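import Pool.Agent.TH889.PLq

/-! Job 730 (PL-F3odd): quadratic elements act trivially, `p` and `q` odd. -/

set_option autoImplicit false

namespace Pool.Agent.TH889.J730

open Pool.Agent.TH62.PL Pool.Agent.TH889.PLq

theorem f3Odd : F3OddStm := by
  intro p q hp hq k G V _ _ _ _ _ _ ρ Q Z e c hpq hp2 hq2 h a ha hae hquad hap
  have : Q.Normal := h.Qn
  have hqk : (q : k) ≠ 0 := by
    intro h0
    have := (CharP.cast_eq_zero_iff k p q).1 h0
    exact hpq ((Nat.prime_dvd_prime_iff_eq hp.out hq.out).1 this)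
  have hqodd : Odd q := hq.out.odd_of_ne_two hq2
  have hcop : p.Coprime q := (Nat.coprime_primes hp.out hq.out).2 hpq
  have hb := bl h.toQC
  have H1 : ∀ x : Q, bq Q c (D (al Q a) x) (al Q a (D (al Q a) x)) = 1 := by
    intro x
    by_cases hC : ∃ w, ρ (D (al Q a) x : Q) (e w) = e w ∧ e w ≠ 0
    · obtain ⟨w, h1, h2⟩ := hC
      exact caseC h hae hquad x w h2 h1
    · push Not at hC
      have hc : c (((D (al Q a) x : Q) : G) ^ q) = 1 := by
        rw [(c0_pow h.toQC ha x).2]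
        obtain ⟨m, hm⟩ := hqodd
        have : q * (q - 1) / 2 = q * m := by
          rw [hm]
          have : (2 * m + 1) * (2 * m + 1 - 1) = 2 * ((2 * m + 1) * m) := by
            rw [Nat.add_sub_cancel]; ring
          rw [this, Nat.mul_div_cancel_left _ (by norm_num)]
        rw [this, pow_mul, inv_pow, bq_q h.toQC, inv_one, one_pow]
      have h3 := caseN h hq.out hqk (D (al Q a) x) hc hC (al Q a (D (al Q a) x))
      have h4 := hb.symm (D (al Q a) x) (al Q a (D (al Q a) x))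
      rw [h3, mul_one] at h4
      exact h4
  have key := oddAlg hb (al Q a) hcop (hp.out.odd_of_ne_two hp2) (bq_q h.toQC)
    (al_pow a p hap) (al_inv h.toQC ha) H1
  intro x hx y hy
  have hx' : a * x * a⁻¹ ∈ Q := h.Qn.conj_mem x hx a
  have h5 := key ⟨y, hy⟩ ⟨_, hx'⟩
  have e1 : D (al Q a) (⟨_, hx'⟩ : Q) = (⟨x, hx⟩ : Q)⁻¹ * ⟨_, hx'⟩ := by
    rw [D]
    congr 2
    apply Subtype.ext
    rw [al_apply]
    show a⁻¹ * (a * x * a⁻¹) * a = x
    group
  rw [e1, hb.mulR, hb.invR] at h5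
  have h6 : bq Q c ((⟨_, hx'⟩ : Q) * (⟨x, hx⟩ : Q)⁻¹) ⟨y, hy⟩ = 1 := by
    rw [hb.mulL, hb.invL]
    have s1 := hb.symm ⟨_, hx'⟩ ⟨y, hy⟩
    have s2 := hb.symm ⟨x, hx⟩ ⟨y, hy⟩
    have h7 : bq Q c ⟨y, hy⟩ ⟨_, hx'⟩ = bq Q c ⟨y, hy⟩ ⟨x, hx⟩ := by
      have := congrArg (fun z => bq Q c ⟨y, hy⟩ ⟨x, hx⟩ * z) h5
      simp only [mul_one] at this
      rw [← this, mul_inv_cancel_left₀ (hb.ne _ _)]
    rw [h7] at s1
    have h8 := mul_right_cancel₀ (hb.ne _ _) (s1.trans s2.symm)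
    rw [h8, mul_inv_cancel₀ (hb.ne _ _)]
  exact h6

end Pool.Agent.TH889.J730
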