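import Pool.Agent.TH889.PLq

/-! Job 731 (PL-F3two): quadratic elements, `q = 2`. -/

set_option autoImplicit false

namespace Pool.Agent.TH889.J731

open Pool.Agent.TH62.PL Pool.Agent.TH889.PLq

theorem f3Two : F3TwoStm := by
  intro p hp k G V _ _ _ _ _ _ ρ Q Z e c hp2 h a ha hae hquad hap x hx hxx
  have : Q.Normal := h.Qn
  have hb := bl h.toQC
  have hodd : Odd p := hp.out.odd_of_ne_two hp2
  have h2k : ((2 : ℕ) : k) ≠ 0 := by
    intro h0
    have := (CharP.cast_eq_zero_iff k p 2).1 h0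
    exact hp2 ((Nat.prime_dvd_prime_iff_eq hp.out Nat.prime_two).1 this)
  have hcop : p.Coprime 2 := (Nat.coprime_primes hp.out Nat.prime_two).2 hp2
  set X : Q := ⟨x, hx⟩ with hX
  set c0 : Q := D (al Q a) X with hc0
  have hinv := al_inv h.toQC ha
  -- `β(x, α x) = 1`
  have h1 : bq Q c X (al Q a X) = 1 := by
    have hx' : a * x * a⁻¹ ∈ Q := h.Qn.conj_mem x hx a
    have e1 : al Q a (⟨_, hx'⟩ : Q) = X := by
      apply Subtype.ext
      rw [al_apply]
      show a⁻¹ * (a * x * a⁻¹) * a = x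
      group
    have h2 : bq Q c X ⟨_, hx'⟩ = 1 := hxx
    have h3 := hb.symm X ⟨_, hx'⟩
    rw [h2, one_mul] at h3
    have h4 := hinv ⟨_, hx'⟩ X
    rw [e1, h3] at h4
    exact h4
  have hc : c ((c0 : G) ^ 2) = 1 := by
    rw [(c0_pow h.toQC ha X).2, h1, inv_one, one_pow]
  have hsq : ∀ y z : Q, bq Q c y z = 1 ∨ bq Q c y z = -1 := by
    intro y z
    have := bq_q h.toQC y z
    rw [pow_two] at this
    exact mul_self_eq_one_iff.1 this
  have hrad : ∀ y, bq Q c y c0 = 1 := by
    by_cases hC : ∃ w, ρ c0 (e w) = e w ∧ e w ≠ 0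
    · obtain ⟨w, hw, hne⟩ := hC
      -- `d = c0⁻¹ α c0`
      have hd : ∀ y, bq Q c c0 y = 1 → bq Q c (al Q a c0) y = 1 := by
        intro y hy
        have f1 := swapE h c0 y w
        rw [hy, one_smul, hw, eQ h y.2] at f1
        obtain ⟨-, -, f2⟩ := fixa h hae hquad X (ρ y w) f1
        obtain ⟨-, -, f3⟩ := fixa h hae hquad X w hw
        have f4 := swapE h (al Q a c0) y w
        rw [f3, eQ h y.2, f2] at f4
        have hne' : e (ρ y w) ≠ 0 := by
          rw [← eQ h y.2]
          intro h0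
          apply hne
          have := congrArg (ρ (y : G)⁻¹) h0
          rwa [rho_inv_self, map_zero] at this
        have f5 : (bq Q c (al Q a c0) y - 1) • e (ρ y w) = 0 := by
          rw [sub_smul, one_smul, ← f4, sub_self]
        rcases smul_eq_zero.1 f5 with h6 | h6
        · exact sub_eq_zero.1 h6
        · exact absurd h6 hne'
      by_cases hr : ∀ y, bq Q c c0 y = 1
      · intro y
        have := hb.symm c0 y
        rwa [hr, one_mul] at this
      · push Not at hr
        obtain ⟨y0, hy0⟩ := hr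
        have hy0' : bq Q c c0 y0 = -1 := (hsq c0 y0).resolve_left hy0
        rcases hsq (al Q a c0) y0 with g0 | g0
        · -- `α c0` in the radical
          have g1 : ∀ y, bq Q c (al Q a c0) y = 1 := by
            intro y
            rcases hsq c0 y with g | g
            · exact hd y g
            · have g2 : bq Q c c0 (y * y0) = 1 := by rw [hb.mulR, g, hy0']; norm_num
              have g3 := hd _ g2
              rwa [hb.mulR, g0, mul_one] at g3
          intro y
          have g4 := hinv c0 y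
          rw [g1] at g4
          have := hb.symm c0 y
          rwa [← g4, one_mul] at this
        · -- `α c0 ≡ c0`
          have g1 : ∀ y, bq Q c (al Q a c0) y = bq Q c c0 y := by
            intro y
            rcases hsq c0 y with g | g
            · rw [g, hd y g]
            · have g2 : bq Q c c0 (y * y0) = 1 := by rw [hb.mulR, g, hy0']; norm_num
              have g3 := hd _ g2
              rw [hb.mulR, g0, mul_neg, mul_one, neg_eq_iff_eq_neg] at g3
              rw [g, g3]
          have g2 : ∀ y, bq Q c y (al Q a c0) = bq Q c y c0 := by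
            intro y
            have s1 := hb.symm (al Q a c0) y
            have s2 := hb.symm c0 y
            rw [g1] at s1
            exact mul_left_cancel₀ (hb.ne _ _) (s1.trans s2.symm)
          intro y
          have g3 := tele hb (al Q a) (al_pow a p hap) X y
            (fun t => iter (al Q a) hinv _ g2 t y)
          exact one_of_pow hcop g3 (bq_q h.toQC _ _)
    · push Not at hC
      exact caseN h Nat.prime_two h2k c0 hc hC
  intro y hy
  have hx' : a * x * a⁻¹ ∈ Q := h.Qn.conj_mem x hx a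
  have hy' : a⁻¹ * y * a⁻¹⁻¹ ∈ Q := h.Qn.conj_mem y hy a⁻¹
  have k1 := hrad ⟨_, hy'⟩
  have k2 := bt_conj h.toQC ha hy' c0.2
  have e1 : a * (a⁻¹ * y * a⁻¹⁻¹) * a⁻¹ = y := by group
  have e2 : a * (c0 : G) * a⁻¹ = x⁻¹ * (a * x * a⁻¹) := by
    rw [hc0, D_coe]
    show a * (a⁻¹ * (x⁻¹ * a * x)) * a⁻¹ = _
    group
  rw [e1, e2] at k2
  have k3 : bt c y (x⁻¹ * (a * x * a⁻¹)) = 1 := k2.trans k1
  have k4 : bq Q c ⟨y, hy⟩ (X⁻¹ * ⟨_, hx'⟩) = 1 := k3
  rw [hb.mulR, hb.invR] at k4
  have h7 : bq Q c ⟨y, hy⟩ ⟨_, hx'⟩ = bq Q c ⟨y, hy⟩ X := by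
    have := congrArg (fun z => bq Q c ⟨y, hy⟩ X * z) k4
    simp only [mul_one] at this
    rw [← this, mul_inv_cancel_left₀ (hb.ne _ _)]
  have h6 : bq Q c ((⟨_, hx'⟩ : Q) * X⁻¹) ⟨y, hy⟩ = 1 := by
    rw [hb.mulL, hb.invL]
    have s1 := hb.symm ⟨_, hx'⟩ ⟨y, hy⟩
    have s2 := hb.symm X ⟨y, hy⟩
    rw [h7] at s1
    have h8 := mul_right_cancel₀ (hb.ne _ _) (s1.trans s2.symm)
    rw [h8, mul_inv_cancel₀ (hb.ne _ _)]
  exact h6

end Pool.Agent.TH889.J731
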