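import Pool.Agent.TH625.GM.Props

/-! Job 699 (GM-BESSEL): derivatives, bounds and differential equation of `K_{it}`. -/

set_option autoImplicit false

open Complex MeasureTheory
open UpperHalfPlane hiding I
open scoped Real MatrixGroups ModularForm

open Pool.Agent.TH625.GM

namespace Pool.Agent.TH889.J699

open Filter Set

lemma le_cosh {w : ℝ} (hw : 0 ≤ w) : w ≤ Real.cosh w :=
  le_trans (Real.self_le_sinh_iff.2 hw) (Real.sinh_lt_cosh w).le

lemma pow_mul_exp_le (j : ℕ) {a y : ℝ} (ha : 0 < a) (hy : 0 ≤ y) :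
    y ^ j * Real.exp (-(a * y)) ≤ (j.factorial : ℝ) / a ^ j := by
  have h1 := Real.pow_div_factorial_le_exp (a * y) (by positivity) j
  have hf : (0 : ℝ) < j.factorial := by exact_mod_cast j.factorial_pos
  rw [div_le_iff₀ hf, mul_pow] at h1
  rw [Real.exp_neg, ← div_eq_mul_inv, div_le_div_iff₀ (Real.exp_pos _) (by positivity)]
  calc y ^ j * a ^ j = a ^ j * y ^ j := by ring
    _ ≤ _ := h1
    _ = _ := by ring

/-- domination of `cosh^j exp (-(x cosh))` -/
lemma dom (j : ℕ) {x w : ℝ} (hx : 0 < x) (hw : 0 ≤ w) :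
    Real.cosh w ^ j * Real.exp (-(x * Real.cosh w)) ≤
      ((j.factorial : ℝ) / (x / 2) ^ j) * Real.exp (-(x / 2) * w) := by
  have hc : 0 ≤ Real.cosh w := (Real.cosh_pos w).le
  have h1 := pow_mul_exp_le j (half_pos hx) hc
  have h2 : Real.exp (-(x * Real.cosh w)) =
      Real.exp (-(x / 2 * Real.cosh w)) * Real.exp (-(x / 2 * Real.cosh w)) := by
    rw [← Real.exp_add]; ring_nf
  rw [h2, ← mul_assoc]
  refine mul_le_mul h1 ?_ (Real.exp_pos _).le (by positivity)
  apply Real.exp_le_exp.2
  have := mul_le_mul_of_nonneg_left (le_cosh hw) (half_pos hx).le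
  linarith

lemma intCosh (j : ℕ) {x : ℝ} (hx : 0 < x) :
    IntegrableOn (fun w => Real.cosh w ^ j * Real.exp (-(x * Real.cosh w))) (Ioi 0) := by
  have h := (exp_neg_integrableOn_Ioi 0 (half_pos hx)).const_mul
    ((j.factorial : ℝ) / (x / 2) ^ j)
  refine Integrable.mono' h ?_ ?_
  · exact (by fun_prop : Continuous fun w => Real.cosh w ^ j *
      Real.exp (-(x * Real.cosh w))).aestronglyMeasurable
  · filter_upwards [ae_restrict_mem measurableSet_Ioi] with w hw
    have hw' : (0 : ℝ) ≤ w := le_of_lt hw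
    rw [Real.norm_of_nonneg (by positivity [Real.cosh_pos w])]
    exact dom j hx hw'

lemma norm_term (j : ℕ) (t x w : ℝ) :
    ‖(-Real.cosh w) ^ j * Real.exp (-(x * Real.cosh w)) * Real.cos (t * w)‖ ≤
      Real.cosh w ^ j * Real.exp (-(x * Real.cosh w)) := by
  rw [norm_mul, norm_mul, norm_pow, norm_neg, Real.norm_of_nonneg (Real.cosh_pos w).le,
    Real.norm_of_nonneg (Real.exp_pos _).le]
  have : ‖Real.cos (t * w)‖ ≤ 1 := Real.abs_cos_le_one _
  have h0 : 0 ≤ Real.cosh w ^ j * Real.exp (-(x * Real.cosh w)) := by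
    have := Real.cosh_pos w
    positivity
  calc _ ≤ Real.cosh w ^ j * Real.exp (-(x * Real.cosh w)) * 1 :=
        mul_le_mul_of_nonneg_left this h0
    _ = _ := mul_one _

lemma intTerm (j : ℕ) (t : ℝ) {x : ℝ} (hx : 0 < x) :
    IntegrableOn (fun w => (-Real.cosh w) ^ j * Real.exp (-(x * Real.cosh w)) *
      Real.cos (t * w)) (Ioi 0) := by
  refine Integrable.mono' (intCosh j hx) ?_ ?_
  · exact (by fun_prop : Continuous fun w => (-Real.cosh w) ^ j *
      Real.exp (-(x * Real.cosh w)) * Real.cos (t * w)).aestronglyMeasurable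
  · exact Filter.Eventually.of_forall fun w => norm_term j t x w

lemma deriv' (j : ℕ) (t : ℝ) {x : ℝ} (hx : 0 < x) : HasDerivAt (KBj j t) (KBj (j + 1) t x) x := by
  have hs : Ioo (x / 2) (2 * x) ∈ nhds x := Ioo_mem_nhds (by linarith) (by linarith)
  have := hasDerivAt_integral_of_dominated_loc_of_deriv_le (μ := volume.restrict (Ioi (0 : ℝ)))
    (F := fun y w => (-Real.cosh w) ^ j * Real.exp (-(y * Real.cosh w)) * Real.cos (t * w))
    (F' := fun y w => (-Real.cosh w) ^ (j + 1) * Real.exp (-(y * Real.cosh w)) *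
      Real.cos (t * w)) (x₀ := x) (s := Ioo (x / 2) (2 * x))
    (bound := fun w => Real.cosh w ^ (j + 1) * Real.exp (-((x / 2) * Real.cosh w)))
    hs (Filter.Eventually.of_forall fun y => by
      exact (by fun_prop : Continuous fun w => (-Real.cosh w) ^ j *
        Real.exp (-(y * Real.cosh w)) * Real.cos (t * w)).aestronglyMeasurable)
    (intTerm j t hx)
    (by exact (by fun_prop : Continuous fun w => (-Real.cosh w) ^ (j + 1) *
        Real.exp (-(x * Real.cosh w)) * Real.cos (t * w)).aestronglyMeasurable)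
    (Filter.Eventually.of_forall fun w y hy => by
      refine (norm_term (j + 1) t y w).trans ?_
      have hc := Real.cosh_pos w
      apply mul_le_mul_of_nonneg_left _ (by positivity)
      apply Real.exp_le_exp.2
      have := mul_le_mul_of_nonneg_right hy.1.le hc.le
      linarith)
    (intCosh (j + 1) (half_pos hx))
    (Filter.Eventually.of_forall fun w y hy => by
      have h1 : HasDerivAt (fun y : ℝ => Real.exp (-(y * Real.cosh w)))
          (Real.exp (-(y * Real.cosh w)) * (-(1 * Real.cosh w))) y :=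
        (((hasDerivAt_id y).mul_const (Real.cosh w)).neg).exp
      have h2 := (h1.const_mul ((-Real.cosh w) ^ j)).mul_const (Real.cos (t * w))
      refine h2.congr_deriv ?_
      rw [pow_succ]; ring)
  exact this.2

lemma bound' (j : ℕ) (x₀ : ℝ) (hx₀ : 0 < x₀) : ∃ C : ℝ, ∀ t x : ℝ, x₀ ≤ x →
    |KBj j t x| ≤ C * Real.exp (-x) := by
  refine ⟨∫ w in Ioi (0 : ℝ), Real.exp x₀ *
    (Real.cosh w ^ j * Real.exp (-(x₀ * Real.cosh w))), fun t x hx => ?_⟩
  have hi : Integrable (fun w => Real.exp (-x) * (Real.exp x₀ *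
      (Real.cosh w ^ j * Real.exp (-(x₀ * Real.cosh w))))) (volume.restrict (Ioi 0)) :=
    ((intCosh j hx₀).const_mul _).const_mul _
  have h := norm_integral_le_of_norm_le (μ := volume.restrict (Ioi (0 : ℝ)))
    (f := fun w => (-Real.cosh w) ^ j * Real.exp (-(x * Real.cosh w)) * Real.cos (t * w))
    hi (Filter.Eventually.of_forall fun w => by
      refine (norm_term j t x w).trans ?_
      have hc := Real.one_le_cosh w
      have : Real.exp (-(x * Real.cosh w)) ≤
          Real.exp (-x) * (Real.exp x₀ * Real.exp (-(x₀ * Real.cosh w))) := by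
        rw [← Real.exp_add, ← Real.exp_add]
        apply Real.exp_le_exp.2
        nlinarith [mul_nonneg (sub_nonneg.2 hx) (sub_nonneg.2 hc)]
      calc Real.cosh w ^ j * Real.exp (-(x * Real.cosh w))
          ≤ Real.cosh w ^ j * (Real.exp (-x) * (Real.exp x₀ * Real.exp (-(x₀ * Real.cosh w)))) :=
            mul_le_mul_of_nonneg_left this (by positivity)
        _ = _ := by ring)
  rw [integral_const_mul] at h
  rw [mul_comm]
  exact h

lemma ode' (t x : ℝ) (hx : 0 < x) :
    x ^ 2 * KBj 2 t x + x * KBj 1 t x = (x ^ 2 - t ^ 2) * KBj 0 t x := by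
  set G : ℝ → ℝ := fun w => -(x * Real.sinh w * Real.exp (-(x * Real.cosh w)) * Real.cos (t * w)) +
    t * Real.exp (-(x * Real.cosh w)) * Real.sin (t * w) with hG
  set g : ℝ → ℝ := fun w =>
    x ^ 2 * ((-Real.cosh w) ^ 2 * Real.exp (-(x * Real.cosh w)) * Real.cos (t * w)) +
      x * ((-Real.cosh w) ^ 1 * Real.exp (-(x * Real.cosh w)) * Real.cos (t * w)) -
      (x ^ 2 - t ^ 2) * ((-Real.cosh w) ^ 0 * Real.exp (-(x * Real.cosh w)) * Real.cos (t * w))
    with hg
  have hder : ∀ w ∈ Ici (0 : ℝ), HasDerivAt G (g w) w := by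
    intro w _
    have e1 : HasDerivAt (fun w : ℝ => Real.exp (-(x * Real.cosh w)))
        (Real.exp (-(x * Real.cosh w)) * (-(x * Real.sinh w))) w :=
      (((Real.hasDerivAt_cosh w).const_mul x).neg).exp
    have e2 : HasDerivAt (fun w : ℝ => Real.cos (t * w)) (-Real.sin (t * w) * (t * 1)) w :=
      ((hasDerivAt_id w).const_mul t).cos
    have e3 : HasDerivAt (fun w : ℝ => Real.sin (t * w)) (Real.cos (t * w) * (t * 1)) w :=
      ((hasDerivAt_id w).const_mul t).sin
    have e4 : HasDerivAt (fun w : ℝ => x * Real.sinh w) (x * Real.cosh w) w :=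
      (Real.hasDerivAt_sinh w).const_mul x
    have h1 := ((e4.mul e1).mul e2).neg
    have h2 := ((e1.const_mul t).mul e3)
    refine (h1.add h2).congr_deriv ?_
    have hs : Real.sinh w ^ 2 = Real.cosh w ^ 2 - 1 := by
      have := Real.cosh_sq w; linarith
    simp only [hg, pow_one, pow_zero, Pi.mul_apply]
    linear_combination (x ^ 2 * Real.exp (-(x * Real.cosh w)) * Real.cos (t * w)) * hs
  have i0 := intTerm 0 t hx
  have i1 := intTerm 1 t hx
  have i2 := intTerm 2 t hx
  have hint : IntegrableOn g (Ioi 0) :=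
    ((i2.const_mul (x ^ 2)).add (i1.const_mul x)).sub (i0.const_mul (x ^ 2 - t ^ 2))
  have hlim : Tendsto G atTop (nhds 0) := by
    have hb : ∀ᶠ w in atTop, ‖G w‖ ≤
        (x * ((Nat.factorial 1 : ℝ) / (x / 2) ^ 1) + |t| * ((Nat.factorial 0 : ℝ) / (x / 2) ^ 0)) *
          Real.exp (-(x / 2) * w) := by
      filter_upwards [eventually_ge_atTop 0] with w hw
      have d1 := dom 1 hx hw
      have d0 := dom 0 hx hw
      have hsc : |Real.sinh w| ≤ Real.cosh w := by
        rw [abs_of_nonneg (Real.sinh_nonneg_iff.2 hw)]; exact (Real.sinh_lt_cosh w).le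
      have b1 : ‖x * Real.sinh w * Real.exp (-(x * Real.cosh w)) * Real.cos (t * w)‖ ≤
          x * (Real.cosh w ^ 1 * Real.exp (-(x * Real.cosh w))) := by
        rw [norm_mul, norm_mul, norm_mul, Real.norm_of_nonneg hx.le,
          Real.norm_of_nonneg (Real.exp_pos _).le, Real.norm_eq_abs (Real.sinh w), pow_one]
        have hc1 : ‖Real.cos (t * w)‖ ≤ 1 := Real.abs_cos_le_one _
        calc x * |Real.sinh w| * Real.exp (-(x * Real.cosh w)) * ‖Real.cos (t * w)‖
            ≤ x * Real.cosh w * Real.exp (-(x * Real.cosh w)) * 1 := by gcongr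
          _ = _ := by ring
      have b2 : ‖t * Real.exp (-(x * Real.cosh w)) * Real.sin (t * w)‖ ≤
          |t| * (Real.cosh w ^ 0 * Real.exp (-(x * Real.cosh w))) := by
        rw [norm_mul, norm_mul, Real.norm_eq_abs t, Real.norm_of_nonneg (Real.exp_pos _).le,
          pow_zero, one_mul]
        have hc1 : ‖Real.sin (t * w)‖ ≤ 1 := Real.abs_sin_le_one _
        calc |t| * Real.exp (-(x * Real.cosh w)) * ‖Real.sin (t * w)‖
            ≤ |t| * Real.exp (-(x * Real.cosh w)) * 1 := by gcongr
          _ = _ := by ring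
      calc ‖G w‖ ≤ ‖-(x * Real.sinh w * Real.exp (-(x * Real.cosh w)) * Real.cos (t * w))‖ +
            ‖t * Real.exp (-(x * Real.cosh w)) * Real.sin (t * w)‖ := norm_add_le _ _
        _ ≤ x * (((Nat.factorial 1 : ℝ) / (x / 2) ^ 1) * Real.exp (-(x / 2) * w)) +
            |t| * (((Nat.factorial 0 : ℝ) / (x / 2) ^ 0) * Real.exp (-(x / 2) * w)) := by
          rw [norm_neg]
          exact add_le_add (b1.trans (mul_le_mul_of_nonneg_left d1 hx.le))
            (b2.trans (mul_le_mul_of_nonneg_left d0 (abs_nonneg t)))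
        _ = _ := by ring
    refine squeeze_zero_norm' hb ?_
    have hz : Tendsto (fun w : ℝ => Real.exp (-(x / 2) * w)) atTop (nhds 0) :=
      Real.tendsto_exp_atBot.comp (tendsto_id.const_mul_atTop_of_neg (by linarith))
    have := hz.const_mul (x * ((Nat.factorial 1 : ℝ) / (x / 2) ^ 1) +
      |t| * ((Nat.factorial 0 : ℝ) / (x / 2) ^ 0))
    rwa [mul_zero] at this
  have key := integral_Ioi_of_hasDerivAt_of_tendsto' hder hint hlim
  have h0 : G 0 = 0 := by simp [hG]
  rw [h0, sub_zero] at key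
  have e : ∫ w in Ioi (0 : ℝ), g w =
      x ^ 2 * KBj 2 t x + x * KBj 1 t x - (x ^ 2 - t ^ 2) * KBj 0 t x := by
    simp only [hg, KBj]
    rw [integral_sub, integral_add, integral_const_mul, integral_const_mul, integral_const_mul]
    · exact i2.const_mul _
    · exact i1.const_mul _
    · exact (i2.const_mul _).add (i1.const_mul _)
    · exact i0.const_mul _
  linarith

theorem bessel : Bessel where
  zero t x := by simp [KBj, KB]
  deriv j t x hx := deriv' j t hx
  bound j x₀ hx₀ := bound' j x₀ hx₀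
  ode t x hx := ode' t x hx

end Pool.Agent.TH889.J699
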