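import Mathlib

/-! Job 794 (TOR-J3): determinants of Laplacians of short acyclic complexes. -/

set_option autoImplicit false

open scoped Matrix

namespace Pool.Agent.TH889.J794

open scoped ComplexOrder

section
variable {U V : Type} [Fintype U] [DecidableEq U] [Fintype V] [DecidableEq V]

theorem det_ne_zero_of_right (X : Matrix U V ℂ) (Y : Matrix V V ℂ) (hY : Y.det ≠ 0) :
    (Xᴴ * X + Yᴴ * Y).det ≠ 0 := by
  have h1 : (Yᴴ * Y).PosDef :=
    Matrix.PosDef.conjTranspose_mul_self Y (Matrix.mulVec_injective_of_det_ne_zero hY)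
  have h2 : (Xᴴ * X).PosSemidef := Matrix.posSemidef_conjTranspose_mul_self X
  exact (Matrix.PosDef.posSemidef_add h2 h1).det_pos.ne'

theorem det_ne_zero_of_left (P : Matrix U U ℂ) (Q : Matrix U V ℂ) (hP : P.det ≠ 0) :
    (P * Pᴴ + Q * Qᴴ).det ≠ 0 := by
  have h1 : (P * Pᴴ).PosDef := by
    have := Matrix.PosDef.conjTranspose_mul_self Pᴴ (Matrix.mulVec_injective_of_det_ne_zero
      (by rw [Matrix.det_conjTranspose]; exact star_ne_zero.2 hP))
    simpa using this
  have h2 : (Q * Qᴴ).PosSemidef := Matrix.posSemidef_self_mul_conjTranspose Q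
  exact (h1.add_posSemidef h2).det_pos.ne'

lemma star_det_of_herm (M : Matrix U U ℂ) (h : Mᴴ = M) : star M.det = M.det := by
  rw [← Matrix.det_conjTranspose, h]

theorem length_two (P : Matrix U U ℂ) (Q : Matrix U V ℂ) (X : Matrix U V ℂ) (Y : Matrix V V ℂ)
    (h : P * X + Q * Y = 0) :
    (P * Pᴴ + Q * Qᴴ).det * (Y.det * star Y.det) = (P.det * star P.det) * (Xᴴ * X + Yᴴ * Y).det ∧
    ((Matrix.fromCols P Q)ᴴ * Matrix.fromCols P Q
      + Matrix.fromRows X Y * (Matrix.fromRows X Y)ᴴ).det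
      = (P * Pᴴ + Q * Qᴴ).det * (Xᴴ * X + Yᴴ * Y).det := by
  set S : Matrix (U ⊕ V) (U ⊕ V) ℂ := Matrix.fromBlocks P Q Xᴴ Yᴴ with hS
  have h' : Xᴴ * Pᴴ + Yᴴ * Qᴴ = 0 := by
    have := congrArg Matrix.conjTranspose h
    simpa [Matrix.conjTranspose_add, Matrix.conjTranspose_mul] using this
  have h1 : S * Sᴴ = Matrix.fromBlocks (P * Pᴴ + Q * Qᴴ) 0 0 (Xᴴ * X + Yᴴ * Y) := by
    rw [hS, Matrix.fromBlocks_conjTranspose, Matrix.fromBlocks_multiply,
      Matrix.conjTranspose_conjTranspose, Matrix.conjTranspose_conjTranspose, h, h']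
  have h2 : Sᴴ * S = (Matrix.fromCols P Q)ᴴ * Matrix.fromCols P Q
      + Matrix.fromRows X Y * (Matrix.fromRows X Y)ᴴ := by
    rw [hS, Matrix.fromBlocks_conjTranspose, Matrix.fromBlocks_multiply,
      Matrix.conjTranspose_fromCols_eq_fromRows_conjTranspose,
      Matrix.conjTranspose_fromRows_eq_fromCols_conjTranspose, Matrix.fromRows_mul_fromCols,
      Matrix.fromRows_mul_fromCols, Matrix.fromBlocks_add,
      Matrix.conjTranspose_conjTranspose, Matrix.conjTranspose_conjTranspose]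
  set D1 := (P * Pᴴ + Q * Qᴴ).det with hD1
  set D0 := (Xᴴ * X + Yᴴ * Y).det with hD0
  have h3 : (S * Sᴴ).det = D1 * D0 := by rw [h1, Matrix.det_fromBlocks_zero₂₁]
  refine ⟨?_, ?_⟩
  · have h4 : S * Matrix.fromBlocks 1 X 0 Y = Matrix.fromBlocks P 0 Xᴴ (Xᴴ * X + Yᴴ * Y) := by
      rw [hS, Matrix.fromBlocks_multiply]
      simp [h]
    have h5 : S.det * Y.det = P.det * D0 := by
      have := congrArg Matrix.det h4
      rwa [Matrix.det_mul, Matrix.det_fromBlocks_zero₂₁, Matrix.det_fromBlocks_zero₁₂,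
        Matrix.det_one, one_mul] at this
    have h6 : S.det * star S.det = D1 * D0 := by
      rw [← h3, Matrix.det_mul, Matrix.det_conjTranspose]
    have h7 : star D0 = D0 := star_det_of_herm _ (by simp)
    have h8 : D1 * D0 * (Y.det * star Y.det) = (P.det * star P.det) * D0 * D0 := by
      have h9 := congrArg₂ (· * ·) h5 (congrArg star h5)
      simp only [star_mul'] at h9
      rw [← h6]
      rw [h7] at h9
      linear_combination h9
    by_cases h0 : D0 = 0
    · have hY : Y.det = 0 := by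
        by_contra hne
        exact det_ne_zero_of_right X Y hne h0
      rw [hY, h0]; ring
    · have h10 : D0 * (D1 * (Y.det * star Y.det)) = D0 * ((P.det * star P.det) * D0) := by
        linear_combination h8
      exact mul_left_cancel₀ h0 h10
  · rw [← h2, Matrix.det_mul_comm, h3]

end

section
variable {I J : Type} [Fintype I] [DecidableEq I] [Fintype J] [DecidableEq J]

lemma det_swap (T : Matrix I J ℂ) (f : I ≃ J) : (T * Tᴴ).det = (Tᴴ * T).det := by
  have h1 : (T.submatrix id f) * (T.submatrix id f)ᴴ = T * Tᴴ := by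
    rw [Matrix.conjTranspose_submatrix, Matrix.submatrix_mul_equiv, Matrix.submatrix_id_id]
  have h2 : (T.submatrix id f)ᴴ * (T.submatrix id f) = (Tᴴ * T).submatrix f f := by
    rw [Matrix.conjTranspose_submatrix]
    exact Matrix.submatrix_mul_equiv _ _ f (Equiv.refl I) f
  rw [← h1, Matrix.det_mul_comm, h2, Matrix.det_submatrix_equiv_self]

end

section
variable {A B C : Type} [Fintype A] [DecidableEq A] [Fintype B] [DecidableEq B] [Fintype C]
  [DecidableEq C]

/-- the natural reindexing -/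
def ff (A B C : Type) : (A ⊕ B) ⊕ C ≃ (B ⊕ C) ⊕ A where
  toFun
    | .inl (.inl a) => .inr a
    | .inl (.inr b) => .inl (.inl b)
    | .inr c => .inl (.inr c)
  invFun
    | .inr a => .inl (.inl a)
    | .inl (.inl b) => .inl (.inr b)
    | .inl (.inr c) => .inr c
  left_inv := by rintro ((a | b) | c) <;> rfl
  right_inv := by rintro ((b | c) | a) <;> rfl

theorem length_three (G₂ : Matrix A A ℂ) (Z : Matrix A B ℂ) (W : Matrix A B ℂ) (R : Matrix A C ℂ)
    (G₁ : Matrix B B ℂ) (S : Matrix B C ℂ) (X : Matrix B C ℂ) (G₀ : Matrix C C ℂ)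
    (h32 : Matrix.fromCols G₂ Z * Matrix.fromBlocks W R G₁ S = 0)
    (h21 : Matrix.fromBlocks W R G₁ S * Matrix.fromRows X G₀ = 0) :
    (Matrix.fromCols G₂ Z * (Matrix.fromCols G₂ Z)ᴴ).det
        * ((Matrix.fromRows X G₀)ᴴ * Matrix.fromRows X G₀).det * (G₁.det * star G₁.det)
        * (Matrix.fromCols G₂ Z * (Matrix.fromCols G₂ Z)ᴴ).det
        * ((Matrix.fromRows X G₀)ᴴ * Matrix.fromRows X G₀).det
      = (Matrix.fromBlocks W R G₁ S * (Matrix.fromBlocks W R G₁ S)ᴴ
          + (Matrix.fromCols G₂ Z)ᴴ * Matrix.fromCols G₂ Z).det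
        * ((Matrix.fromRows X G₀)ᴴ * Matrix.fromRows X G₀).det
        * (G₀.det * star G₀.det) * (G₂.det * star G₂.det) ∧
    ((Matrix.fromBlocks W R G₁ S)ᴴ * Matrix.fromBlocks W R G₁ S
          + Matrix.fromRows X G₀ * (Matrix.fromRows X G₀)ᴴ).det
        * (Matrix.fromCols G₂ Z * (Matrix.fromCols G₂ Z)ᴴ).det
      = ((Matrix.fromRows X G₀)ᴴ * Matrix.fromRows X G₀).det
        * (Matrix.fromBlocks W R G₁ S * (Matrix.fromBlocks W R G₁ S)ᴴ
          + (Matrix.fromCols G₂ Z)ᴴ * Matrix.fromCols G₂ Z).det := by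
  set d3 := Matrix.fromCols G₂ Z with hd3
  set d2 := Matrix.fromBlocks W R G₁ S with hd2
  set d1 := Matrix.fromRows X G₀ with hd1
  set T : Matrix ((A ⊕ B) ⊕ C) ((B ⊕ C) ⊕ A) ℂ := Matrix.fromBlocks d2 d3ᴴ d1ᴴ 0 with hT
  have e1 : d1ᴴ * d2ᴴ = 0 := by rw [← Matrix.conjTranspose_mul, h21, Matrix.conjTranspose_zero]
  have e2 : d2ᴴ * d3ᴴ = 0 := by rw [← Matrix.conjTranspose_mul, h32, Matrix.conjTranspose_zero]
  have h1 : T * Tᴴ = Matrix.fromBlocks (d2 * d2ᴴ + d3ᴴ * d3) 0 0 (d1ᴴ * d1) := by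
    rw [hT, Matrix.fromBlocks_conjTranspose, Matrix.fromBlocks_multiply]
    simp [h21, e1]
  have h2 : Tᴴ * T = Matrix.fromBlocks (d2ᴴ * d2 + d1 * d1ᴴ) 0 0 (d3 * d3ᴴ) := by
    rw [hT, Matrix.fromBlocks_conjTranspose, Matrix.fromBlocks_multiply]
    simp [h32, e2]
  set D3 := (d3 * d3ᴴ).det with hD3
  set D1 := (d1ᴴ * d1).det with hD1
  set E2 := (d2 * d2ᴴ + d3ᴴ * d3).det with hE2
  have s3 : star D3 = D3 := star_det_of_herm _ (by simp)
  have s1 : star D1 = D1 := star_det_of_herm _ (by simp)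
  have q1 : (T * Tᴴ).det = E2 * D1 := by rw [h1, Matrix.det_fromBlocks_zero₂₁]
  refine ⟨?_, ?_⟩
  · -- block identities
    have b1 : Matrix.fromBlocks W R G₁ S * Matrix.fromBlocks 1 X 0 G₀ =
        Matrix.fromBlocks W 0 G₁ 0 := by
      have := h21
      rw [hd2, hd1, Matrix.fromBlocks_mul_fromRows] at this
      have t1 := congrArg Matrix.toRows₁ this
      have t2 := congrArg Matrix.toRows₂ this
      rw [Matrix.toRows₁_fromRows] at t1
      rw [Matrix.toRows₂_fromRows] at t2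
      rw [Matrix.fromBlocks_multiply]
      have z1 : (0 : Matrix (A ⊕ B) C ℂ).toRows₁ = 0 := rfl
      have z2 : (0 : Matrix (A ⊕ B) C ℂ).toRows₂ = 0 := rfl
      rw [z1] at t1
      rw [z2] at t2
      rw [t1, t2]
      simp
    have b0 : G₂ * W + Z * G₁ = 0 := by
      have := h32
      rw [hd3, hd2, Matrix.fromCols_mul_fromBlocks] at this
      have t1 := congrArg Matrix.toCols₁ this
      rw [Matrix.toCols₁_fromCols] at t1
      exact t1
    have b2 : d1ᴴ * Matrix.fromBlocks 1 X 0 G₀ = Matrix.fromCols Xᴴ (d1ᴴ * d1) := by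
      rw [hd1, Matrix.conjTranspose_fromRows_eq_fromCols_conjTranspose,
        Matrix.fromCols_mul_fromBlocks, Matrix.fromCols_mul_fromRows]
      simp
    have b3 : Matrix.fromBlocks G₂ Z 0 1 * d3ᴴ = Matrix.fromRows (d3 * d3ᴴ) Zᴴ := by
      rw [hd3, Matrix.conjTranspose_fromCols_eq_fromRows_conjTranspose,
        Matrix.fromBlocks_mul_fromRows, Matrix.fromCols_mul_fromRows]
      simp
    set LL : Matrix ((A ⊕ B) ⊕ C) ((A ⊕ B) ⊕ C) ℂ :=
      Matrix.fromBlocks (Matrix.fromBlocks G₂ Z 0 1) 0 0 1 with hLL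
    set RR : Matrix ((B ⊕ C) ⊕ A) ((B ⊕ C) ⊕ A) ℂ :=
      Matrix.fromBlocks (Matrix.fromBlocks 1 X 0 G₀) 0 0 1 with hRR
    have m1 : LL * T * RR = Matrix.fromBlocks (Matrix.fromBlocks 0 0 G₁ 0)
        (Matrix.fromRows (d3 * d3ᴴ) Zᴴ) (Matrix.fromCols Xᴴ (d1ᴴ * d1)) 0 := by
      rw [hLL, hT, hRR, Matrix.fromBlocks_multiply, Matrix.fromBlocks_multiply]
      have b4 : Matrix.fromBlocks G₂ Z 0 1 * d2 * Matrix.fromBlocks 1 X 0 G₀ =
          Matrix.fromBlocks 0 0 G₁ 0 := by
        rw [Matrix.mul_assoc, hd2, b1, Matrix.fromBlocks_multiply, b0]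
        simp
      simp only [Matrix.zero_mul, Matrix.mul_zero, add_zero, zero_add, Matrix.one_mul,
        Matrix.mul_one]
      rw [b4, b2, b3]
    have m2 : (LL * T * RR).submatrix id (ff A B C) =
        Matrix.fromBlocks (Matrix.fromBlocks (d3 * d3ᴴ) 0 Zᴴ G₁) 0
          (Matrix.fromCols 0 Xᴴ) (d1ᴴ * d1) := by
      rw [m1]
      ext ((i | i) | i) ((j | j) | j) <;> simp [ff]
    have dL : LL.det = G₂.det := by
      rw [hLL, Matrix.det_fromBlocks_zero₂₁, Matrix.det_fromBlocks_zero₂₁]; simp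
    have dR : RR.det = G₀.det := by
      rw [hRR, Matrix.det_fromBlocks_zero₂₁, Matrix.det_fromBlocks_zero₂₁]; simp
    have m3 : (LL * T * RR).submatrix id (ff A B C) =
        LL * T.submatrix id (ff A B C) * RR.submatrix (ff A B C) (ff A B C) := by
      have a1 : LL * T.submatrix id (ff A B C) = (LL * T).submatrix id (ff A B C) :=
        (Matrix.submatrix_mul_equiv LL T id (Equiv.refl _) (ff A B C))
      rw [a1, Matrix.submatrix_mul_equiv]
    have m4 : G₂.det * (T.submatrix id (ff A B C)).det * G₀.det = D3 * G₁.det * D1 := by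
      have := congrArg Matrix.det (m3.symm.trans m2)
      rwa [Matrix.det_mul, Matrix.det_mul, dL, Matrix.det_submatrix_equiv_self, dR,
        Matrix.det_fromBlocks_zero₁₂, Matrix.det_fromBlocks_zero₁₂] at this
    have q2 : (T.submatrix id (ff A B C)).det * star (T.submatrix id (ff A B C)).det =
        E2 * D1 := by
      rw [← q1, ← Matrix.det_conjTranspose, ← Matrix.det_mul, Matrix.conjTranspose_submatrix,
        Matrix.submatrix_mul_equiv, Matrix.submatrix_id_id]
    have m5 := congrArg star m4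
    simp only [star_mul', s3, s1] at m5
    set t := (T.submatrix id (ff A B C)).det
    have m6 : (G₂.det * t * G₀.det) * (star G₂.det * star t * star G₀.det) =
        (D3 * G₁.det * D1) * (D3 * star G₁.det * D1) := by rw [m4, m5]
    rw [← q2]
    linear_combination -m6
  · have := det_swap T (ff A B C)
    rw [q1, h2, Matrix.det_fromBlocks_zero₂₁] at this
    rw [← this, mul_comm]

end

end Pool.Agent.TH889.J794
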