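import Pool.Agent.TH614.HS.Defs2

/-! Job 3613 (helper614, MP_7aba51_co): arithmetic end of the second case. -/

set_option autoImplicit false

namespace Pool.Agent.TH889.J3613

open Pool.Agent.TH614.HS

variable {L : Type} [Field L]

/-- the `q`-power map as a ring endomorphism -/
def fr (D : HD L) : L →+* L where
  toFun x := x ^ D.q
  map_one' := one_pow _
  map_mul' x y := mul_pow x y _
  map_zero' := zero_pow (by have := D.h5; omega)
  map_add' := D.add

theorem fr_apply (D : HD L) (x : L) : fr D x = x ^ D.q := rfl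

theorem two_ne (D : HD L) : (2 : L) ≠ 0 := by
  intro h
  have h4 := D.h4
  have hq : D.q = 2 * (D.q / 2) + 1 := by omega
  have h1 := D.qz
  rw [hq] at h1
  push_cast at h1
  rw [h, zero_mul, zero_add] at h1
  exact one_ne_zero h1

theorem p2 (D : HD L) (x : L) : x ^ (D.q ^ 2) = fr D (fr D x) := by
  simp only [fr_apply, ← pow_mul]; congr 1; ring

theorem p3 (D : HD L) (x : L) : x ^ (D.q ^ 3) = fr D (fr D (fr D x)) := by
  simp only [fr_apply, ← pow_mul]; congr 1; ring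

theorem p4 (D : HD L) (x : L) : x ^ (D.q ^ 4) = fr D (fr D (fr D (fr D x))) := by
  simp only [fr_apply, ← pow_mul]; congr 1; ring

theorem p6 (D : HD L) (x : L) :
    x ^ (D.q ^ 6) = fr D (fr D (fr D (fr D (fr D (fr D x))))) := by
  simp only [fr_apply, ← pow_mul]; congr 1; ring

/-- the key polynomial identity -/
theorem key (z0 z1 z2 nu A B : L) (h2 : (2 : L) ≠ 0) (hA : A = (z0^2+1)*(z1^2+1)*(z2^2+1))
    (hB : B = (z0^2-1)*(z1^2-1)*(z2^2-1)) (hnu : nu ≠ 0)
    (h1 : (1 + nu⁻¹) * A = -4 * (z0*z1*z2*(z0+z1+z2) + (z0*z1+z1*z2+z2*z0)))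
    (h3 : (1 + nu) * B = 4 * (z0*z1*z2*(z0+z1+z2) - (z0*z1+z1*z2+z2*z0))) :
    ((z0+z1+z2)*(z0*z1+z1*z2+z2*z0) - z0*z1*z2) *
      ((z0+z1+z2) - z0*z1*z2*(z0*z1+z1*z2+z2*z0)) = 0 := by
  set E1 := z0+z1+z2 with hE1
  set E2 := z0*z1+z1*z2+z2*z0 with hE2
  set Z := z0*z1*z2 with hZ
  have hA' : A = 1 + (E1^2-2*E2) + (E2^2-2*Z*E1) + Z^2 := by rw [hA, hE1, hE2, hZ]; ring
  have hB' : B = Z^2 - (E2^2-2*Z*E1) + (E1^2-2*E2) - 1 := by rw [hB, hE1, hE2, hZ]; ring
  have huv : (1 + nu⁻¹) * (1 + nu) = (1 + nu⁻¹) + (1 + nu) := by field_simp; ring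
  have h5 : (-4 * (Z*E1+E2)) * (4 * (Z*E1-E2)) = (-4 * (Z*E1+E2)) * B + (4 * (Z*E1-E2)) * A := by
    rw [← h1, ← h3]
    linear_combination (A * B) * huv
  have h8 : (8 : L) ≠ 0 := by
    have : (8 : L) = 2^3 := by norm_num
    rw [this]; exact pow_ne_zero _ h2
  have h6 : (8 : L) * ((E1*E2-Z)*(E1-Z*E2)) = 0 := by
    rw [hA', hB'] at h5
    linear_combination h5
  exact (mul_eq_zero.mp h6).resolve_left h8

theorem TC : S_TC := by
  intro L _ D be g ep nu hep hbe hg hbg hbe6 hbe3 hnu hnuq hrel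
  have h2 := two_ne D
  set F := fr D with hF
  have hinj : Function.Injective F := F.injective
  have hii : F D.ii = D.ii := D.iiq
  have hii2 : D.ii * D.ii = -1 := by have := D.ii2; rw [pow_two] at this; exact this
  have hii0 : D.ii ≠ 0 := by
    intro h; rw [h] at hii2; simp at hii2
  simp only [p2, p3, p4, p6, ← hF] at hbe6 hbe3 hrel
  have hnuF : F nu = nu⁻¹ := hnuq
  -- the six conjugates
  have hbe' : F (F (F be)) ≠ 0 := fun h => hbe (by
    have h1 := (map_eq_zero F).mp h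
    have h2 := (map_eq_zero F).mp h1
    exact (map_eq_zero F).mp h2)
  have hep2 : ep * ep = 1 := by rcases hep with h | h <;> rw [h] <;> ring
  have hg3 : g * F (F (F be)) = -ep * be := by rw [hbe3]; field_simp
  have hsq : be^2 * (F (F (F be)))^2 = (F (F (F be)))^2 + be^2 := by
    have : (g * F (F (F be)))^2 = be^2 := by
      rw [hg3]; linear_combination (be^2) * hep2
    linear_combination this + (F (F (F be)))^2 * hbg
  obtain ⟨f, hf⟩ : ∃ f, f = be⁻¹ := ⟨_, rfl⟩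
  obtain ⟨f', hf'⟩ : ∃ f', f' = (F (F (F be)))⁻¹ := ⟨_, rfl⟩
  have hff : f ^ 2 + f' ^ 2 = 1 := by
    rw [hf, hf']
    field_simp
    linear_combination -hsq
  have hFf : F (F (F f)) = f' := by rw [hf, hf', map_inv₀, map_inv₀, map_inv₀]
  have hFf' : F (F (F f')) = f := by rw [hf', hf, map_inv₀, map_inv₀, map_inv₀, hbe6]
  obtain ⟨z0, hz0⟩ : ∃ z, z = f + D.ii * f' := ⟨_, rfl⟩
  have hz0m : z0 * (f - D.ii * f') = 1 := by
    rw [hz0]; linear_combination hff - f' ^ 2 * hii2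
  have hz00 : z0 ≠ 0 := by intro h; rw [h, zero_mul] at hz0m; exact zero_ne_one hz0m
  have hFz : F (F (F z0)) = f' + D.ii * f := by
    rw [hz0]; simp only [map_add, map_mul, hii, hFf, hFf']
  have hFz0 : F (F (F z0)) * z0 = D.ii := by
    rw [hFz, hz0]; linear_combination D.ii * hff + f * f' * hii2
  have hz6 : F (F (F (F (F (F z0))))) = z0 := by
    rw [hFz]; simp only [map_add, map_mul, hii, hFf, hFf']; rw [hz0]
  -- relation of `be` with `z0`
  have hb0 : be * (z0 ^ 2 + 1) = 2 * z0 := by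
    have h1 : z0 ^ 2 + 1 = 2 * f * z0 := by
      linear_combination (-1 : L) * hz0m + z0 * hz0
    rw [h1, hf]; field_simp
  have hc0 : F (F (F be)) * (z0 ^ 2 - 1) = 2 * D.ii * z0 := by
    have h1 : z0 ^ 2 - 1 = 2 * D.ii * f' * z0 := by
      linear_combination hz0m + z0 * hz0
    rw [h1, hf']; field_simp
  obtain ⟨z1, hz1⟩ : ∃ z, z = F (F z0) := ⟨_, rfl⟩
  obtain ⟨z2, hz2⟩ : ∃ z, z = F (F z1) := ⟨_, rfl⟩
  have hz20 : F (F z2) = z0 := by rw [hz2, hz1, hz6]
  have two : F 2 = 2 := map_ofNat F 2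
  have hb1 : F (F be) * (z1 ^ 2 + 1) = 2 * z1 := by
    have := congrArg (fun t => F (F t)) hb0
    simp only [map_mul, map_add, map_pow, map_one, two, ← hz1] at this
    exact this
  have hb2 : F (F (F (F be))) * (z2 ^ 2 + 1) = 2 * z2 := by
    have := congrArg (fun t => F (F t)) hb1
    simp only [map_mul, map_add, map_pow, map_one, two, ← hz2] at this
    exact this
  have hc1 : F (F (F (F (F be)))) * (z1 ^ 2 - 1) = 2 * D.ii * z1 := by
    have := congrArg (fun t => F (F t)) hc0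
    simp only [map_mul, map_sub, map_pow, map_one, two, hii, ← hz1] at this
    exact this
  have hc2 : F (F (F (F (F (F (F be)))))) * (z2 ^ 2 - 1) = 2 * D.ii * z2 := by
    have := congrArg (fun t => F (F t)) hc1
    simp only [map_mul, map_sub, map_pow, map_one, two, hii, ← hz2] at this
    exact this
  have hnu3 : F (F (F nu)) = nu⁻¹ := by
    rw [hnuF, map_inv₀, hnuF, inv_inv, hnuF]
  have hrel' : 1 + nu = -(F (F (F be)) * F (F (F (F (F be)))) +
      F (F (F (F (F be)))) * F (F (F (F (F (F (F be)))))) +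
      F (F (F (F (F (F (F be)))))) * F (F (F be))) := by
    have := congrArg (fun t => F (F (F t))) hrel
    simp only [map_neg, map_mul, map_add, map_inv₀, map_one, hnu3, one_div, inv_inv] at this
    exact this
  rw [one_div] at hrel
  have hA : (1 + nu⁻¹) * ((z0^2+1)*(z1^2+1)*(z2^2+1))
      = -4 * (z0*z1*z2*(z0+z1+z2) + (z0*z1+z1*z2+z2*z0)) := by
    rw [hrel]
    generalize F (F (F (F be))) = b2 at *
    generalize F (F be) = b1 at *
    linear_combination (-(b1 * (z1^2+1) * (z2^2+1)) - b2 * (z2^2+1) * (z1^2+1)) * hb0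
      + (-(2 * z0 * (z2^2+1)) - b2 * (z2^2+1) * (z0^2+1)) * hb1
      + (-(2 * z1 * (z0^2+1)) - 2 * z0 * (z1^2+1)) * hb2
  have hB : (1 + nu) * ((z0^2-1)*(z1^2-1)*(z2^2-1))
      = 4 * (z0*z1*z2*(z0+z1+z2) - (z0*z1+z1*z2+z2*z0)) := by
    rw [hrel']
    generalize F (F (F (F (F (F (F be)))))) = b2 at *
    generalize F (F (F (F (F be)))) = b1 at *
    generalize F (F (F be)) = b0 at *
    linear_combination (-(b1 * (z1^2-1) * (z2^2-1)) - b2 * (z2^2-1) * (z1^2-1)) * hc0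
      + (-(2 * D.ii * z0 * (z2^2-1)) - b2 * (z2^2-1) * (z0^2-1)) * hc1
      + (-(2 * D.ii * z1 * (z0^2-1)) - 2 * D.ii * z0 * (z1^2-1)) * hc2
      - 4 * (z0 * z1 * (z2^2-1) + z1 * z2 * (z0^2-1) + z2 * z0 * (z1^2-1)) * hii2
  have hkey := key z0 z1 z2 nu _ _ h2 rfl rfl hnu hA hB
  -- nonvanishing of `A`
  have hA0 : (z0^2+1)*(z1^2+1)*(z2^2+1) ≠ 0 := by
    have h0 : z0^2+1 ≠ 0 := by
      intro h; rw [h, mul_zero] at hb0
      rcases mul_eq_zero.mp hb0.symm with h | h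
      · exact h2 h
      · exact hz00 h
    have h1 : z1^2+1 ≠ 0 := by
      have := (map_ne_zero F).mpr ((map_ne_zero F).mpr h0)
      simpa only [map_add, map_pow, map_one, ← hz1] using this
    have h3 : z2^2+1 ≠ 0 := by
      have := (map_ne_zero F).mpr ((map_ne_zero F).mpr h1)
      simpa only [map_add, map_pow, map_one, ← hz2] using this
    exact mul_ne_zero (mul_ne_zero h0 h1) h3
  have hno : z0 + z1 ≠ 0 := by
    intro h
    have e1 : z1 = -z0 := by linear_combination h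
    have e2 : z2 = z0 := by rw [hz2, e1, map_neg, map_neg, ← hz1, e1, neg_neg]
    have e3 : z0 = z1 := by rw [← hz20, e2, ← hz1]
    rw [e1] at e3
    have : 2 * z0 = 0 := by linear_combination e3
    rcases mul_eq_zero.mp this with h | h
    · exact h2 h
    · exact hz00 h
  have hno1 : z1 + z2 ≠ 0 := by
    have := (map_ne_zero F).mpr ((map_ne_zero F).mpr hno)
    simpa only [map_add, ← hz1, ← hz2] using this
  have hno2 : z2 + z0 ≠ 0 := by
    have := (map_ne_zero F).mpr ((map_ne_zero F).mpr hno1)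
    simpa only [map_add, ← hz2, hz20] using this
  have hE : (z0+z1+z2)*(z0*z1+z1*z2+z2*z0) - z0*z1*z2 ≠ 0 := by
    have : (z0+z1+z2)*(z0*z1+z1*z2+z2*z0) - z0*z1*z2 = (z0+z1)*(z1+z2)*(z2+z0) := by ring
    rw [this]; exact mul_ne_zero (mul_ne_zero hno hno1) hno2
  have hE1 := (mul_eq_zero.mp hkey).resolve_left hE
  obtain ⟨E2, hE2⟩ : ∃ E, E = z0*z1+z1*z2+z2*z0 := ⟨_, rfl⟩
  obtain ⟨Z, hZ⟩ : ∃ Z, Z = z0*z1*z2 := ⟨_, rfl⟩
  have hE1' : z0+z1+z2 = Z * E2 := by rw [hZ, hE2]; linear_combination hE1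
  have hAA : (z0^2+1)*(z1^2+1)*(z2^2+1) = (1+Z^2)*(1-E2)^2 := by
    have : (z0^2+1)*(z1^2+1)*(z2^2+1) = 1 + ((z0+z1+z2)^2-2*E2) + (E2^2-2*Z*(z0+z1+z2)) + Z^2 := by
      rw [hZ, hE2]; ring
    rw [this, hE1']; ring
  rw [hAA] at hA hA0
  have hZ1 : 1 + Z^2 ≠ 0 := left_ne_zero_of_mul hA0
  have hE3 : 1 - E2 ≠ 0 := by
    intro h; rw [h] at hA0; simp at hA0
  have hA2 : (1 + nu⁻¹) * (1-E2)^2 = -4 * E2 := by
    apply mul_left_cancel₀ hZ1
    rw [hE1', ← hZ, ← hE2] at hA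
    linear_combination hA
  have hnu2 : (1 + E2)^2 * nu = -(1 - E2)^2 := by
    have : nu⁻¹ * nu = 1 := inv_mul_cancel₀ hnu
    linear_combination nu * hA2 - (1-E2)^2 * this
  have hE4 : 1 + E2 ≠ 0 := by
    intro h; rw [h] at hnu2
    apply hE3
    have h3 : (1 - E2)^2 = 0 := by linear_combination hnu2
    exact pow_eq_zero_iff (two_ne_zero) |>.mp h3
  -- `F E2 = - E2`
  have hE2F2 : F (F E2) = E2 := by
    rw [hE2]; simp only [map_add, map_mul, ← hz1, ← hz2, hz20]; ring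
  have hw1 : F (F (F z1)) * z1 = D.ii := by
    have := congrArg (fun t => F (F t)) hFz0
    simp only [map_mul, hii, ← hz1] at this
    exact this
  have hw2 : F (F (F z2)) * z2 = D.ii := by
    have := congrArg (fun t => F (F t)) hw1
    simp only [map_mul, hii, ← hz2] at this
    exact this
  have hz10 : z1 ≠ 0 := by rw [hz1]; exact (map_ne_zero F).mpr ((map_ne_zero F).mpr hz00)
  have hz20' : z2 ≠ 0 := by rw [hz2]; exact (map_ne_zero F).mpr ((map_ne_zero F).mpr hz10)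
  have hZ0 : Z ≠ 0 := by rw [hZ]; exact mul_ne_zero (mul_ne_zero hz00 hz10) hz20'
  have hFE2 : F E2 = -E2 := by
    have h3 : F (F (F E2)) = F E2 := by rw [hE2F2]
    rw [← h3]
    apply mul_left_cancel₀ hZ0
    have h4 : F (F (F E2)) = F (F (F z0)) * F (F (F z1)) + F (F (F z1)) * F (F (F z2)) +
        F (F (F z2)) * F (F (F z0)) := by
      rw [hE2]; simp only [map_add, map_mul]
    rw [h4]
    generalize F (F (F z0)) = w0 at *
    generalize F (F (F z1)) = w1 at *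
    generalize F (F (F z2)) = w2 at *
    have h5 : Z * (w0 * w1 + w1 * w2 + w2 * w0) = -(z0+z1+z2) := by
      rw [hZ]
      linear_combination (z2 * (w1 * z1) + z1 * (w2 * z2)) * hFz0 + (z2 * D.ii + z0 * (w2 * z2)) * hw1
        + (z0 * D.ii + z1 * D.ii) * hw2 + (z0 + z1 + z2) * hii2
    rw [h5, hE1']; ring
  obtain ⟨n, hn⟩ : ∃ n, n = (1 - E2) / (1 + E2) := ⟨_, rfl⟩
  have hn0 : n ≠ 0 := by rw [hn]; exact div_ne_zero hE3 hE4
  have hnn : nu = -1 * n ^ 2 := by
    rw [hn]; field_simp; linear_combination hnu2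
  have hFn : n ^ D.q = n⁻¹ := by
    have : F n = n⁻¹ := by
      rw [hn, map_div₀, map_sub, map_add, map_one, hFE2, inv_div]
      congr 1 <;> ring
    exact this
  have hm : Odd ((D.q + 1) / 2) := by
    have := D.h4
    exact ⟨D.q / 4, by omega⟩
  have hm2 : 2 * ((D.q + 1) / 2) = D.q + 1 := by have := D.h4; omega
  rw [hnn, mul_pow, hm.neg_one_pow, ← pow_mul, hm2, pow_succ, hFn, inv_mul_cancel₀ hn0, mul_one]

end Pool.Agent.TH889.J3613
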