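import Pool.Agent.TH62.PL.Stms

/-! Common lemmas for jobs 730 and 731 (quadratic elements). -/

set_option autoImplicit false

namespace Pool.Agent.TH889.PLq

open Pool.Agent.TH62.PL

/-- bimultiplicative alternating pairing -/
structure BL {M k : Type} [Group M] [Field k] (β : M → M → k) : Prop where
  mulL : ∀ x y z, β (x * y) z = β x z * β y z
  mulR : ∀ x y z, β x (y * z) = β x y * β x z
  ne : ∀ x y, β x y ≠ 0
  alt : ∀ x, β x x = 1

section BLsec
variable {M k : Type} [Group M] [Field k] {β : M → M → k}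

lemma BL.oneL (h : BL β) (z : M) : β 1 z = 1 := by
  have := h.mulL 1 1 z
  rw [one_mul] at this
  exact (mul_eq_left₀ (h.ne 1 z)).1 this.symm

lemma BL.oneR (h : BL β) (z : M) : β z 1 = 1 := by
  have := h.mulR z 1 1
  rw [one_mul] at this
  exact (mul_eq_left₀ (h.ne z 1)).1 this.symm

lemma BL.invL (h : BL β) (x z : M) : β x⁻¹ z = (β x z)⁻¹ := by
  have := h.mulL x⁻¹ x z
  rw [inv_mul_cancel, h.oneL] at this
  exact eq_inv_of_mul_eq_one_left this.symm

lemma BL.invR (h : BL β) (x z : M) : β z x⁻¹ = (β z x)⁻¹ := by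
  have := h.mulR z x⁻¹ x
  rw [inv_mul_cancel, h.oneR] at this
  exact eq_inv_of_mul_eq_one_left this.symm

lemma BL.symm (h : BL β) (x y : M) : β x y * β y x = 1 := by
  have := h.alt (x * y)
  rw [h.mulL, h.mulR, h.mulR, h.alt, h.alt, one_mul, mul_one] at this
  exact this

lemma shift {g : ℕ → k} (hg : ∀ t, g t ≠ 0) {p : ℕ} (hp : g p = g 0) :
    ∏ t ∈ Finset.range p, g (t + 1) = ∏ t ∈ Finset.range p, g t := by
  have h1 := Finset.prod_range_succ g p
  have h2 := Finset.prod_range_succ' g p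
  rw [h1, hp] at h2
  exact (mul_right_cancel₀ (hg 0) h2).symm

lemma one_of_pow {x : k} {p q : ℕ} (h : p.Coprime q) (hp : x ^ p = 1) (hq : x ^ q = 1) :
    x = 1 := by
  have h1 := orderOf_dvd_of_pow_eq_one hp
  have h2 := orderOf_dvd_of_pow_eq_one hq
  have h3 := Nat.dvd_gcd h1 h2
  rw [h.gcd_eq_one, Nat.dvd_one, orderOf_eq_one_iff] at h3
  exact h3

/-- the element `(α x)⁻¹ x` -/
def D (α : MulAut M) (x : M) : M := (α x)⁻¹ * x

lemma D_map (α : MulAut M) (x : M) (t : ℕ) : (α ^ t) (D α x) = D α ((α ^ t) x) := by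
  unfold D
  rw [map_mul, map_inv]
  have : (α ^ t) (α x) = α ((α ^ t) x) := by
    rw [← MulAut.mul_apply, ← MulAut.mul_apply, ← pow_succ, ← pow_succ']
  rw [this]

/-- telescoping -/
lemma tele (h : BL β) (α : MulAut M) {p : ℕ} (hαp : ∀ x, (α ^ p) x = x) (x y : M)
    (hu : ∀ t : ℕ, β y ((α ^ t) (D α x)) = β y (D α x)) : β y (D α x) ^ p = 1 := by
  have h1 : ∏ t ∈ Finset.range p, β y ((α ^ t) (D α x)) = β y (D α x) ^ p := by
    rw [Finset.prod_congr rfl fun t _ => hu t, Finset.prod_const, Finset.card_range]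
  rw [← h1]
  have h2 : ∀ t : ℕ, β y ((α ^ t) (D α x)) = (β y ((α ^ (t + 1)) x))⁻¹ * β y ((α ^ t) x) := by
    intro t
    rw [D_map, D, h.mulR, h.invR]
    congr 2
    rw [pow_succ', MulAut.mul_apply]
  rw [Finset.prod_congr rfl fun t _ => h2 t, Finset.prod_mul_distrib, Finset.prod_inv_distrib,
    shift (g := fun t => β y ((α ^ t) x)) (fun t => h.ne _ _) (by simp [hαp x])]
  exact inv_mul_cancel₀ (Finset.prod_ne_zero_iff.2 fun t _ => h.ne _ _)

omit [Field k] in
/-- if `α u ≡ u` modulo the radical then `α^t u ≡ u` -/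
lemma iter (α : MulAut M) (hinv : ∀ x y, β (α x) (α y) = β x y) (u : M)
    (hu : ∀ y, β y (α u) = β y u) (t : ℕ) : ∀ y, β y ((α ^ t) u) = β y u := by
  induction t with
  | zero => intro y; simp
  | succ t ih =>
    intro y
    obtain ⟨y', rfl⟩ := α.surjective y
    rw [pow_succ', MulAut.mul_apply, hinv, ih y', ← hinv, hu]

/-- the pure algebra part for `q` odd -/
lemma oddAlg (h : BL β) (α : MulAut M) {p q : ℕ} (hpq : p.Coprime q) (hodd : Odd p)
    (hq : ∀ x y, β x y ^ q = 1) (hαp : ∀ x, (α ^ p) x = x)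
    (hinv : ∀ x y, β (α x) (α y) = β x y)
    (H1 : ∀ x, β (D α x) (α (D α x)) = 1) (y x : M) : β y (D α x) = 1 := by
  -- polarisation
  have hDl : ∀ x y w, β (D α (x * y)) w = β (D α x) w * β (D α y) w := by
    intro x y w
    simp only [D, map_mul, h.mulL, h.invL, mul_inv]
    ring
  have hDr : ∀ x y w, β w (α (D α (x * y))) = β w (α (D α x)) * β w (α (D α y)) := by
    intro x y w
    simp only [D, map_mul, map_inv, h.mulR, h.invR, mul_inv]
    ring
  have hpol : ∀ x y, β (D α x) (α (D α y)) * β (D α y) (α (D α x)) = 1 := by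
    intro x y
    have := H1 (x * y)
    rw [hDl, hDr, hDr, H1, H1, one_mul, mul_one] at this
    exact this
  have h4 : ∀ x y, β (D α x) (α (D α y)) = β (α (D α x)) (D α y) := by
    intro x y
    have e1 := hpol x y
    have e2 := h.symm (α (D α x)) (D α y)
    exact mul_right_cancel₀ (h.ne (D α y) (α (D α x))) (e1.trans e2.symm)
  -- (v)
  have h5 : ∀ x y, β (D α x) ((α ^ 2) (D α y)) = β (D α x) (D α y) := by
    intro x y
    have e := h4 x (α y)
    have e1 : D α (α y) = α (D α y) := by simpa using (D_map α y 1).symm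
    rw [e1, hinv] at e
    rw [pow_two, MulAut.mul_apply]
    exact e
  -- (vi), (vii)
  have h7 : ∀ y x, β x ((α ^ 2) (D α y)) = β x (D α y) := by
    intro y x
    set u := D α y with hu
    have f1 : ∀ z, β (α z) ((α ^ 2) u) * β z u = β z ((α ^ 2) u) * β (α z) u := by
      intro z
      have e := h5 z y
      rw [← hu, D, h.mulL, h.mulL, h.invL, h.invL] at e
      field_simp [h.ne] at e
      linear_combination -e
    set F : k := β x ((α ^ 2) u) / β x u with hF
    have f2 : ∀ t : ℕ, β ((α ^ t) x) ((α ^ 2) u) / β ((α ^ t) x) u = F := by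
      intro t
      induction t with
      | zero => simp [hF]
      | succ t ih =>
        rw [← ih, div_eq_div_iff (h.ne _ _) (h.ne _ _), pow_succ', MulAut.mul_apply]
        exact f1 _
    have hF0 : F ^ p = 1 := by
      have e1 : ∏ t ∈ Finset.range p, β ((α ^ t) x) ((α ^ 2) u) / β ((α ^ t) x) u = F ^ p := by
        rw [Finset.prod_congr rfl fun t _ => f2 t, Finset.prod_const, Finset.card_range]
      rw [← e1, Finset.prod_div_distrib]
      have e2 : ∏ t ∈ Finset.range p, β ((α ^ t) x) u =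
          ∏ t ∈ Finset.range p, β ((α ^ (t + 2)) x) ((α ^ 2) u) := by
        refine Finset.prod_congr rfl fun t _ => ?_
        have : (α ^ (t + 2)) x = (α ^ 2) ((α ^ t) x) := by
          rw [← MulAut.mul_apply, ← pow_add, add_comm]
        rw [this, pow_two, MulAut.mul_apply, MulAut.mul_apply, hinv, hinv]
      have e3 := shift (g := fun t => β ((α ^ (t + 1)) x) ((α ^ 2) u)) (fun t => h.ne _ _)
        (p := p) (by
          have : (α ^ (p + 1)) x = (α ^ (0 + 1)) x := by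
            rw [pow_succ, MulAut.mul_apply, hαp]; simp
          simp only [this])
      have e4 := shift (g := fun t => β ((α ^ t) x) ((α ^ 2) u)) (fun t => h.ne _ _)
        (p := p) (by simp [hαp x])
      rw [e2]
      rw [show (∏ t ∈ Finset.range p, β ((α ^ (t + 2)) x) ((α ^ 2) u)) =
        ∏ t ∈ Finset.range p, β ((α ^ (t + 1 + 1)) x) ((α ^ 2) u) from rfl, e3, e4]
      exact div_self (Finset.prod_ne_zero_iff.2 fun t _ => h.ne _ _)
    have hF1 : F = 1 := one_of_pow hpq hF0 (by rw [hF, div_pow, hq, hq, div_one])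
    rw [hF, div_eq_one_iff_eq (h.ne _ _)] at hF1
    exact hF1
  -- `α u ≡ u` for `u = D y`
  have h8 : ∀ y x, β x (α (D α y)) = β x (D α y) := by
    intro y
    obtain ⟨m, hm⟩ := hodd
    have e1 : ∀ m : ℕ, ∀ x, β x ((α ^ (2 * m)) (D α y)) = β x (D α y) := by
      intro m
      induction m with
      | zero => intro x; simp
      | succ m ih =>
        intro x
        have : (α ^ (2 * (m + 1))) (D α y) = (α ^ 2) (D α ((α ^ (2 * m)) y)) := by
          rw [← D_map, ← MulAut.mul_apply, ← pow_add]; congr 2; ring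
        rw [this, h7, ← D_map, ih]
    intro x
    have e2 := e1 (m + 1) x
    have e3 : (α ^ (2 * (m + 1))) (D α y) = α (D α y) := by
      rw [show 2 * (m + 1) = 1 + p by omega, pow_add, MulAut.mul_apply, hαp, pow_one]
    rw [e3] at e2
    exact e2
  have h9 : β y (D α x) ^ p = 1 :=
    tele h α hαp x y fun t => iter α hinv _ (fun z => h8 x z) t y
  exact one_of_pow hpq h9 (hq _ _)

end BLsec


section QCsec
variable {G k : Type} [Group G] [Field k] {q : ℕ} {Q Z : Subgroup G} {c : G → k}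

/-- the pairing on `G` -/
def bt (c : G → k) (x y : G) : k := c (x * y * x⁻¹ * y⁻¹)

lemma c_one (h : QC q Q Z c) : c 1 = 1 := by
  have := h.cmul 1 Z.one_mem 1 Z.one_mem
  rw [one_mul] at this
  exact (mul_eq_left₀ (h.cne 1 Z.one_mem)).1 this.symm

lemma c_inv (h : QC q Q Z c) {z : G} (hz : z ∈ Z) : c z⁻¹ = (c z)⁻¹ := by
  have := h.cmul z⁻¹ (Z.inv_mem hz) z hz
  rw [inv_mul_cancel, c_one h] at this
  exact eq_inv_of_mul_eq_one_left this.symm

lemma c_pow (h : QC q Q Z c) {z : G} (hz : z ∈ Z) (n : ℕ) : c (z ^ n) = c z ^ n := by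
  induction n with
  | zero => simp [c_one h]
  | succ n ih => rw [pow_succ, h.cmul _ (Z.pow_mem hz n) _ hz, ih, pow_succ]

/-- the pairing on `Q` -/
def bq (Q : Subgroup G) (c : G → k) (x y : Q) : k := bt c x y

lemma bl (h : QC q Q Z c) : BL (bq Q c) where
  mulL x y z := by
    have e : (x * y : G) * z * (x * y : G)⁻¹ * (z : G)⁻¹ =
        (y * z * (y : G)⁻¹ * (z : G)⁻¹) * (x * z * (x : G)⁻¹ * (z : G)⁻¹) := by
      have hc := h.cent _ (h.comm y y.2 z z.2) _ (x * z * x⁻¹).2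
      have hc' := h.cent _ (h.comm y y.2 z z.2) _ x.2
      push_cast at hc
      calc (x * y : G) * z * (x * y : G)⁻¹ * (z : G)⁻¹
          = x * (y * z * (y : G)⁻¹ * (z : G)⁻¹) * (z * (x : G)⁻¹ * (z : G)⁻¹) := by group
        _ = (y * z * (y : G)⁻¹ * (z : G)⁻¹) * x * (z * (x : G)⁻¹ * (z : G)⁻¹) := by rw [hc']
        _ = _ := by group
    show c _ = c _ * c _
    rw [Subgroup.coe_mul, e, h.cmul _ (h.comm y y.2 z z.2) _ (h.comm x x.2 z z.2), mul_comm]
  mulR x y z := by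
    have e : (x : G) * (y * z : G) * (x : G)⁻¹ * (y * z : G)⁻¹ =
        (x * y * (x : G)⁻¹ * (y : G)⁻¹) * (x * z * (x : G)⁻¹ * (z : G)⁻¹) := by
      have hc' := h.cent _ (h.comm x x.2 z z.2) _ y.2
      calc (x : G) * (y * z : G) * (x : G)⁻¹ * (y * z : G)⁻¹
          = (x * y * (x : G)⁻¹ * (y : G)⁻¹) * (y * (x * z * (x : G)⁻¹ * (z : G)⁻¹)) * (y : G)⁻¹ := by
            group
        _ = (x * y * (x : G)⁻¹ * (y : G)⁻¹) * ((x * z * (x : G)⁻¹ * (z : G)⁻¹) * y) * (y : G)⁻¹ := by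
            rw [hc']
        _ = _ := by group
    show c _ = c _ * c _
    rw [Subgroup.coe_mul, e, h.cmul _ (h.comm x x.2 y y.2) _ (h.comm x x.2 z z.2)]
  ne x y := h.cne _ (h.comm x x.2 y y.2)
  alt x := by
    show c _ = 1
    have : (x : G) * x * (x : G)⁻¹ * (x : G)⁻¹ = 1 := by group
    rw [this, c_one h]

lemma bq_powL (h : QC q Q Z c) (x y : Q) (n : ℕ) : bq Q c (x ^ n) y = bq Q c x y ^ n := by
  induction n with
  | zero => simp [(bl h).oneL]
  | succ n ih => rw [pow_succ, (bl h).mulL, ih, pow_succ]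

lemma bq_powR (h : QC q Q Z c) (x y : Q) (n : ℕ) : bq Q c x (y ^ n) = bq Q c x y ^ n := by
  induction n with
  | zero => simp [(bl h).oneR]
  | succ n ih => rw [pow_succ, (bl h).mulR, ih, pow_succ]

lemma bq_Z (h : QC q Q Z c) (z y : Q) (hz : (z : G) ∈ Z) : bq Q c z y = 1 := by
  show c _ = 1
  have := h.cent z hz y y.2
  rw [this, mul_inv_cancel_right, mul_inv_cancel, c_one h]

lemma bq_q (h : QC q Q Z c) (x y : Q) : bq Q c x y ^ q = 1 := by
  rw [← bq_powL h]
  exact bq_Z h _ _ (by simpa using h.pow x x.2)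

/-- `c ((x y)^n)` in a class two group -/
lemma pow_mul_form (h : QC q Q Z c) (x y : Q) (n : ℕ) :
    ∃ z ∈ Z, ((x * y : Q) : G) ^ n = (x : G) ^ n * (y : G) ^ n * z ∧
      c z = bq Q c y x ^ (n * (n - 1) / 2) := by
  induction n with
  | zero => exact ⟨1, Z.one_mem, by simp, by simp [c_one h]⟩
  | succ n ih =>
    obtain ⟨z, hz, h1, h2⟩ := ih
    have hy : (y : G) ^ n ∈ Q := Q.pow_mem y.2 n
    have hw := h.comm _ hy _ x.2
    set w : G := (y : G) ^ n * x * ((y : G) ^ n)⁻¹ * (x : G)⁻¹ with hwd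
    refine ⟨w * z, Z.mul_mem hw hz, ?_, ?_⟩
    · have c1 := h.cent z hz (x * y) (Q.mul_mem x.2 y.2)
      have c2 := h.cent w hw (x * (y : G) ^ n * y) (Q.mul_mem (Q.mul_mem x.2 hy) y.2)
      rw [pow_succ, h1, Subgroup.coe_mul]
      calc (x : G) ^ n * (y : G) ^ n * z * (x * y)
          = (x : G) ^ n * (y : G) ^ n * (z * (x * y)) := by group
        _ = (x : G) ^ n * (y : G) ^ n * (x * y * z) := by rw [c1]
        _ = (x : G) ^ n * (w * (x * (y : G) ^ n * y)) * z := by rw [hwd]; group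
        _ = (x : G) ^ n * (x * (y : G) ^ n * y * w) * z := by rw [c2]
        _ = (x : G) ^ (n + 1) * (y : G) ^ (n + 1) * (w * z) := by
            rw [pow_succ, pow_succ]; group
    · rw [h.cmul _ hw _ hz, h2]
      have e : c w = bq Q c y x ^ n := by
        rw [← bq_powL h]; rfl
      rw [e, ← pow_add]
      congr 1
      have := Finset.sum_range_id_mul_two n
      have := Finset.sum_range_id_mul_two (n + 1)
      rw [← Finset.sum_range_id, ← Finset.sum_range_id, Finset.sum_range_succ, add_comm]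

/-- conjugation by an element centralising `Z` preserves the pairing -/
lemma bt_conj (h : QC q Q Z c) {a : G} (ha : ∀ z ∈ Z, a * z = z * a) {x y : G} (hx : x ∈ Q)
    (hy : y ∈ Q) : bt c (a * x * a⁻¹) (a * y * a⁻¹) = bt c x y := by
  unfold bt
  congr 1
  have := ha _ (h.comm x hx y hy)
  calc a * x * a⁻¹ * (a * y * a⁻¹) * (a * x * a⁻¹)⁻¹ * (a * y * a⁻¹)⁻¹
      = a * (x * y * x⁻¹ * y⁻¹) * a⁻¹ := by group
    _ = _ := by rw [this, mul_inv_cancel_right]

end QCsec


section OP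
variable {G k V : Type} [Group G] [Field k] [AddCommGroup V] [Module k V] {q : ℕ}
  {ρ : G →* Module.End k V} {Q Z : Subgroup G} {e : Module.End k V} {c : G → k}

lemma eQ (h : WC q ρ Q Z e c) {x : G} (hx : x ∈ Q) (w : V) : ρ x (e w) = e (ρ x w) :=
  congrArg (fun f : Module.End k V => f w) (h.commQ x hx)

lemma scE (h : WC q ρ Q Z e c) {z : G} (hz : z ∈ Z) (w : V) : ρ z (e w) = c z • e w :=
  congrArg (fun f : Module.End k V => f w) (h.sc z hz)

lemma rho_mul (x y : G) (v : V) : ρ (x * y) v = ρ x (ρ y v) := by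
  rw [map_mul]; rfl

lemma rho_inv_self (x : G) (v : V) : ρ x⁻¹ (ρ x v) = v := by
  rw [← rho_mul, inv_mul_cancel, map_one]; rfl

lemma rho_self_inv (x : G) (v : V) : ρ x (ρ x⁻¹ v) = v := by
  rw [← rho_mul, mul_inv_cancel, map_one]; rfl

lemma swapE (h : WC q ρ Q Z e c) (x y : Q) (w : V) :
    ρ x (ρ y (e w)) = bq Q c x y • ρ y (ρ x (e w)) := by
  rw [← rho_mul, ← rho_mul]
  have : (x : G) * y = (x * y * (x : G)⁻¹ * (y : G)⁻¹) * (y * x) := by group
  rw [this, rho_mul, eQ h (Q.mul_mem y.2 x.2), scE h (h.comm x x.2 y y.2)]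
  rfl

/-- conjugation by `a⁻¹` on `Q` -/
def al (Q : Subgroup G) [Q.Normal] (a : G) : MulAut Q := MulAut.conjNormal a⁻¹

lemma al_apply [Q.Normal] (a : G) (x : Q) : ((al Q a x : Q) : G) = a⁻¹ * x * a := by
  simp [al]

lemma al_pow [Q.Normal] (a : G) (p : ℕ) (hp : ∀ x ∈ Q, a ^ p * x = x * a ^ p) (x : Q) :
    ((al Q a) ^ p) x = x := by
  apply Subtype.ext
  rw [al, ← map_pow, MulAut.conjNormal_apply, inv_pow, inv_inv, mul_assoc, ← hp x x.2]
  group

lemma al_inv (h : QC q Q Z c) [Q.Normal] {a : G} (ha : ∀ z ∈ Z, a * z = z * a) (x y : Q) :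
    bq Q c (al Q a x) (al Q a y) = bq Q c x y := by
  unfold bq
  rw [al_apply, al_apply]
  have := bt_conj h (a := a⁻¹) (fun z hz => by
    have := ha z hz
    calc a⁻¹ * z = a⁻¹ * (z * a) * a⁻¹ := by group
      _ = a⁻¹ * (a * z) * a⁻¹ := by rw [this]
      _ = z * a⁻¹ := by group) x.2 y.2
  rwa [inv_inv] at this

variable {a : G}

lemma quad (hq2 : (ρ a - 1) * (ρ a - 1) * e = 0) (w : V) :
    ρ a (ρ a (e w)) = ρ a (e w) + ρ a (e w) - e w := by
  have := congrArg (fun f : Module.End k V => f w) hq2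
  simp only [Module.End.mul_apply, LinearMap.sub_apply, Module.End.one_apply, map_sub,
    LinearMap.zero_apply] at this
  have h2 : ρ a (ρ a (e w)) - (ρ a (e w) + ρ a (e w) - e w) = 0 := by
    rw [← this]; abel
  exact sub_eq_zero.1 h2

lemma quadb (h : WC q ρ Q Z e c) (hq2 : (ρ a - 1) * (ρ a - 1) * e = 0) (x : Q) (w : V) :
    ρ ((x : G)⁻¹ * a * x) (ρ ((x : G)⁻¹ * a * x) (e w)) =
      ρ ((x : G)⁻¹ * a * x) (e w) + ρ ((x : G)⁻¹ * a * x) (e w) - e w := by
  have h1 := quad hq2 (ρ x w)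
  rw [← eQ h x.2] at h1
  have h2 := congrArg (ρ (x : G)⁻¹) h1
  rw [map_sub, map_add, rho_inv_self] at h2
  have e1 : ρ ((x : G)⁻¹ * a * x) (e w) = ρ (x : G)⁻¹ (ρ a (ρ x (e w))) := by
    simp only [rho_mul]
  have e2 : ρ ((x : G)⁻¹ * a * x) (ρ ((x : G)⁻¹ * a * x) (e w)) =
      ρ (x : G)⁻¹ (ρ a (ρ a (ρ x (e w)))) := by
    simp only [rho_mul, rho_self_inv]
  rw [e2, e1]
  exact h2

lemma D_coe [Q.Normal] (x : Q) : ((D (al Q a) x : Q) : G) = a⁻¹ * ((x : G)⁻¹ * a * x) := by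
  rw [D, Subgroup.coe_mul, Subgroup.coe_inv, al_apply]; group

/-- the fixed space of `c0` on the image of `e` is `a`-invariant -/
lemma fixa (h : WC q ρ Q Z e c) [Q.Normal] (hae : ρ a * e = e * ρ a)
    (hq2 : (ρ a - 1) * (ρ a - 1) * e = 0) (x : Q) (w : V)
    (hw : ρ (D (al Q a) x : Q) (e w) = e w) :
    ρ (D (al Q a) x : Q) (ρ a (e w)) = ρ a (e w) ∧ ρ a (e w) = e (ρ a w) ∧
    ρ (al Q a (D (al Q a) x) : Q) (e w) = e w := by
  have h0 : ρ a (e w) = e (ρ a w) := congrArg (fun f : Module.End k V => f w) hae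
  have hb : ρ ((x : G)⁻¹ * a * x) (e w) = ρ a (e w) := by
    rw [D_coe, rho_mul] at hw
    have := congrArg (ρ a) hw
    rwa [rho_self_inv] at this
  have h1 := quadb h hq2 x w
  rw [hb, ← quad hq2 w] at h1
  have h2 : ρ (D (al Q a) x : Q) (ρ a (e w)) = ρ a (e w) := by
    rw [D_coe, rho_mul, h1, rho_inv_self]
  refine ⟨h2, h0, ?_⟩
  rw [al_apply, mul_assoc, rho_mul, rho_mul, h2, rho_inv_self]

lemma caseC (h : WC q ρ Q Z e c) [Q.Normal] (hae : ρ a * e = e * ρ a)
    (hq2 : (ρ a - 1) * (ρ a - 1) * e = 0) (x : Q) (w : V) (hne : e w ≠ 0)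
    (hw : ρ (D (al Q a) x : Q) (e w) = e w) :
    bq Q c (D (al Q a) x) (al Q a (D (al Q a) x)) = 1 := by
  obtain ⟨-, -, h3⟩ := fixa h hae hq2 x w hw
  have h4 := swapE h (D (al Q a) x) (al Q a (D (al Q a) x)) w
  rw [h3, hw, h3] at h4
  have h5 : (bq Q c (D (al Q a) x) (al Q a (D (al Q a) x)) - 1) • e w = 0 := by
    rw [sub_smul, one_smul, ← h4, sub_self]
  rcases smul_eq_zero.1 h5 with h6 | h6
  · exact sub_eq_zero.1 h6
  · exact absurd h6 hne

/-- `c (c0 ^ q)` -/
lemma c0_pow (h : QC q Q Z c) [Q.Normal] (ha : ∀ z ∈ Z, a * z = z * a) (x : Q) :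
    ((D (al Q a) x : Q) : G) ^ q ∈ Z ∧
    c (((D (al Q a) x : Q) : G) ^ q) = (bq Q c x (al Q a x))⁻¹ ^ (q * (q - 1) / 2) := by
  obtain ⟨z, hz, h1, h2⟩ := pow_mul_form h (al Q a x)⁻¹ x q
  have e1 : (((al Q a x)⁻¹ : Q) : G) ^ q = ((x : G) ^ q)⁻¹ := by
    rw [Subgroup.coe_inv, al_apply, inv_pow]
    congr 1
    have : (a⁻¹ * x * a) ^ q = a⁻¹ * (x : G) ^ q * a := by
      have := conj_pow (i := q) (a := a⁻¹) (b := (x : G))
      simpa using this
    rw [this, mul_assoc, ← ha _ (h.pow x x.2), inv_mul_cancel_left]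
  have e2 : ((D (al Q a) x : Q) : G) ^ q = z := by
    unfold D
    rw [h1, e1, inv_mul_cancel, one_mul]
  rw [e2]
  exact ⟨hz, by rw [h2, (bl h).invR]⟩

lemma powE (h : WC q ρ Q Z e c) (x : Q) (t : ℕ) (w : V) :
    ρ ((x : G) ^ t) (e w) = e (ρ ((x : G) ^ t) w) := eQ h (Q.pow_mem x.2 t) w

/-- if `c0` has no fixed vector on the image of `e` and `q ≠ 0` in `k` then `c0` is in the radical -/
lemma caseN (h : WC q ρ Q Z e c) (hqp : q.Prime) (hqk : (q : k) ≠ 0) (x : Q)
    (hc : c ((x : G) ^ q) = 1) (hN : ∀ w, ρ x (e w) = e w → e w = 0) (y : Q) :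
    bq Q c y x = 1 := by
  by_contra hζ
  apply h.ne
  have hζq := bq_q h.toQC y x
  have hfix : ∀ w, ρ ((x : G) ^ q) (e w) = e w := by
    intro w
    rw [scE h (h.pow x x.2), hc, one_smul]
  have hS : ∀ w, ∑ t ∈ Finset.range q, ρ ((x : G) ^ t) (e w) = 0 := by
    intro w
    have h1 : ∑ t ∈ Finset.range q, ρ ((x : G) ^ t) (e w) =
        e (∑ t ∈ Finset.range q, ρ ((x : G) ^ t) w) := by
      rw [map_sum]
      exact Finset.sum_congr rfl fun t _ => powE h x t w
    rw [h1]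
    apply hN
    rw [← h1, map_sum]
    have h2 : ∀ t, ρ x (ρ ((x : G) ^ t) (e w)) = ρ ((x : G) ^ (t + 1)) (e w) := by
      intro t
      rw [← rho_mul, ← pow_succ']
    rw [Finset.sum_congr rfl fun t _ => h2 t]
    have h3 := Finset.sum_range_succ (fun t => ρ ((x : G) ^ t) (e w)) q
    have h4 := Finset.sum_range_succ' (fun t => ρ ((x : G) ^ t) (e w)) q
    rw [h3, hfix, pow_zero, map_one] at h4
    exact (add_right_cancel h4).symm
  have hS2 : ∀ (s : ℕ) (w : V),
      ∑ t ∈ Finset.range q, (bq Q c y x ^ t) ^ s • ρ ((x : G) ^ t) (e w) = 0 := by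
    intro s w
    have h1 := hS (ρ (((y ^ s : Q) : G)⁻¹) w)
    have h2 := congrArg (ρ ((y ^ s : Q) : G)) h1
    rw [map_zero, map_sum] at h2
    rw [← h2]
    refine Finset.sum_congr rfl fun t _ => ?_
    have h3 := swapE h (y ^ s) (x ^ t) (ρ (((y ^ s : Q) : G)⁻¹) w)
    rw [← eQ h (Q.inv_mem (y ^ s).2), rho_self_inv, bq_powL h.toQC, bq_powR h.toQC] at h3
    rw [show ((x ^ t : Q) : G) = (x : G) ^ t from rfl] at h3
    rw [← eQ h (Q.inv_mem (y ^ s).2), h3]
  ext w
  have h5 : ∑ s ∈ Finset.range q, ∑ t ∈ Finset.range q,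
      (bq Q c y x ^ t) ^ s • ρ ((x : G) ^ t) (e w) = 0 :=
    Finset.sum_eq_zero fun s _ => hS2 s w
  rw [Finset.sum_comm] at h5
  have h6 : ∀ t ∈ Finset.range q, t ≠ 0 →
      ∑ s ∈ Finset.range q, (bq Q c y x ^ t) ^ s • ρ ((x : G) ^ t) (e w) = 0 := by
    intro t ht ht0
    rw [← Finset.sum_smul]
    have hne : bq Q c y x ^ t ≠ 1 := by
      intro h7
      apply hζ
      refine one_of_pow ?_ h7 hζq
      exact (Nat.coprime_of_lt_prime ht0 (Finset.mem_range.1 ht) hqp).symm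
    have h8 := geom_sum_mul (bq Q c y x ^ t) q
    rw [← pow_mul, mul_comm t q, pow_mul, hζq, one_pow, sub_self] at h8
    rcases mul_eq_zero.1 h8 with h9 | h9
    · rw [h9, zero_smul]
    · exact absurd (sub_eq_zero.1 h9) hne
  rw [Finset.sum_eq_single_of_mem 0 (Finset.mem_range.2 hqp.pos) h6] at h5
  simp only [pow_zero, one_pow, one_smul, map_one, Module.End.one_apply, Finset.sum_const,
    Finset.card_range] at h5
  rw [← Nat.cast_smul_eq_nsmul k, smul_eq_zero] at h5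
  rcases h5 with h5 | h5
  · exact absurd h5 hqk
  · simpa using h5

end OP

end Pool.Agent.TH889.PLq
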